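import Mathlib

/-!
# Shortest paths in the good graph (module A2)

Part of the machine of Section 1 (lower bound for sets without a unique sum in `ZMod p`): a shortest
path from `x` to a vertex without the property `Q` has few edges of every class.
-/

namespace PoolBe0380.M

open Finset

/-- `v` is reached from `x` by a walk of length `n` -/
private def PathW {G : Type} (Adj : G → G → Prop) (x : G) : ℕ → G → Prop
  | 0, v => v = x
  | n + 1, v => ∃ u, PathW Adj x n u ∧ Adj u v

private lemma PathW_of {G : Type} {Adj : G → G → Prop} {x p : G}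
    (h : Relation.ReflTransGen Adj x p) : ∃ n, PathW Adj x n p := by
  induction h with
  | refl => exact ⟨0, rfl⟩
  | tail _ h ih =>
    obtain ⟨n, hn⟩ := ih
    exact ⟨n + 1, _, hn, h⟩

private lemma PathW_to {G : Type} {Adj : G → G → Prop} {x : G} : ∀ (n : ℕ) (v : G),
    PathW Adj x n v → Relation.ReflTransGen Adj x v := by
  intro n
  induction n with
  | zero =>
    intro v h
    have h' : v = x := h
    rw [h']
  | succ n ih =>
    rintro v ⟨u, hu, h⟩
    exact (ih u hu).tail h

private lemma PathW_fun {G : Type} {Adj : G → G → Prop} {x : G} : ∀ (n : ℕ) (v : G),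
    PathW Adj x n v → ∃ f : ℕ → G, f 0 = x ∧ f n = v ∧ (∀ k ≤ n, PathW Adj x k (f k)) ∧
      ∀ k < n, Adj (f k) (f (k + 1)) := by
  intro n
  induction n with
  | zero =>
    intro v h
    have h' : v = x := h
    refine ⟨fun _ => x, rfl, h'.symm, ?_, ?_⟩
    · intro k hk
      have : k = 0 := by omega
      subst this
      rfl
    · intro k hk
      omega
  | succ n ih =>
    rintro v ⟨u, hu, h⟩
    obtain ⟨f, h1, h2, h3, h4⟩ := ih u hu
    refine ⟨fun k => if k ≤ n then f k else v, ?_, ?_, ?_, ?_⟩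
    · simp only [Nat.zero_le, if_true]
      exact h1
    · have : ¬ n + 1 ≤ n := by omega
      simp only [this, if_false]
    · intro k hk
      by_cases hk' : k ≤ n
      · simp only [hk', if_true]
        exact h3 k hk'
      · have : k = n + 1 := by omega
        subst this
        simp only [hk', if_false]
        exact ⟨u, hu, h⟩
    · intro k hk
      by_cases hk' : k + 1 ≤ n
      · have h5 : k ≤ n := by omega
        simp only [hk', h5, if_true]
        exact h4 k (by omega)
      · have h5 : k = n := by omega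
        subst h5
        simp only [hk', le_refl, if_true, if_false]
        rw [h2]
        exact h

private lemma PathW_append {G : Type} {Adj : G → G → Prop} {x : G} {f : ℕ → G} {d : ℕ}
    (hf : ∀ k < d, Adj (f k) (f (k + 1))) {n m : ℕ} (h : PathW Adj x n (f m)) :
    ∀ j : ℕ, m + j ≤ d → PathW Adj x (n + j) (f (m + j)) := by
  intro j
  induction j with
  | zero => exact fun _ => h
  | succ j ih =>
    intro hj
    exact ⟨_, ih (by omega), hf (m + j) (by omega)⟩

/-- double counting -/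
private lemma Path_count {G : Type} [DecidableEq G] {ι : Type} [DecidableEq ι] (X : Finset G)
    (K : Finset ι) (N : ι → Finset G) (hN : ∀ i ∈ K, N i ⊆ X)
    (h : ∀ u ∈ X, (K.filter (fun i => u ∈ N i)).card ≤ 6) :
    ∑ i ∈ K, (N i).card ≤ 6 * X.card := by
  calc ∑ i ∈ K, (N i).card = ∑ i ∈ K, ∑ u ∈ X, (if u ∈ N i then 1 else 0) := by
        refine sum_congr rfl fun i hi => ?_
        rw [← card_filter, filter_mem_eq_inter, inter_eq_right.mpr (hN i hi)]
    _ = ∑ u ∈ X, ∑ i ∈ K, (if u ∈ N i then 1 else 0) := sum_comm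
    _ ≤ ∑ _u ∈ X, 6 := by
        refine sum_le_sum fun u hu => ?_
        rw [← card_filter]
        exact h u hu
    _ = 6 * X.card := by
        rw [sum_const, smul_eq_mul, mul_comm]

private lemma Path_window {d : ℕ} (S : Finset (Fin d)) (m : Fin d → ℕ)
    (hm : ∀ i, m i = i.val ∨ m i = i.val + 1) (h : ∀ i ∈ S, ∀ j ∈ S, m j ≤ m i + 2) :
    S.card ≤ 6 := by
  rcases S.eq_empty_or_nonempty with hS | hS
  · rw [hS]
    simp
  · obtain ⟨i0, hi0, hmin⟩ := exists_min_image S m hS
    have h1 : S.card ≤ (Icc (m i0 - 1) (m i0 + 2)).card := by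
      refine card_le_card_of_injOn (fun i => i.val) ?_ ?_
      · intro i hi
        rw [mem_coe] at hi
        have e1 := hmin i hi
        have e2 := h i0 hi0 i hi
        have e3 := hm i
        rw [mem_coe, mem_Icc]
        simp only
        omega
      · intro i _ j _ hij
        exact Fin.ext hij
    rw [Nat.card_Icc] at h1
    omega

/-- module A2: shortest paths -/
theorem path_bound {G : Type} [AddCommGroup G] [DecidableEq G] (X X' : Finset G) (hX' : X' ⊆ X)
    (x : G) (hx : x ∈ X') (h : ℝ) (hX : (X.card : ℝ) ≤ h) (h0 : 0 < h)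
    (Zs : G → Finset G) (cl : G → ℕ) (θ : ℕ → ℝ) (hθ : ∀ ℓ, 0 < θ ℓ)
    (hZ : ∀ v ∈ X', ∀ z ∈ Zs v, v - z ∈ X) (Q : G → Prop) (hQ : ∀ v ∈ X, Q v → v ∈ X') (hQx : Q x)
    (Adj : G → G → Prop)
    (hAdj : ∀ u v, Adj u v ↔
      (u ∈ X' ∧ u - v ∈ Zs u ∧
        ∃ ℓ ≤ cl (u - v), h * θ ℓ ≤ (((Zs u).filter (fun z => cl z = ℓ)).card : ℝ)) ∨
      (v ∈ X' ∧ v - u ∈ Zs v ∧
        ∃ ℓ ≤ cl (v - u), h * θ ℓ ≤ (((Zs v).filter (fun z => cl z = ℓ)).card : ℝ)))
    (p : G) (hp : Relation.ReflTransGen Adj x p) (hpQ : ¬ Q p) :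
    ∃ p' ∈ X, Relation.ReflTransGen Adj x p' ∧ ¬ Q p' ∧
      ∃ (n : ℕ) (z : Fin n → G) (s : Fin n → Bool) (ℓ : Fin n → ℕ),
        p' - x = ∑ i, (if s i then z i else - z i) ∧
        (∀ i, ∃ v ∈ X', z i ∈ Zs v) ∧ (∀ i, ℓ i ≤ cl (z i)) ∧
        ∀ ℓ0, ((univ.filter (fun i => ℓ i = ℓ0)).card : ℝ) * θ ℓ0 ≤ 6 := by
  have hsymm : ∀ u v, Adj u v → Adj v u := by
    intro u v huv
    rw [hAdj] at huv ⊢
    exact huv.symm
  classical
  have hex : ∃ n, ∃ v, PathW Adj x n v ∧ ¬ Q v := by
    obtain ⟨n, hn⟩ := PathW_of hp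
    exact ⟨n, p, hn, hpQ⟩
  obtain ⟨d, ⟨p', hd, hp'⟩, hmin⟩ : ∃ d, (∃ v, PathW Adj x d v ∧ ¬ Q v) ∧
      ∀ m, (∃ v, PathW Adj x m v ∧ ¬ Q v) → d ≤ m :=
    ⟨Nat.find hex, Nat.find_spec hex, fun m hm => Nat.find_min' hex hm⟩
  obtain ⟨f, f0, fd, fW, fA⟩ := PathW_fun d p' hd
  have hQf : ∀ k < d, Q (f k) := by
    intro k hk
    by_contra hq
    have := hmin k ⟨f k, fW k hk.le, hq⟩
    omega
  have hXf : ∀ k ≤ d, f k ∈ X := by
    intro k
    induction k with
    | zero =>
      intro _
      rw [f0]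
      exact hX' hx
    | succ k ih =>
      intro hk
      have h1 : f k ∈ X' := hQ _ (ih (by omega)) (hQf k (by omega))
      have h2 := fA k (by omega)
      rw [hAdj] at h2
      rcases h2 with ⟨_, h3, _⟩ | ⟨h3, _⟩
      · have := hZ _ h1 _ h3
        rwa [sub_sub_cancel] at this
      · exact hX' h3
  have hdata : ∀ k : Fin d, ∃ (s : Bool) (z : G) (ℓ : ℕ) (m : ℕ), (m = k.val ∨ m = k.val + 1) ∧
      f m ∈ X' ∧ z ∈ Zs (f m) ∧ ℓ ≤ cl z ∧
      h * θ ℓ ≤ (((Zs (f m)).filter (fun z => cl z = ℓ)).card : ℝ) ∧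
      f (k.val + 1) - f k.val = if s then z else - z := by
    intro k
    have h2 := fA k.val k.isLt
    rw [hAdj] at h2
    rcases h2 with ⟨h3, h4, ℓ, h5, h6⟩ | ⟨h3, h4, ℓ, h5, h6⟩
    · refine ⟨false, _, ℓ, k.val, Or.inl rfl, h3, h4, h5, h6, ?_⟩
      simp
    · refine ⟨true, _, ℓ, k.val + 1, Or.inr rfl, h3, h4, h5, h6, ?_⟩
      simp
  choose s z ℓ m hm hmX hz hℓ hcard hsum using hdata
  have hmd : ∀ i, m i ≤ d := by
    intro i
    have := hm i
    have := i.isLt
    omega
  -- two vertices of the path with a common neighbour are close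
  have hclose : ∀ i j : Fin d, ∀ u, Adj (f (m i)) u → Adj (f (m j)) u → m j ≤ m i + 2 := by
    intro i j u hi hj
    by_contra hlt
    have h1 : PathW Adj x (m i + 2) (f (m j)) := ⟨u, ⟨_, fW (m i) (hmd i), hi⟩, hsymm _ _ hj⟩
    have h2 := PathW_append fA h1 (d - m j) (by have := hmd j; omega)
    have h3 : m j + (d - m j) = d := by have := hmd j; omega
    rw [h3, fd] at h2
    have h4 := hmin _ ⟨p', h2, hp'⟩
    have := hmd j
    omega
  refine ⟨p', fd ▸ hXf d le_rfl, PathW_to d p' hd, hp', d, z, s, ℓ, ?_,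
    fun i => ⟨_, hmX i, hz i⟩, hℓ, ?_⟩
  · have h1 : ∑ i : Fin d, (f (i.val + 1) - f i.val) = f d - f 0 := by
      rw [Fin.sum_univ_eq_sum_range (fun i => f (i + 1) - f i), sum_range_sub]
    rw [← fd, ← f0, ← h1]
    exact sum_congr rfl fun i _ => hsum i
  · intro ℓ0
    have h1 := Path_count X (univ.filter (fun i => ℓ i = ℓ0))
      (fun i => ((Zs (f (m i))).filter (fun z => cl z = ℓ0)).image (fun z => f (m i) - z)) (by
        intro i _ u hu
        rw [mem_image] at hu
        obtain ⟨w, hw, rfl⟩ := hu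
        exact hZ _ (hmX i) _ (mem_filter.mp hw).1) (by
        intro u _
        refine Path_window _ m hm ?_
        have key : ∀ i ∈ (univ.filter (fun i => ℓ i = ℓ0)).filter (fun i => u ∈
            ((Zs (f (m i))).filter (fun z => cl z = ℓ0)).image (fun z => f (m i) - z)),
            Adj (f (m i)) u := by
          intro i hi
          rw [mem_filter, mem_filter, mem_image] at hi
          obtain ⟨⟨_, hi1⟩, w, hw, rfl⟩ := hi
          rw [mem_filter] at hw
          rw [hAdj]
          left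
          rw [sub_sub_cancel]
          refine ⟨hmX i, hw.1, ℓ0, hw.2.ge, ?_⟩
          have := hcard i
          rw [hi1] at this
          exact this
        intro i hi j hj
        exact hclose i j u (key i hi) (key j hj))
    have h2 : ∀ i ∈ univ.filter (fun i => ℓ i = ℓ0), h * θ ℓ0 ≤
        (((((Zs (f (m i))).filter (fun z => cl z = ℓ0)).image (fun z => f (m i) - z)).card : ℕ) : ℝ)
          := by
      intro i hi
      rw [card_image_of_injective _ (fun a b hab => sub_right_injective hab)]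
      have := hcard i
      rw [(mem_filter.mp hi).2] at this
      exact this
    have h3 : ((univ.filter (fun i => ℓ i = ℓ0)).card : ℝ) * (h * θ ℓ0) ≤ 6 * (X.card : ℝ) := by
      have h4 : ∑ i ∈ univ.filter (fun i => ℓ i = ℓ0), (h * θ ℓ0) ≤
          ∑ i ∈ univ.filter (fun i => ℓ i = ℓ0),
          (((((Zs (f (m i))).filter (fun z => cl z = ℓ0)).image
            (fun z => f (m i) - z)).card : ℕ) : ℝ) := sum_le_sum h2
      rw [sum_const, nsmul_eq_mul] at h4
      refine h4.trans ?_
      rw [← Nat.cast_sum]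
      exact_mod_cast h1
    have h5 : ((univ.filter (fun i => ℓ i = ℓ0)).card : ℝ) * θ ℓ0 * h ≤ 6 * h := by
      nlinarith
    exact le_of_mul_le_mul_right h5 h0

end PoolBe0380.M
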