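import Pool.Agent.Lib.MP_be0380_co.M.Basic
import Pool.Agent.Lib.MP_be0380_co.M.Path

/-!
# be0380: the component of `x` is confined (1.3)
-/

namespace PoolBe0380.M

open Finset

/-- Sum over the indices, sorted by level. -/
theorem conf_levels {n L : ℕ} (ℓ : Fin n → ℕ) (hL : ∀ i, ℓ i < L) (g θ a : ℕ → ℝ)
    (hθ : ∀ l, 0 < θ l) (hg : ∀ l, 0 ≤ g l)
    (hc : ∀ l, ((univ.filter (fun i => ℓ i = l)).card : ℝ) * θ l ≤ 6)
    (ha : ∀ l, 6 * g l ≤ a l * θ l) :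
    ∑ i, g (ℓ i) ≤ ∑ l ∈ range L, a l := by
  rw [← Finset.sum_fiberwise_of_maps_to (s := (univ : Finset (Fin n))) (t := range L) (g := ℓ)
    (fun i _ => mem_range.mpr (hL i))]
  refine sum_le_sum fun l _ => ?_
  have h1 : ∑ i ∈ univ.filter (fun i => ℓ i = l), g (ℓ i)
      = ((univ.filter (fun i => ℓ i = l)).card : ℝ) * g l := by
    rw [← nsmul_eq_mul, ← sum_const]
    refine sum_congr rfl fun i hi => ?_
    rw [(mem_filter.mp hi).2]
  rw [h1]
  have h2 := hc l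
  have h3 := ha l
  have h4 : ((univ.filter (fun i => ℓ i = l)).card : ℝ) * g l * θ l ≤ a l * θ l := by
    calc ((univ.filter (fun i => ℓ i = l)).card : ℝ) * g l * θ l
        = ((univ.filter (fun i => ℓ i = l)).card : ℝ) * θ l * g l := by ring
      _ ≤ 6 * g l := mul_le_mul_of_nonneg_right h2 (hg l)
      _ ≤ a l * θ l := h3
  exact le_of_mul_le_mul_right h4 (hθ l)

theorem conf_image {ι α : Type*} [DecidableEq α] (s : Finset ι) (k : ι → α) (f : α → ℝ)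
    (hf : ∀ e, 0 ≤ f e) : ∑ e ∈ s.image k, f e ≤ ∑ i ∈ s, f (k i) := by
  rw [Finset.sum_comp f k]
  refine sum_le_sum fun e he => ?_
  obtain ⟨i, hi, hie⟩ := mem_image.mp he
  have h1 : 1 ≤ (s.filter (fun a => k a = e)).card :=
    card_pos.mpr ⟨i, mem_filter.mpr ⟨hi, hie⟩⟩
  calc f e = 1 • f e := (one_nsmul _).symm
    _ ≤ _ := nsmul_le_nsmul_left (hf e) h1

theorem conf_exp_le {n : ℕ} {a : ℝ} (h : (n : ℝ) ≤ a) : Real.exp (-a) ≤ (1 / 2 : ℝ) ^ n := by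
  have h1 : Real.exp (-1) ≤ (1 / 2 : ℝ) := by
    rw [Real.exp_neg, ← one_div]
    have := Real.add_one_le_exp (1 : ℝ)
    exact one_div_le_one_div_of_le (by norm_num) (by linarith)
  calc Real.exp (-a) ≤ Real.exp (-(n : ℝ)) := Real.exp_le_exp.mpr (by linarith)
    _ = (Real.exp (-1)) ^ n := by rw [← Real.exp_nat_mul]; congr 1; ring
    _ ≤ (1 / 2 : ℝ) ^ n := pow_le_pow_left₀ (Real.exp_pos _).le h1 n

variable {G : Type} [AddCommGroup G] [Fintype G] [DecidableEq G] {S : Sys G}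

theorem conf_cl (P : Pair S) (i : ℕ) (z : G) {l : ℕ} (hl : 1 ≤ l) (h : l ≤ P.cl i z) :
    16 ^ (l - 1) * S.b i ^ 1000 ≤ S.r i P.y z := by
  unfold Pair.cl at h
  split_ifs at h with h1
  · omega
  · push Not at h1
    have hpos : 0 < S.b i ^ 1000 ∨ S.b i ^ 1000 = 0 := by omega
    rcases hpos with hpos | h0
    · have h2 : S.r i P.y z / S.b i ^ 1000 ≠ 0 := by
        have : 0 < S.r i P.y z / S.b i ^ 1000 := Nat.div_pos h1 hpos
        omega
      have h3 := Nat.pow_log_le_self 16 h2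
      have h4 : 16 ^ (l - 1) ≤ 16 ^ Nat.log 16 (S.r i P.y z / S.b i ^ 1000) :=
        Nat.pow_le_pow_right (by norm_num) (by omega)
      calc 16 ^ (l - 1) * S.b i ^ 1000
          ≤ (S.r i P.y z / S.b i ^ 1000) * S.b i ^ 1000 :=
            Nat.mul_le_mul_right _ (h4.trans h3)
        _ ≤ S.r i P.y z := Nat.div_mul_le_self _ _
    · rw [h0, mul_zero]
      exact Nat.zero_le _

/-- the number estimate for the list condition -/
theorem conf_num {b l r : ℕ} (hb : 1024 ≤ b) (hl : 1 ≤ l) (hr : 16 ^ (l - 1) * b ^ 1000 ≤ r) :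
    6 * Real.exp (-(r : ℝ) / ((b : ℝ) ^ 100 * 2 ^ l) ^ 2) ≤
      (1 / 2 : ℝ) ^ (l + 2) * (1 / 2 : ℝ) ^ (b / 8 + 5 * l) := by
  have hbR : (1024 : ℝ) ≤ (b : ℝ) := by exact_mod_cast hb
  have hb0 : (0 : ℝ) < (b : ℝ) := by linarith
  have h1 : ((b / 8 + 6 * l + 5 : ℕ) : ℝ) ≤ (r : ℝ) / ((b : ℝ) ^ 100 * 2 ^ l) ^ 2 := by
    rw [le_div_iff₀ (by positivity)]
    have h2 : (b / 8 + 6 * l + 5) * (b ^ 100 * 2 ^ l) ^ 2 ≤ 16 ^ (l - 1) * b ^ 1000 := by
      obtain ⟨k, rfl⟩ : ∃ k, l = k + 1 := ⟨l - 1, by omega⟩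
      have e1 : (b ^ 100 * 2 ^ (k + 1)) ^ 2 = b ^ 200 * (4 * 4 ^ k) := by
        have h4 : ((2 : ℕ) ^ (k + 1)) ^ 2 = 4 * 4 ^ k := by
          rw [← pow_mul, mul_comm (k + 1) 2, pow_mul, pow_succ, mul_comm]
          norm_num
        rw [mul_pow, ← pow_mul, h4]
      have e2 : 16 ^ (k + 1 - 1) * b ^ 1000 = b ^ 200 * (4 ^ k * (4 ^ k * b ^ 800)) := by
        rw [Nat.add_sub_cancel]
        have : (16 : ℕ) ^ k = 4 ^ k * 4 ^ k := by
          rw [← mul_pow]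
          norm_num
        rw [this]
        ring
      rw [e1, e2]
      have h3 : b / 8 + 6 * (k + 1) + 5 ≤ b * (k + 1) := by
        have : b / 8 ≤ b := Nat.div_le_self _ _
        have h4 : b / 8 * 8 ≤ b := Nat.div_mul_le_self _ _
        nlinarith
      have h4 : k + 1 ≤ 4 ^ k := by
        have := (Nat.lt_pow_self (n := k) (by norm_num : 1 < 4))
        omega
      have h5 : 4 * b ≤ b ^ 800 := by
        calc 4 * b ≤ b * b := Nat.mul_le_mul_right _ (by omega)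
          _ = b ^ 2 := (sq b).symm
          _ ≤ b ^ 800 := Nat.pow_le_pow_right (by omega) (by norm_num)
      calc (b / 8 + 6 * (k + 1) + 5) * (b ^ 200 * (4 * 4 ^ k))
          ≤ (b * (k + 1)) * (b ^ 200 * (4 * 4 ^ k)) := Nat.mul_le_mul_right _ h3
        _ ≤ (b * 4 ^ k) * (b ^ 200 * (4 * 4 ^ k)) :=
            Nat.mul_le_mul_right _ (Nat.mul_le_mul_left _ h4)
        _ = b ^ 200 * (4 ^ k * (4 ^ k * (4 * b))) := by ring
        _ ≤ b ^ 200 * (4 ^ k * (4 ^ k * b ^ 800)) :=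
            Nat.mul_le_mul_left _ (Nat.mul_le_mul_left _ (Nat.mul_le_mul_left _ h5))
    have h3 : (b / 8 + 6 * l + 5) * (b ^ 100 * 2 ^ l) ^ 2 ≤ r := h2.trans hr
    exact_mod_cast h3
  have h2 := conf_exp_le h1
  rw [neg_div]
  calc 6 * Real.exp (-((r : ℝ) / ((b : ℝ) ^ 100 * 2 ^ l) ^ 2))
      ≤ 6 * (1 / 2 : ℝ) ^ (b / 8 + 6 * l + 5) := mul_le_mul_of_nonneg_left h2 (by norm_num)
    _ ≤ 8 * (1 / 2 : ℝ) ^ (b / 8 + 6 * l + 5) := by
        have : (0 : ℝ) ≤ (1 / 2 : ℝ) ^ (b / 8 + 6 * l + 5) := by positivity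
        linarith
    _ = (1 / 2 : ℝ) ^ (l + 2) * (1 / 2 : ℝ) ^ (b / 8 + 5 * l) := by
        rw [← pow_add]
        have e : b / 8 + 6 * l + 5 = (l + 2 + (b / 8 + 5 * l)) + 3 := by ring
        rw [e, pow_add _ _ 3]
        norm_num
        ring

theorem conf (hB : 2 ≤ S.B) (P : Pair S) (i : ℕ) (tw : P.Twins i) (hK : S.KCov i P.x P.y) :
    P.Conf i := by
  intro p hp
  by_contra hQp
  have hxXp := Sys.self_mem_Xp (S := S) i P.hx
  obtain ⟨p', hp'X, hp'R, hp'Q, n, z, s, ℓ, hsum, hz, hℓ, hcard⟩ :=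
    path_bound (S.X i P.x) (S.Xp i P.x) (Sys.Xp_sub_X hB i P.hx) P.x hxXp S.h
      (Sys.card_X_le hB i P.hx) S.h_pos (P.Zs i) (P.cl i)
      (fun l => (1 / 2 : ℝ) ^ (S.b i / 8 + 5 * l)) (fun l => by positivity)
      (by
        intro v hv z hz
        obtain ⟨q, hq, rfl⟩ := mem_image.mp hz
        exact (tw v hv q hq).2.1)
      (fun v => v ∈ S.A ∧ S.dist (v - P.x) * ((S.be i : ℕ) : ℝ) ^ 1920 ≤ 1)
      (by
        intro v _ hv
        exact Sys.mem_Xp.mpr ⟨hv.1, Sys.dist_pow_mono hB i (by norm_num) hv.2⟩)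
      (by
        rw [sub_self, S.dist_zero, zero_mul]
        exact ⟨S.G0_sub P.hx, zero_le_one⟩)
      (P.Adj i) (fun u v => Iff.rfl) p hp hQp
  apply hp'Q
  have hp'A : p' ∈ S.A := Sys.X_sub_A hB i P.hx hp'X
  refine ⟨hp'A, ?_⟩
  have hb1024 : 1024 ≤ S.b i := by
    have := Sys.two_pow_le_b (S := S) hB i (n := 10) (by norm_num)
    norm_num at this
    exact this
  -- the list
  obtain ⟨L, hL⟩ : ∃ L, ∀ i, ℓ i < L :=
    ⟨univ.sup ℓ + 1, fun i => Nat.lt_succ_of_le (le_sup (f := ℓ) (mem_univ i))⟩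
  obtain ⟨F, hF1, hF2, hF3⟩ := hK
    ((univ.filter (fun i => 1 ≤ ℓ i)).image (fun i => (ℓ i, z i)))
    (by
      intro e he
      obtain ⟨j, hj, rfl⟩ := mem_image.mp he
      exact (mem_filter.mp hj).2)
    (by
      refine (conf_image _ _ _ (fun e => (Real.exp_pos _).le)).trans ?_
      have h1 : ∀ j ∈ univ.filter (fun i => 1 ≤ ℓ i),
          Real.exp (-((S.r i P.y (ℓ j, z j).2 : ℕ) : ℝ) /
            (((S.b i : ℕ) : ℝ) ^ 100 * 2 ^ (ℓ j, z j).1) ^ 2) ≤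
          (fun l => (1 / 2 : ℝ) ^ (l + 2) * (1 / 2 : ℝ) ^ (S.b i / 8 + 5 * l) / 6) (ℓ j) := by
        intro j hj
        have h2 := conf_num (b := S.b i) hb1024 (mem_filter.mp hj).2
          (conf_cl P i (z j) (mem_filter.mp hj).2 (hℓ j))
        show _ ≤ (1 / 2 : ℝ) ^ (ℓ j + 2) * (1 / 2 : ℝ) ^ (S.b i / 8 + 5 * ℓ j) / 6
        rw [le_div_iff₀ (by norm_num), mul_comm]
        exact h2
      refine (sum_le_sum h1).trans ?_
      have h2 : ∑ j ∈ univ.filter (fun i => 1 ≤ ℓ i),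
          (fun l => (1 / 2 : ℝ) ^ (l + 2) * (1 / 2 : ℝ) ^ (S.b i / 8 + 5 * l) / 6) (ℓ j) ≤
          ∑ j, (fun l => (1 / 2 : ℝ) ^ (l + 2) * (1 / 2 : ℝ) ^ (S.b i / 8 + 5 * l) / 6) (ℓ j) :=
        sum_le_sum_of_subset_of_nonneg (filter_subset _ _) (fun j _ _ => by positivity)
      refine h2.trans ((conf_levels ℓ hL
        (fun l => (1 / 2 : ℝ) ^ (l + 2) * (1 / 2 : ℝ) ^ (S.b i / 8 + 5 * l) / 6)
        (fun l => (1 / 2 : ℝ) ^ (S.b i / 8 + 5 * l)) (fun l => (1 / 2 : ℝ) ^ (l + 2))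
        (fun l => by positivity) (fun l => by positivity) hcard (fun l => ?_)).trans ?_)
      · apply le_of_eq
        ring
      · have h3 : ∑ l ∈ range L, (1 / 2 : ℝ) ^ (l + 2) = 1 / 4 * ∑ l ∈ range L, (1 / 2 : ℝ) ^ l := by
          rw [mul_sum]
          refine sum_congr rfl fun l _ => ?_
          rw [pow_add]
          norm_num
          ring
        rw [h3]
        have := sum_geometric_two_le L
        linarith)
  -- all the steps are short
  have hN : ∀ j, S.N F (z j) ≤ (1 / 2 : ℝ) ^ (S.b i + 6 * ℓ j) := by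
    intro j
    by_cases hj : 1 ≤ ℓ j
    · exact hF3 (ℓ j, z j) (mem_image.mpr ⟨j, mem_filter.mpr ⟨mem_univ _, hj⟩, rfl⟩)
    · have h0 : ℓ j = 0 := by omega
      rw [h0, mul_zero, add_zero]
      obtain ⟨v, hv, hzv⟩ := hz j
      obtain ⟨q, hq, hqz⟩ := mem_image.mp hzv
      have h1 := (tw v hv q hq).2.2
      have h2 := hF2 _ h1 q (Sys.Xp_sub_X hB i P.hy hq)
      rw [add_sub_cancel_left, hqz] at h2
      exact h2
  have hsumN : S.N F (p' - P.x) ≤ (1 / 2 : ℝ) ^ (S.b i / 2) := by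
    rw [hsum]
    refine (S.N_sum F univ _).trans ?_
    have h1 : ∀ j ∈ (univ : Finset (Fin n)), S.N F (if s j then z j else - z j) ≤
        (fun l => (1 / 2 : ℝ) ^ (S.b i + 6 * l)) (ℓ j) := by
      intro j _
      split_ifs
      · exact hN j
      · rw [S.N_neg]
        exact hN j
    refine (sum_le_sum h1).trans ((conf_levels ℓ hL
      (fun l => (1 / 2 : ℝ) ^ (S.b i + 6 * l))
      (fun l => (1 / 2 : ℝ) ^ (S.b i / 8 + 5 * l))
      (fun l => 6 * (1 / 2 : ℝ) ^ (S.b i - S.b i / 8 + l))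
      (fun l => by positivity) (fun l => by positivity) hcard (fun l => ?_)).trans ?_)
    · apply le_of_eq
      have e : S.b i + 6 * l = (S.b i - S.b i / 8 + l) + (S.b i / 8 + 5 * l) := by
        have : S.b i / 8 ≤ S.b i := Nat.div_le_self _ _
        omega
      show 6 * (1 / 2 : ℝ) ^ (S.b i + 6 * l) = _
      rw [e, pow_add _ (S.b i - S.b i / 8 + l) (S.b i / 8 + 5 * l)]
      ring
    · have h3 : ∑ l ∈ range L, 6 * (1 / 2 : ℝ) ^ (S.b i - S.b i / 8 + l) =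
          6 * (1 / 2 : ℝ) ^ (S.b i - S.b i / 8) * ∑ l ∈ range L, (1 / 2 : ℝ) ^ l := by
        rw [mul_sum]
        refine sum_congr rfl fun l _ => ?_
        rw [pow_add]
        ring
      rw [h3]
      have h4 := sum_geometric_two_le L
      have h5 : (0 : ℝ) ≤ 6 * (1 / 2 : ℝ) ^ (S.b i - S.b i / 8) := by positivity
      have h6 : S.b i / 2 + 4 ≤ S.b i - S.b i / 8 := by omega
      calc 6 * (1 / 2 : ℝ) ^ (S.b i - S.b i / 8) * ∑ l ∈ range L, (1 / 2 : ℝ) ^ l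
          ≤ 6 * (1 / 2 : ℝ) ^ (S.b i - S.b i / 8) * 2 := mul_le_mul_of_nonneg_left h4 h5
        _ ≤ 6 * (1 / 2 : ℝ) ^ (S.b i / 2 + 4) * 2 := by
            have := pow_le_pow_of_le_one (by norm_num : (0 : ℝ) ≤ 1 / 2) (by norm_num) h6
            linarith
        _ = 12 / 16 * (1 / 2 : ℝ) ^ (S.b i / 2) := by
            rw [pow_add]
            norm_num
            ring
        _ ≤ (1 / 2 : ℝ) ^ (S.b i / 2) := by
            have : (0 : ℝ) ≤ (1 / 2 : ℝ) ^ (S.b i / 2) := by positivity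
            linarith
  have hm : 2 * S.be i ^ 1200 ≤ S.b i / 2 := by
    have h1 : 4 * S.be i ^ 1200 ≤ S.b i := by
      have h2 := Sys.two_le_be (S := S) hB i
      calc 4 * S.be i ^ 1200 = 2 ^ 2 * S.be i ^ 1200 := by norm_num
        _ ≤ S.be i ^ 2 * S.be i ^ 1200 := Nat.mul_le_mul_right _ (Nat.pow_le_pow_left h2 2)
        _ = S.be i ^ 1202 := by rw [← pow_add]
        _ ≤ S.b i := Sys.be_pow_le_b hB i (by norm_num)
    omega
  exact Sys.conf_kc hB i (F := F) P.hx hF1 (by rw [add_sub_cancel]; exact hp'A) hsumN hm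

end PoolBe0380.M
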