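import Mathlib

/-!
# Chains (module A3)

Part of the machine of Section 1 (lower bound for sets without a unique sum in `ZMod p`): chains of a
map `T` which increases `ψ`, first exit times and their residue classes modulo `L`.
-/

namespace PoolBe0380.M

open Finset

private lemma Chain_exit {G : Type} (Dom : Finset G) (T : G → G) (ψ : G → ℝ)
    (hψ : ∀ q ∈ Dom, ψ q < ψ (T q)) (v : G) : ∃ k, T^[k] v ∉ Dom := by
  by_contra hcon
  have h : ∀ k, T^[k] v ∈ Dom := by
    intro k
    by_contra hk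
    exact hcon ⟨k, hk⟩
  have hmono : StrictMono (fun k => ψ (T^[k] v)) := by
    refine strictMono_nat_of_lt_succ fun k => ?_
    rw [Function.iterate_succ_apply']
    exact hψ _ (h k)
  have hinj : Function.Injective (fun k => T^[k] v) := by
    intro a b hab
    refine hmono.injective ?_
    have hab' : T^[a] v = T^[b] v := hab
    show ψ (T^[a] v) = ψ (T^[b] v)
    rw [hab']
  have hfin : (Set.range (fun k => T^[k] v)).Finite := by
    refine Dom.finite_toSet.subset ?_
    rintro _ ⟨k, rfl⟩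
    exact h k
  exact Set.infinite_range_of_injective hinj hfin

private lemma Chain_mod {H L r : ℕ} (hr : r < L) (hH : L ≤ H) :
    ∃ k < L, (H - k) % L = r := by
  have hL : 0 < L := by omega
  refine ⟨(H + L - r) % L, Nat.mod_lt _ hL, ?_⟩
  have h1 := Nat.div_add_mod (H + L - r) L
  have h2 : 0 < (H + L - r) / L := Nat.div_pos (by omega) hL
  have h3 := Nat.mod_lt (H + L - r) hL
  obtain ⟨q, hq⟩ : ∃ q, (H + L - r) / L = q + 1 := ⟨(H + L - r) / L - 1, by omega⟩
  rw [hq, mul_add, mul_one] at h1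
  have h4 : H - (H + L - r) % L = L * q + r := by omega
  rw [h4, Nat.mul_add_mod, Nat.mod_eq_of_lt hr]

/-- module A3: chains -/
theorem chain {G : Type} [DecidableEq G] (Y Y' Yp Dom : Finset G) (T : G → G) (ψ : G → ℝ) (L : ℕ)
    (hL : 1 ≤ L) (h1 : Yp ⊆ Y') (h2 : Y' ⊆ Y) (hDom : Dom ⊆ Y') (hT : ∀ q ∈ Dom, T q ∈ Y)
    (hψ : ∀ q ∈ Dom, ψ q < ψ (T q))
    (stay : ∀ q ∈ Yp, ∀ k ≤ L, (∀ l < k, T^[l] q ∈ Dom) → T^[k] q ∈ Y') :
    ∃ Node : Finset G, Node ⊆ Y ∧ Node.card * L ≤ Y.card ∧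
      ∀ q ∈ Yp, ∃ k < L, (∀ l < k, T^[l] q ∈ Dom) ∧ (T^[k] q ∈ Node ∨ T^[k] q ∈ Y' \ Dom) := by
  classical
  have hht : ∀ v, ∃ k, T^[k] v ∉ Dom ∧ ∀ l < k, T^[l] v ∈ Dom := by
    intro v
    have hex := Chain_exit Dom T ψ hψ v
    refine ⟨Nat.find hex, Nat.find_spec hex, fun l hl => ?_⟩
    have := Nat.find_min hex hl
    by_contra hc
    exact this hc
  choose ht hht1 hht2 using hht
  have huniq : ∀ v k, T^[k] v ∉ Dom → (∀ l < k, T^[l] v ∈ Dom) → ht v = k := by
    intro v k h3 h4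
    rcases Nat.lt_trichotomy (ht v) k with h5 | h5 | h5
    · exact absurd (h4 _ h5) (hht1 v)
    · exact h5
    · exact absurd (hht2 v _ h5) h3
  have hit : ∀ v k, k ≤ ht v → ht (T^[k] v) = ht v - k := by
    intro v k hk
    refine huniq _ _ ?_ ?_
    · rw [← Function.iterate_add_apply, Nat.sub_add_cancel hk]
      exact hht1 v
    · intro l hl
      rw [← Function.iterate_add_apply]
      exact hht2 v _ (by omega)
  obtain ⟨r, hr, hcard⟩ : ∃ r < L, (Y.filter (fun v => ht v % L = r)).card * L ≤ Y.card := by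
    by_contra hcon
    have hc : ∀ r ∈ range L, Y.card < (Y.filter (fun v => ht v % L = r)).card * L := by
      intro r hr
      by_contra hlt
      exact hcon ⟨r, mem_range.mp hr, not_lt.mp hlt⟩
    have h5 : ∑ r ∈ range L, (Y.filter (fun v => ht v % L = r)).card = Y.card :=
      (card_eq_sum_card_fiberwise (fun v _ => mem_coe.mpr
        (mem_range.mpr (Nat.mod_lt _ (by omega))))).symm
    have h6 : ∑ _r ∈ range L, Y.card <
        ∑ r ∈ range L, (Y.filter (fun v => ht v % L = r)).card * L :=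
      sum_lt_sum_of_nonempty ⟨0, mem_range.mpr (by omega)⟩ hc
    rw [← sum_mul, h5, sum_const, card_range, smul_eq_mul, mul_comm] at h6
    exact lt_irrefl _ h6
  refine ⟨Y.filter (fun v => ht v % L = r), filter_subset _ _, hcard, fun q hq => ?_⟩
  rcases Nat.lt_or_ge (ht q) L with hlt | hge
  · refine ⟨ht q, hlt, hht2 q, Or.inr ?_⟩
    rw [mem_sdiff]
    exact ⟨stay q hq _ hlt.le (hht2 q), hht1 q⟩
  · obtain ⟨k, hk, hkr⟩ := Chain_mod hr hge
    refine ⟨k, hk, fun l hl => hht2 q l (by omega), Or.inl ?_⟩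
    rw [mem_filter, hit q k (by omega)]
    exact ⟨h2 (hDom (hht2 q k (by omega))), hkr⟩

end PoolBe0380.M
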