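import Pool.Agent.Lib.MP_be0380_co.M.Basic
import Pool.Agent.Lib.MP_be0380_co.M.Chain

/-!
# be0380: the abstract machine, module A10: the mixed step (1.6)
-/

namespace PoolBe0380.M

open Finset

section

variable {G : Type} [AddCommGroup G] [Fintype G] [DecidableEq G] {S : Sys G}

/-- `b_i^400 ≤ 2^(b_i)` -/
theorem mixed_b_pow_le (hB : 2 ≤ S.B) (i : ℕ) {n : ℕ} (hn : n ≤ 400) : (S.b i) ^ n ≤ 2 ^ (S.b i) := by
  have h2 := Sys.two_le_be (S := S) hB i
  have hb : S.b i = (S.be i) ^ 2400 := rfl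
  have h21 : (S.be i) ^ 21 ≤ S.b i := Sys.be_pow_le_b hB i (by norm_num)
  have h3 : 2400 * n * S.be i ≤ S.b i := by
    have h20 : 2 ^ 20 ≤ (S.be i) ^ 20 := Nat.pow_le_pow_left h2 20
    calc 2400 * n * S.be i ≤ 2 ^ 20 * S.be i := Nat.mul_le_mul_right _ (by norm_num; omega)
      _ ≤ (S.be i) ^ 20 * S.be i := Nat.mul_le_mul_right _ h20
      _ = (S.be i) ^ 21 := (pow_succ _ _).symm
      _ ≤ S.b i := h21
  calc (S.b i) ^ n = (S.be i) ^ (2400 * n) := by rw [hb, ← pow_mul]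
    _ ≤ (2 ^ (S.be i)) ^ (2400 * n) := Nat.pow_le_pow_left (Nat.lt_two_pow_self).le _
    _ = 2 ^ (2400 * n * S.be i) := by rw [← pow_mul, mul_comm (S.be i)]
    _ ≤ 2 ^ (S.b i) := Nat.pow_le_pow_right (by norm_num) h3

theorem mixed_b_large (hB : 2 ≤ S.B) (i : ℕ) : 2 ^ 100 ≤ S.b i :=
  Sys.two_pow_le_b hB i (by norm_num)

/-- (1.6) -/
theorem mixed (hB : 2 ≤ S.B) (P : Pair S) (i : ℕ) (tw : P.Twins i) (hc : P.Conf i)
    (hK : S.KS (i + 1) P.y P.x) (xs : G) (hxs : P.IsTop i xs) (hr : P.Heavy i 0 xs) :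
    S.HasW (i + 1) P.y := by
  classical
  obtain ⟨F, hkap, hcost, hN⟩ := hK
  -- numbers
  obtain ⟨b, hbdef⟩ : ∃ b : ℕ, b = S.b i := ⟨_, rfl⟩
  obtain ⟨b', hb'def⟩ : ∃ b' : ℕ, b' = S.b (i + 1) := ⟨_, rfl⟩
  rw [← hb'def] at hN
  have hbig : 2 ^ 100 ≤ b := hbdef ▸ mixed_b_large hB i
  have hb36 : b' = b ^ 36 := by rw [hbdef, hb'def]; exact Sys.b_succ i
  have hbpos : 1 ≤ b := le_trans (by norm_num) hbig
  have hbb' : b + 2 ≤ b' := by
    rw [hb36]
    have h2 : 2 ≤ b := le_trans (by norm_num) hbig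
    calc b + 2 ≤ b * b := by nlinarith
      _ = b ^ 2 := (sq _).symm
      _ ≤ b ^ 36 := Nat.pow_le_pow_right hbpos (by norm_num)
  -- the neighbourhood of the top
  have hxsX : xs ∈ S.Xp i P.x := by
    obtain ⟨h1, h2⟩ := hc xs hxs.1
    exact Sys.mem_Xp.mpr ⟨h1, Sys.dist_pow_mono hB i (by norm_num) h2⟩
  have hxsn : xs ∈ S.Xn i P.x := by
    obtain ⟨h1, h2⟩ := hc xs hxs.1
    exact Sys.mem_Xn.mpr ⟨h1, Sys.dist_pow_mono hB i (by norm_num) h2⟩
  have hreach : ∀ q ∈ S.Xp i P.y, P.Reach i (xs - P.z xs q) := by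
    intro q hq
    refine Relation.ReflTransGen.tail hxs.1 ?_
    left
    have hz : P.z xs q ∈ P.Zs i xs := by
      unfold Pair.Zs
      exact mem_image_of_mem _ hq
    rw [sub_sub_cancel]
    exact ⟨hxsX, hz, 0, Nat.zero_le _, hr⟩
  have hnb : ∀ q ∈ S.Xp i P.y, xs - P.z xs q ∈ S.Xn i P.x := by
    intro q hq
    obtain ⟨h1, h2⟩ := hc _ (hreach q hq)
    exact Sys.mem_Xn.mpr ⟨h1, Sys.dist_pow_mono hB i (by norm_num) h2⟩
  have hNz : ∀ q ∈ S.Xp i P.y, S.N F (P.z xs q) ≤ (1 / 2 : ℝ) ^ (2 * b') := by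
    intro q hq
    have h := hN xs (by rw [Sys.X_succ]; exact hxsn) (xs - P.z xs q) (by rw [Sys.X_succ]; exact hnb q hq)
    rwa [sub_sub_cancel] at h
  -- the increasing map
  let T : G → G := fun q => q + P.z xs q
  have hT : ∀ q ∈ S.Xp i P.y, T q ∈ S.X i P.y := fun q hq => (tw xs hxsX q hq).2.2
  have hψ : ∀ q ∈ S.Xp i P.y, P.ψ' q < P.ψ' (T q) := by
    intro q hq
    obtain ⟨h1, h2, h3⟩ := tw xs hxsX q hq
    have hx0 : xs ∈ S.X0 P.x := Sys.X_sub_X0 hB i P.hx (Sys.Xp_sub_X hB i P.hx hxsX)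
    have hxz0 : xs - P.z xs q ∈ S.X0 P.x := Sys.X_sub_X0 hB i P.hx h2
    have hq0 : q ∈ S.X0 P.y := Sys.X_sub_X0 hB i P.hy (Sys.Xp_sub_X hB i P.hy hq)
    have hqz0 : q + P.z xs q ∈ S.X0 P.y := Sys.X_sub_X0 hB i P.hy h3
    have hadd := P.add xs q (P.z xs q) hx0 hxz0 hq0 hqz0
    have hle := hxs.2 _ (hreach q hq)
    have hne : P.ψ (xs - P.z xs q) ≠ P.ψ xs := by
      intro he
      have := P.inj hxz0 hx0 he
      exact h1 (by simpa using this)
    have hlt : P.ψ (xs - P.z xs q) < P.ψ xs := lt_of_le_of_ne hle hne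
    show P.ψ' q < P.ψ' (q + P.z xs q)
    linarith
  -- lengths of chains
  have hlen : ∀ (q : G) (k : ℕ), (∀ l < k, T^[l] q ∈ S.Xp i P.y) →
      S.N F (T^[k] q - q) ≤ (k : ℝ) * (1 / 2 : ℝ) ^ (2 * b') := by
    intro q k
    induction k with
    | zero => intro _; simp [S.N_zero]
    | succ k ih =>
      intro h
      have h1 := ih (fun l hl => h l (by omega))
      have h2 := hNz _ (h k (by omega))
      rw [Function.iterate_succ_apply']
      have e : T (T^[k] q) - q = (T^[k] q - q) + P.z xs (T^[k] q) := by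
        show (T^[k] q + P.z xs (T^[k] q)) - q = _
        abel
      rw [e]
      calc S.N F ((T^[k] q - q) + P.z xs (T^[k] q))
          ≤ S.N F (T^[k] q - q) + S.N F (P.z xs (T^[k] q)) := S.N_add F _ _
        _ ≤ (k : ℝ) * (1 / 2 : ℝ) ^ (2 * b') + (1 / 2 : ℝ) ^ (2 * b') := add_le_add h1 h2
        _ = ((k + 1 : ℕ) : ℝ) * (1 / 2 : ℝ) ^ (2 * b') := by push_cast; ring
  have hpow : (2 : ℝ) ^ b * (1 / 2 : ℝ) ^ (2 * b') ≤ (1 / 2 : ℝ) ^ (b' + 2) := by
    have e : (2 * b') = b + (2 * b' - b) := by omega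
    rw [e, pow_add, ← mul_assoc, ← mul_pow]
    have : (2 : ℝ) * (1 / 2) = 1 := by norm_num
    rw [this, one_pow, one_mul]
    exact pow_le_pow_of_le_one (by norm_num) (by norm_num) (by omega)
  have hlen2 : ∀ (q : G) (k : ℕ), k ≤ 2 ^ b → (∀ l < k, T^[l] q ∈ S.Xp i P.y) →
      S.N F (T^[k] q - q) ≤ (1 / 2 : ℝ) ^ (b' + 2) := by
    intro q k hk h
    refine (hlen q k h).trans (le_trans ?_ hpow)
    apply mul_le_mul_of_nonneg_right _ (by positivity)
    exact_mod_cast hk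
  have hkc : S.kc (i + 1) ≤ S.kc i := by
    unfold Sys.kc
    rw [← hbdef, ← hb'def]
    have h1 : (0 : ℝ) < (b : ℝ) := by exact_mod_cast (by omega : 0 < b)
    have h2 : (b : ℝ) ≤ (b' : ℝ) := by exact_mod_cast (by omega : b ≤ b')
    exact inv_anti₀ (by positivity) (pow_le_pow_left₀ h1.le h2 4)
  have hstay : ∀ q ∈ S.Xn i P.y, ∀ k ≤ 2 ^ b, (∀ l < k, T^[l] q ∈ S.Xp i P.y) →
      T^[k] q ∈ S.Xp i P.y := by
    intro q hq k hk h
    rcases Nat.eq_zero_or_pos k with h0 | h0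
    · subst h0
      exact Sys.Xn_sub_Xp hB i P.y hq
    · have hA : T^[k] q ∈ S.A := by
        obtain ⟨k', rfl⟩ : ∃ k', k = k' + 1 := ⟨k - 1, by omega⟩
        rw [Function.iterate_succ_apply']
        exact Sys.X_sub_A hB i P.hy (hT _ (h k' (by omega)))
      have hd := Sys.conf_R hB i (F := F) (x := P.y) (g := q - P.y) (g' := T^[k] q - q) P.hy
        (hkap.trans hkc) (by
          have : P.y + (q - P.y) + (T^[k] q - q) = T^[k] q := by abel
          rw [this]; exact hA) (Sys.mem_Xn.mp hq).2 (m := b' + 2) (hlen2 q k hk h) (by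
          have h2 := Sys.two_le_be (S := S) hB i
          calc 2 * S.be i ^ 180 ≤ S.be i * S.be i ^ 180 := Nat.mul_le_mul_right _ h2
            _ = S.be i ^ 181 := (pow_succ' _ _).symm
            _ ≤ b := by rw [hbdef]; exact Sys.be_pow_le_b hB i (by norm_num)
            _ ≤ b' + 2 := by omega)
      rw [Sys.mem_Xp]
      refine ⟨hA, ?_⟩
      have : q - P.y + (T^[k] q - q) = T^[k] q - P.y := by abel
      rwa [this] at hd
  obtain ⟨Node, hNY, hNc, hreachN⟩ := chain (S.X i P.y) (S.Xp i P.y) (S.Xn i P.y) (S.Xp i P.y) T P.ψ'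
    (2 ^ b) Nat.one_le_two_pow (Sys.Xn_sub_Xp hB i P.y) (Sys.Xp_sub_X hB i P.hy) (Finset.Subset.refl _)
    hT hψ hstay
  -- the knowledge
  let E : Finset (G × ℕ) := Node.image (fun v => (v, b' + 3))
  refine ⟨S.join F (S.lst E), ?_, ?_⟩
  · -- the cost
    have h1 : S.cost (S.lst E) ≤ (Node.card : ℝ) * ((b' : ℝ) + 5) := by
      refine (S.cost_lst E).trans ?_
      rw [sum_image (by intro a _ c _ h; exact (Prod.mk.inj h).1)]
      show (∑ _x ∈ Node, (((b' + 3 : ℕ) : ℝ) + 2)) ≤ _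
      rw [sum_const, nsmul_eq_mul]
      push_cast
      apply le_of_eq; ring
    have hcardR : (Node.card : ℝ) * 2 ^ b ≤ S.h := by
      calc (Node.card : ℝ) * 2 ^ b = ((Node.card * 2 ^ b : ℕ) : ℝ) := by push_cast; rfl
        _ ≤ ((S.X i P.y).card : ℝ) := by exact_mod_cast hNc
        _ ≤ S.h := Sys.card_X_le hB i P.hy
    have hh : S.h ≤ (b : ℝ) ^ 10 * S.D := by
      refine S.h_le.trans ?_
      apply mul_le_mul_of_nonneg_right _ S.D_pos.le
      apply pow_le_pow_left₀ (by positivity)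
      rw [hbdef, Sys.b_eqR]
      exact pow_le_pow_left₀ (Nat.cast_nonneg _) (Sys.B_le_be hB i) _
    have hbR : (1 : ℝ) ≤ (b : ℝ) := by exact_mod_cast hbpos
    have hbR0 : (0 : ℝ) < (b : ℝ) := by linarith
    have hb'R : (b' : ℝ) = (b : ℝ) ^ 36 := by rw [hb36]; push_cast; rfl
    have hbig5 : (5 : ℝ) ≤ (b : ℝ) ^ 36 := by
      have h5 : (5 : ℝ) ≤ (b : ℝ) := by
        exact_mod_cast (le_trans (by norm_num) hbig : 5 ≤ b)
      calc (5 : ℝ) ≤ (b : ℝ) := h5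
        _ = (b : ℝ) ^ 1 := (pow_one _).symm
        _ ≤ (b : ℝ) ^ 36 := pow_le_pow_right₀ hbR (by norm_num)
    have hpow400 : (b : ℝ) ^ 400 ≤ 2 ^ b := by
      have := mixed_b_pow_le hB i (n := 400) le_rfl
      rw [← hbdef] at this
      exact_mod_cast this
    have h4 : (4 : ℝ) * (b : ℝ) ^ 370 ≤ 2 ^ b := by
      refine le_trans ?_ hpow400
      have h4b : (4 : ℝ) ≤ (b : ℝ) := by exact_mod_cast (le_trans (by norm_num) hbig : 4 ≤ b)
      calc (4 : ℝ) * (b : ℝ) ^ 370 ≤ (b : ℝ) * (b : ℝ) ^ 370 :=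
            mul_le_mul_of_nonneg_right h4b (by positivity)
        _ = (b : ℝ) ^ 371 := (pow_succ' _ _).symm
        _ ≤ (b : ℝ) ^ 400 := pow_le_pow_right₀ hbR (by norm_num)
    have heta : S.eta (i + 1) = ((b : ℝ) ^ 324)⁻¹ := by
      unfold Sys.eta
      rw [← hb'def, hb'R, ← pow_mul]
    have h2pos : (0 : ℝ) < 2 ^ b := by positivity
    have hmain : (Node.card : ℝ) * ((b' : ℝ) + 5) ≤ S.eta (i + 1) * S.D / 2 := by
      have hcard : (Node.card : ℝ) ≤ (b : ℝ) ^ 10 * S.D / 2 ^ b := by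
        rw [le_div_iff₀ h2pos]
        exact hcardR.trans hh
      have hD := S.D_pos
      calc (Node.card : ℝ) * ((b' : ℝ) + 5) ≤ ((b : ℝ) ^ 10 * S.D / 2 ^ b) * (2 * (b : ℝ) ^ 36) := by
            apply mul_le_mul hcard _ (by positivity) (by positivity)
            rw [hb'R]; linarith
        _ ≤ ((b : ℝ) ^ 10 * S.D / (4 * (b : ℝ) ^ 370)) * (2 * (b : ℝ) ^ 36) := by
            apply mul_le_mul_of_nonneg_right _ (by positivity)
            apply div_le_div_of_nonneg_left (by positivity) (by positivity) h4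
        _ = S.eta (i + 1) * S.D / 2 := by
            rw [heta]
            have e1 : (b : ℝ) ^ 370 = (b : ℝ) ^ 10 * (b : ℝ) ^ 36 * (b : ℝ) ^ 324 := by
              rw [← pow_add, ← pow_add]
            rw [e1]
            have hne1 : (b : ℝ) ^ 10 ≠ 0 := by positivity
            have hne2 : (b : ℝ) ^ 36 ≠ 0 := by positivity
            have hne3 : (b : ℝ) ^ 324 ≠ 0 := by positivity
            field_simp
            norm_num
    calc S.cost (S.join F (S.lst E)) ≤ S.cost F + S.cost (S.lst E) := S.cost_join _ _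
      _ ≤ S.eta (i + 1) * S.D / 2 + S.eta (i + 1) * S.D / 2 := add_le_add hcost (h1.trans hmain)
      _ = S.eta (i + 1) * S.D := by ring
  · -- the norms
    have key : ∀ c ∈ S.X (i + 1) P.y, ∃ v ∈ Node, S.N F (v - c) ≤ (1 / 2 : ℝ) ^ (b' + 2) := by
      intro c hcX
      rw [Sys.X_succ] at hcX
      obtain ⟨k, hk, hkd, hv⟩ := hreachN c hcX
      rcases hv with hv | hv
      · exact ⟨T^[k] c, hv, hlen2 c k hk.le hkd⟩
      · simp at hv
    have hNd : ∀ v ∈ Node, S.N (S.join F (S.lst E)) v ≤ (1 / 2 : ℝ) ^ (b' + 3) := by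
      intro v hv
      refine (S.N_join_right _ _ _).trans ?_
      have : (v, b' + 3) ∈ E := mem_image_of_mem _ hv
      exact S.N_lst E _ this
    intro c hc1 c' hc1'
    rw [← hb'def]
    obtain ⟨v, hv, hvc⟩ := key c hc1
    obtain ⟨v', hv', hvc'⟩ := key c' hc1'
    have e : c - c' = (v - (v - c)) - (v' - (v' - c')) := by abel
    rw [e]
    set F' := S.join F (S.lst E) with hF'
    have hl1 : S.N F' (v - c) ≤ (1 / 2 : ℝ) ^ (b' + 2) := (S.N_join_left _ _ _).trans hvc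
    have hl2 : S.N F' (v' - c') ≤ (1 / 2 : ℝ) ^ (b' + 2) := (S.N_join_left _ _ _).trans hvc'
    calc S.N F' ((v - (v - c)) - (v' - (v' - c')))
        ≤ S.N F' (v - (v - c)) + S.N F' (v' - (v' - c')) := S.N_sub F' _ _
      _ ≤ (S.N F' v + S.N F' (v - c)) + (S.N F' v' + S.N F' (v' - c')) :=
          add_le_add (S.N_sub F' _ _) (S.N_sub F' _ _)
      _ ≤ ((1 / 2 : ℝ) ^ (b' + 3) + (1 / 2 : ℝ) ^ (b' + 2)) +
          ((1 / 2 : ℝ) ^ (b' + 3) + (1 / 2 : ℝ) ^ (b' + 2)) :=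
          add_le_add (add_le_add (hNd v hv) hl1) (add_le_add (hNd v' hv') hl2)
      _ = (3 / 4 : ℝ) * (1 / 2 : ℝ) ^ b' := by rw [pow_add, pow_add]; ring
      _ ≤ (1 / 2 : ℝ) ^ b' := by
          have : (0 : ℝ) ≤ (1 / 2 : ℝ) ^ b' := by positivity
          linarith

end

end PoolBe0380.M
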