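import Pool.Agent.Lib.MP_be0380_co.M.Basic

/-!
# be0380: the abstract machine, module A11 (1.7): at the last level every point is rich
-/

namespace PoolBe0380.M

open Finset

variable {G : Type} [AddCommGroup G] [Fintype G] [DecidableEq G] {S : Sys G}

/-- (1.7): if the level is large against `h`, every `p` in `X'_i(x)` is heavy in class `0`. -/
theorem all_rich (hB : 2 ≤ S.B) (P : Pair S) (i : ℕ) (_tw : P.Twins i)
    (h1 : S.h < ((S.b i : ℕ) : ℝ) ^ 1000) (h2 : S.h * (1 / 2 : ℝ) ^ (S.b i / 8) ≤ 1) :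
    ∀ p ∈ S.Xp i P.x, P.Heavy i 0 p := by
  intro p hp
  have hy : P.y ∈ S.Xp i P.y := Sys.self_mem_Xp i P.hy
  have hmem : P.z p P.y ∈ P.Zs i p := mem_image_of_mem _ hy
  have hr : S.r i P.y (P.z p P.y) < S.b i ^ 1000 := by
    have h3 : ((S.r i P.y (P.z p P.y) : ℕ) : ℝ) ≤ S.h :=
      le_trans (by exact_mod_cast Sys.r_le i P.y (P.z p P.y)) (Sys.card_X_le hB i P.hy)
    have h4 : ((S.r i P.y (P.z p P.y) : ℕ) : ℝ) < ((S.b i : ℕ) : ℝ) ^ 1000 := h3.trans_lt h1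
    exact_mod_cast h4
  have hcl : P.cl i (P.z p P.y) = 0 := by
    unfold Pair.cl
    rw [if_pos hr]
  unfold Pair.Heavy
  have hne : ((P.Zs i p).filter (fun z => P.cl i z = 0)).Nonempty :=
    ⟨P.z p P.y, mem_filter.mpr ⟨hmem, hcl⟩⟩
  have hc : (1 : ℝ) ≤ (((P.Zs i p).filter (fun z => P.cl i z = 0)).card : ℝ) := by
    exact_mod_cast hne.card_pos
  have h5 : S.b i / 8 + 5 * 0 = S.b i / 8 := by omega
  rw [h5]
  exact h2.trans hc

end PoolBe0380.M
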