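import Mathlib

/-!
# be0380: the abstract machine, module A1, random sets by counting
-/

namespace PoolBe0380.M

open Finset

private theorem seed_count {G β : Type} [Fintype G] [DecidableEq G] [Fintype β] [DecidableEq β]
    [Nonempty β] (S : Finset β) (R : Finset G) :
    ((univ.filter (fun f : G → β => ∀ c ∈ R, f c ∈ S)).card : ℝ) =
      ((S.card : ℝ) / Fintype.card β) ^ R.card * Fintype.card (G → β) := by
  have hβ : (0 : ℝ) < Fintype.card β := by exact_mod_cast Fintype.card_pos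
  have h1 : (univ.filter (fun f : G → β => ∀ c ∈ R, f c ∈ S)) =
      Fintype.piFinset (fun c => if c ∈ R then S else univ) := by
    ext f
    simp only [mem_filter, mem_univ, true_and, Fintype.mem_piFinset]
    constructor
    · intro h c
      by_cases hc : c ∈ R
      · rw [if_pos hc]; exact h c hc
      · rw [if_neg hc]; exact mem_univ _
    · intro h c hc
      have := h c
      rwa [if_pos hc] at this
  rw [h1, Fintype.card_piFinset, Nat.cast_prod, Fintype.card_fun, Nat.cast_pow]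
  have h2 : ∀ c : G, (((if c ∈ R then S else univ).card : ℕ) : ℝ) =
      (if c ∈ R then (S.card : ℝ) / Fintype.card β else 1) * Fintype.card β := by
    intro c
    by_cases hc : c ∈ R
    · rw [if_pos hc, if_pos hc]; field_simp
    · rw [if_neg hc, if_neg hc, one_mul, card_univ]
  rw [prod_congr rfl (fun c _ => h2 c), prod_mul_distrib, prod_const, card_univ,
    Finset.prod_ite_mem, univ_inter, prod_const]

theorem seed_exists {G : Type} [AddCommGroup G] [Fintype G] [DecidableEq G] (X : Finset G) (M L : ℕ)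
    (hM : 1 ≤ M) :
    ∃ (Ω : Type) (_ : Fintype Ω) (_ : Nonempty Ω) (T T' : Ω → ℕ → Finset G),
      (∀ ω ℓ, T ω ℓ ⊆ X ∧ T' ω ℓ ⊆ X) ∧
      (∀ ℓ ≤ L, (∑ ω, (((T ω ℓ).card : ℝ) + ((T' ω ℓ).card : ℝ))) ≤
        2 * (X.card : ℝ) / ((M : ℝ) * 2 ^ ℓ) * (Fintype.card Ω : ℝ)) ∧
      (∀ ℓ ≤ L, ∀ z : G, (((univ.filter (fun ω => ∀ c ∈ T' ω ℓ, c + z ∉ T ω ℓ)).card : ℕ) : ℝ) ≤
        Real.exp (-((X.filter (fun c => c + z ∈ X)).card : ℝ) / ((M : ℝ) * 2 ^ ℓ) ^ 2) *
          (Fintype.card Ω : ℝ)) := by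
  classical
  set n : ℕ := M * 2 ^ L with hn
  have hn0 : 0 < n := by positivity
  have : Nonempty (Fin n) := ⟨⟨0, hn0⟩⟩
  have hnR : (0 : ℝ) < (n : ℝ) := by exact_mod_cast hn0
  have hMR : (0 : ℝ) < (M : ℝ) := by exact_mod_cast hM
  have han : ∀ ℓ ≤ L, 2 ^ (L - ℓ) ≤ n := by
    intro ℓ _
    calc 2 ^ (L - ℓ) ≤ 2 ^ L := Nat.pow_le_pow_right (by norm_num) (Nat.sub_le _ _)
      _ = 1 * 2 ^ L := (one_mul _).symm
      _ ≤ M * 2 ^ L := Nat.mul_le_mul_right _ hM
  have hratio : ∀ ℓ ≤ L, ((2 ^ (L - ℓ) : ℕ) : ℝ) / (n : ℝ) = 1 / ((M : ℝ) * 2 ^ ℓ) := by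
    intro ℓ hℓ
    have h1 : (2 : ℝ) ^ L = 2 ^ (L - ℓ) * 2 ^ ℓ := by rw [← pow_add, Nat.sub_add_cancel hℓ]
    rw [hn]
    push_cast
    rw [h1]
    field_simp
  have hcard : ∀ ℓ ≤ L, (univ.filter (fun u : Fin n => (u : ℕ) < 2 ^ (L - ℓ))).card = 2 ^ (L - ℓ) := by
    intro ℓ hℓ
    rw [Fin.card_filter_val_lt]
    exact min_eq_right (han ℓ hℓ)
  have hone : ∀ ℓ ≤ L, ∀ c : G,
      ((univ.filter (fun f : G → Fin n => (f c : ℕ) < 2 ^ (L - ℓ))).card : ℝ) =
        1 / ((M : ℝ) * 2 ^ ℓ) * Fintype.card (G → Fin n) := by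
    intro ℓ hℓ c
    have h := seed_count (G := G) (univ.filter (fun u : Fin n => (u : ℕ) < 2 ^ (L - ℓ))) {c}
    rw [card_singleton, pow_one, hcard ℓ hℓ, Fintype.card_fin, hratio ℓ hℓ] at h
    rw [← h]
    congr 2
    ext f
    simp
  refine ⟨(G → Fin n) × (G → Fin n), inferInstance, inferInstance,
    fun ω ℓ => X.filter (fun c => (ω.1 c : ℕ) < 2 ^ (L - ℓ)),
    fun ω ℓ => X.filter (fun c => (ω.2 c : ℕ) < 2 ^ (L - ℓ)), ?_, ?_, ?_⟩
  · intro ω ℓ
    exact ⟨filter_subset _ _, filter_subset _ _⟩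
  · intro ℓ hℓ
    have hsw : ∀ (g : (G → Fin n) × (G → Fin n) → (G → Fin n)),
        (∀ c, ((univ.filter (fun ω => (g ω c : ℕ) < 2 ^ (L - ℓ))).card : ℝ) =
          1 / ((M : ℝ) * 2 ^ ℓ) * Fintype.card ((G → Fin n) × (G → Fin n))) →
        ∑ ω, ((X.filter (fun c => (g ω c : ℕ) < 2 ^ (L - ℓ))).card : ℝ) =
          (X.card : ℝ) * (1 / ((M : ℝ) * 2 ^ ℓ) * Fintype.card ((G → Fin n) × (G → Fin n))) := by
      intro g hg
      have h1 : ∀ ω, ((X.filter (fun c => (g ω c : ℕ) < 2 ^ (L - ℓ))).card : ℝ) =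
          ∑ c ∈ X, (if (g ω c : ℕ) < 2 ^ (L - ℓ) then (1 : ℝ) else 0) := by
        intro ω
        rw [card_filter]
        push_cast
        rfl
      rw [sum_congr rfl (fun ω _ => h1 ω), sum_comm]
      have h2 : ∀ c ∈ X, ∑ ω, (if (g ω c : ℕ) < 2 ^ (L - ℓ) then (1 : ℝ) else 0) =
          1 / ((M : ℝ) * 2 ^ ℓ) * Fintype.card ((G → Fin n) × (G → Fin n)) := by
        intro c _
        rw [← hg c, card_filter]
        push_cast
        rfl
      rw [sum_congr rfl h2, sum_const, nsmul_eq_mul]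
    rw [sum_add_distrib, hsw (fun ω => ω.1) ?_, hsw (fun ω => ω.2) ?_]
    · apply le_of_eq
      ring
    · intro c
      have h : (univ.filter (fun ω : (G → Fin n) × (G → Fin n) => (ω.2 c : ℕ) < 2 ^ (L - ℓ))) =
          univ ×ˢ (univ.filter (fun f : G → Fin n => (f c : ℕ) < 2 ^ (L - ℓ))) := by
        ext ω
        simp
      rw [h, card_product, Nat.cast_mul, hone ℓ hℓ c, Fintype.card_prod, Nat.cast_mul, card_univ]
      ring
    · intro c
      have h : (univ.filter (fun ω : (G → Fin n) × (G → Fin n) => (ω.1 c : ℕ) < 2 ^ (L - ℓ))) =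
          (univ.filter (fun f : G → Fin n => (f c : ℕ) < 2 ^ (L - ℓ))) ×ˢ univ := by
        ext ω
        simp
      rw [h, card_product, Nat.cast_mul, hone ℓ hℓ c, Fintype.card_prod, Nat.cast_mul, card_univ]
      ring
  · intro ℓ hℓ z
    set R : Finset G := X.filter (fun c => c + z ∈ X) with hR
    set a : ℕ := 2 ^ (L - ℓ) with ha
    set B : Finset (Fin n × Fin n) := univ.filter (fun w => ¬ ((w.1 : ℕ) < a ∧ (w.2 : ℕ) < a)) with hB
    have hBc : (B.card : ℝ) = (n : ℝ) ^ 2 - (a : ℝ) ^ 2 := by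
      have h1 : (univ.filter (fun w : Fin n × Fin n => ((w.1 : ℕ) < a ∧ (w.2 : ℕ) < a))).card = a * a := by
        have h2 : (univ.filter (fun w : Fin n × Fin n => ((w.1 : ℕ) < a ∧ (w.2 : ℕ) < a))) =
            (univ.filter (fun u : Fin n => (u : ℕ) < a)) ×ˢ (univ.filter (fun u : Fin n => (u : ℕ) < a)) := by
          ext w
          simp
        rw [h2, card_product, hcard ℓ hℓ]
      have h3 := Finset.card_filter_add_card_filter_not (s := (univ : Finset (Fin n × Fin n)))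
        (p := fun w : Fin n × Fin n => ((w.1 : ℕ) < a ∧ (w.2 : ℕ) < a))
      rw [h1, card_univ, Fintype.card_prod, Fintype.card_fin] at h3
      have h4 : ((a * a + B.card : ℕ) : ℝ) = ((n * n : ℕ) : ℝ) := by
        rw [← h3]
      push_cast at h4
      nlinarith
    have hinj : (univ.filter (fun ω : (G → Fin n) × (G → Fin n) =>
        ∀ c ∈ X.filter (fun c => (ω.2 c : ℕ) < 2 ^ (L - ℓ)),
          c + z ∉ X.filter (fun c => (ω.1 c : ℕ) < 2 ^ (L - ℓ)))).card ≤
        (univ.filter (fun f : G → Fin n × Fin n => ∀ c ∈ R, f c ∈ B)).card := by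
      apply card_le_card_of_injOn (fun ω => fun c => (ω.1 (c + z), ω.2 c))
      · intro ω hω
        simp only [coe_filter, mem_univ, true_and, Set.mem_setOf_eq] at hω ⊢
        intro c hc
        rw [hR, mem_filter] at hc
        rw [hB, mem_filter]
        refine ⟨mem_univ _, ?_⟩
        rintro ⟨h1, h2⟩
        exact hω c (mem_filter.mpr ⟨hc.1, h2⟩) (mem_filter.mpr ⟨hc.2, h1⟩)
      · intro ω _ ω' _ h
        have h' : ∀ c, (ω.1 (c + z), ω.2 c) = (ω'.1 (c + z), ω'.2 c) := fun c => congrFun h c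
        refine Prod.ext ?_ ?_
        · funext d
          have := congrArg Prod.fst (h' (d - z))
          simpa using this
        · funext d
          exact congrArg Prod.snd (h' d)
    have hΩ : Fintype.card (G → Fin n × Fin n) = Fintype.card ((G → Fin n) × (G → Fin n)) := by
      simp only [Fintype.card_prod, Fintype.card_fun, Fintype.card_fin]
      rw [mul_pow]
    calc (((univ.filter (fun ω : (G → Fin n) × (G → Fin n) =>
        ∀ c ∈ X.filter (fun c => (ω.2 c : ℕ) < 2 ^ (L - ℓ)),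
          c + z ∉ X.filter (fun c => (ω.1 c : ℕ) < 2 ^ (L - ℓ)))).card : ℕ) : ℝ)
        ≤ ((univ.filter (fun f : G → Fin n × Fin n => ∀ c ∈ R, f c ∈ B)).card : ℝ) := by
          exact_mod_cast hinj
      _ = ((B.card : ℝ) / Fintype.card (Fin n × Fin n)) ^ R.card * Fintype.card (G → Fin n × Fin n) :=
          seed_count B R
      _ ≤ Real.exp (-(R.card : ℝ) / ((M : ℝ) * 2 ^ ℓ) ^ 2) * Fintype.card (G → Fin n × Fin n) := by
          apply mul_le_mul_of_nonneg_right _ (Nat.cast_nonneg _)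
          have h1 : (B.card : ℝ) / Fintype.card (Fin n × Fin n) = 1 - (1 / ((M : ℝ) * 2 ^ ℓ)) ^ 2 := by
            have haR : (a : ℝ) = (2 : ℝ) ^ (L - ℓ) := by rw [ha]; push_cast; rfl
            rw [hBc, ← hratio ℓ hℓ, Fintype.card_prod, Fintype.card_fin]
            push_cast
            rw [haR]
            field_simp
          rw [h1]
          have h2 : 1 - (1 / ((M : ℝ) * 2 ^ ℓ)) ^ 2 ≤ Real.exp (-(1 / ((M : ℝ) * 2 ^ ℓ)) ^ 2) := by
            have := Real.add_one_le_exp (-(1 / ((M : ℝ) * 2 ^ ℓ)) ^ 2)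
            linarith
          have h3 : (0 : ℝ) ≤ 1 - (1 / ((M : ℝ) * 2 ^ ℓ)) ^ 2 := by
            rw [← h1]; positivity
          calc (1 - (1 / ((M : ℝ) * 2 ^ ℓ)) ^ 2) ^ R.card
              ≤ (Real.exp (-(1 / ((M : ℝ) * 2 ^ ℓ)) ^ 2)) ^ R.card := pow_le_pow_left₀ h3 h2 _
            _ = Real.exp (-(R.card : ℝ) / ((M : ℝ) * 2 ^ ℓ) ^ 2) := by
              rw [← Real.exp_nat_mul]
              congr 1
              field_simp
      _ = _ := by rw [hΩ]

end PoolBe0380.M
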