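import Pool.Agent.Lib.MP_be0380_co.M.Basic
import Pool.Agent.Lib.MP_be0380_co.M.Seed
import Pool.Agent.Lib.MP_be0380_co.M.Chain

/-!
# be0380: the abstract machine, (1.5): the strong level
-/

namespace PoolBe0380.M

open Finset

section

variable {G : Type} [AddCommGroup G] [Fintype G] [DecidableEq G] {S : Sys G}

/-- `b ^ 1500 ≤ 2 ^ (b / 8)` -/
theorem strong_pow (hB : 2 ≤ S.B) (i : ℕ) : (S.b i) ^ 1500 ≤ 2 ^ (S.b i / 8) := by
  have h2 := Sys.two_le_be (S := S) hB i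
  have h31 := Sys.be_pow_le_b (S := S) hB i (n := 31) (by norm_num)
  have hbe : S.b i = (S.be i) ^ 2400 := rfl
  have h1 : (S.b i) ^ 1500 ≤ 2 ^ (S.be i * 3600000) := by
    rw [hbe, ← pow_mul]
    calc (S.be i) ^ (2400 * 1500) ≤ (2 ^ (S.be i)) ^ (2400 * 1500) :=
          Nat.pow_le_pow_left (Nat.lt_two_pow_self).le _
      _ = 2 ^ (S.be i * 3600000) := by rw [← pow_mul]
  refine h1.trans (Nat.pow_le_pow_right (by norm_num) ?_)
  rw [Nat.le_div_iff_mul_le (by norm_num)]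
  refine le_trans ?_ h31
  have h30 : 2 ^ 30 ≤ (S.be i) ^ 30 := Nat.pow_le_pow_left h2 30
  calc S.be i * 3600000 * 8 = S.be i * 28800000 := by ring
    _ ≤ S.be i * (S.be i) ^ 30 := Nat.mul_le_mul_left _ (le_trans (by norm_num) h30)
    _ = (S.be i) ^ 31 := by rw [← pow_succ']

theorem strong_lost (hB : 2 ≤ S.B) (P : Pair S) (i : ℕ) (tw : P.Twins i) (xs : G)
    (hxs : xs ∈ S.Xp i P.x) (L : Finset G)
    (hL : ∀ q ∈ L, q ∈ S.Xp i P.y ∧ ¬ P.Good i xs (P.z xs q)) :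
    (L.card : ℝ) ≤ 2 * S.h * ((S.b i : ℕ) : ℝ) ^ 1000 * (1 / 2 : ℝ) ^ (S.b i / 8) := by
  classical
  have hbpos := Sys.b_pos (S := S) hB i
  have hrlt : ∀ z, S.r i P.y z ≤ S.b i ^ 1000 * 16 ^ (P.cl i z) := by
    intro z
    unfold Pair.cl
    split_ifs with h
    · simpa using h.le
    · have h16 : S.r i P.y z / S.b i ^ 1000 < 16 ^ (Nat.log 16 (S.r i P.y z / S.b i ^ 1000) + 1) :=
        Nat.lt_pow_succ_log_self (by norm_num) _
      rw [Nat.div_lt_iff_lt_mul (by positivity)] at h16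
      rw [mul_comm]
      exact h16.le
  set f : G → ℕ := fun q => P.cl i (P.z xs q) with hf
  have hcard : L.card = ∑ ℓ ∈ L.image f, (L.filter (fun q => f q = ℓ)).card :=
    card_eq_sum_card_fiberwise (fun q hq => mem_image_of_mem f hq)
  have hfib : ∀ ℓ ∈ L.image f, ((L.filter (fun q => f q = ℓ)).card : ℝ) ≤
      S.h * ((S.b i : ℕ) : ℝ) ^ 1000 * (1 / 2 : ℝ) ^ (S.b i / 8) * (1 / 2 : ℝ) ^ ℓ := by
    intro ℓ hℓ
    obtain ⟨q0, hq0, hq0ℓ⟩ := mem_image.1 hℓ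
    have hnh : ¬ P.Heavy i ℓ xs := by
      intro hh
      exact (hL q0 hq0).2 ⟨ℓ, by rw [← hq0ℓ], hh⟩
    unfold Pair.Heavy at hnh
    rw [not_le] at hnh
    have h1 : (L.filter (fun q => f q = ℓ)).card ≤ (S.b i ^ 1000 * 16 ^ ℓ) *
        ((L.filter (fun q => f q = ℓ)).image (P.z xs)).card := by
      refine card_le_mul_card_image _ _ ?_
      intro z hz
      obtain ⟨q1, hq1, hq1z⟩ := mem_image.1 hz
      have hcl : P.cl i z = ℓ := by
        rw [← hq1z]; exact (mem_filter.1 hq1).2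
      rw [← hcl]
      refine le_trans ?_ (hrlt z)
      unfold Sys.r
      refine card_le_card ?_
      intro q hq
      obtain ⟨hq2, hqz⟩ := mem_filter.1 hq
      obtain ⟨hqL, -⟩ := mem_filter.1 hq2
      have hqp := (hL q hqL).1
      rw [mem_filter]
      refine ⟨Sys.Xp_sub_X hB i P.hy hqp, ?_⟩
      rw [← hqz]
      exact (tw xs hxs q hqp).2.2
    have h2 : ((L.filter (fun q => f q = ℓ)).image (P.z xs)).card ≤
        ((P.Zs i xs).filter (fun z => P.cl i z = ℓ)).card := by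
      refine card_le_card ?_
      intro z hz
      obtain ⟨q, hq, rfl⟩ := mem_image.1 hz
      obtain ⟨hqL, hqℓ⟩ := mem_filter.1 hq
      rw [mem_filter]
      exact ⟨mem_image_of_mem _ (hL q hqL).1, hqℓ⟩
    have h3 : ((L.filter (fun q => f q = ℓ)).card : ℝ) ≤ (((S.b i : ℕ) : ℝ) ^ 1000 * 16 ^ ℓ) *
        (((P.Zs i xs).filter (fun z => P.cl i z = ℓ)).card : ℝ) := by
      have := h1.trans (Nat.mul_le_mul_left _ h2)
      exact_mod_cast this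
    refine h3.trans ?_
    have h4 : (((S.b i : ℕ) : ℝ) ^ 1000 * 16 ^ ℓ) *
        (((P.Zs i xs).filter (fun z => P.cl i z = ℓ)).card : ℝ) ≤
        (((S.b i : ℕ) : ℝ) ^ 1000 * 16 ^ ℓ) * (S.h * (1 / 2 : ℝ) ^ (S.b i / 8 + 5 * ℓ)) :=
      mul_le_mul_of_nonneg_left hnh.le (by positivity)
    refine h4.trans (le_of_eq ?_)
    have h5 : (16 : ℝ) ^ ℓ * (1 / 2 : ℝ) ^ (5 * ℓ) = (1 / 2 : ℝ) ^ ℓ := by
      rw [pow_mul, ← mul_pow]; norm_num
    rw [pow_add]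
    calc ((S.b i : ℕ) : ℝ) ^ 1000 * 16 ^ ℓ * (S.h * ((1 / 2) ^ (S.b i / 8) * (1 / 2) ^ (5 * ℓ)))
        = S.h * ((S.b i : ℕ) : ℝ) ^ 1000 * (1 / 2) ^ (S.b i / 8) * (16 ^ ℓ * (1 / 2) ^ (5 * ℓ)) := by
          ring
      _ = _ := by rw [h5]
  have hgeo : ∑ ℓ ∈ L.image f, (1 / 2 : ℝ) ^ ℓ ≤ 2 := by
    refine le_trans (sum_le_sum_of_subset_of_nonneg (subset_range_sup_succ _) ?_)
      (sum_geometric_two_le _)
    intro _ _ _
    positivity
  have hh := S.h_pos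
  calc (L.card : ℝ) = ∑ ℓ ∈ L.image f, ((L.filter (fun q => f q = ℓ)).card : ℝ) := by
        exact_mod_cast hcard
    _ ≤ ∑ ℓ ∈ L.image f, S.h * ((S.b i : ℕ) : ℝ) ^ 1000 * (1 / 2 : ℝ) ^ (S.b i / 8) *
        (1 / 2 : ℝ) ^ ℓ := sum_le_sum hfib
    _ = S.h * ((S.b i : ℕ) : ℝ) ^ 1000 * (1 / 2 : ℝ) ^ (S.b i / 8) *
        ∑ ℓ ∈ L.image f, (1 / 2 : ℝ) ^ ℓ := by rw [mul_sum]
    _ ≤ S.h * ((S.b i : ℕ) : ℝ) ^ 1000 * (1 / 2 : ℝ) ^ (S.b i / 8) * 2 :=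
        mul_le_mul_of_nonneg_left hgeo (by positivity)
    _ = _ := by ring


/-- the final numerical inequality of (1.5) -/
theorem strong_num {b b' h D cst nT nV r8 r2 r1 : ℝ} {u : ℝ} (hb : 64 ≤ b) (hb' : b' = b ^ 36)
    (hD : 0 < D) (hh : 0 < h) (hhD : h ≤ b ^ 10 * D) (hr : r8 * b ^ 1500 ≤ 1) (hr8 : 0 ≤ r8)
    (hr2 : r2 ≤ r8) (hr1 : r1 ≤ r8)
    (hcost : cst ≤ (2 * b' + b + 2) * nT + (2 * b' + 5) * nV)
    (hu : (2 * b' + b + 2) * nT + (2 * b' + 5) * u ≤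
      (2 * b' + b + 2) * (2 * h / b ^ 450) + (2 * b' + 5) * (h * r1))
    (hnV : nV ≤ h * r2 + 2 * h * b ^ 1000 * r8 + u) :
    cst ≤ (b' ^ 9)⁻¹ * D / 2 := by
  have hb0 : 0 < b := by linarith
  have hb1 : 1 ≤ b := by linarith
  have hb'1 : 1 ≤ b' := by rw [hb']; exact one_le_pow₀ hb1
  have hbb' : b ≤ b' := by
    rw [hb']
    calc b = b ^ 1 := (pow_one b).symm
      _ ≤ b ^ 36 := pow_le_pow_right₀ hb1 (by norm_num)
  -- everything in terms of powers of `b`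
  have h8 : r8 ≤ (b ^ 1500)⁻¹ := by
    rw [← one_div, le_div_iff₀ (by positivity)]; exact hr
  have e1 : (2 * b' + b + 2) * (2 * h / b ^ 450) ≤ 5 * b' * (2 * h / b ^ 450) := by
    refine mul_le_mul_of_nonneg_right (by linarith) (by positivity)
  have h1000 : b ^ 1000 * r8 ≤ (b ^ 500)⁻¹ := by
    calc b ^ 1000 * r8 ≤ b ^ 1000 * (b ^ 1500)⁻¹ := mul_le_mul_of_nonneg_left h8 (by positivity)
      _ = (b ^ 500)⁻¹ := by
        rw [show (1500 : ℕ) = 1000 + 500 by norm_num, pow_add]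
        field_simp
  have h500 : r8 ≤ (b ^ 500)⁻¹ := by
    refine h8.trans (inv_anti₀ (by positivity) (pow_le_pow_right₀ hb1 (by norm_num)))
  have e2 : h * r2 + 2 * h * b ^ 1000 * r8 + h * r1 ≤ 4 * h * (b ^ 500)⁻¹ := by
    have a1 : h * r2 ≤ h * (b ^ 500)⁻¹ := mul_le_mul_of_nonneg_left (hr2.trans h500) hh.le
    have a2 : h * r1 ≤ h * (b ^ 500)⁻¹ := mul_le_mul_of_nonneg_left (hr1.trans h500) hh.le
    have a3 : h * (b ^ 1000 * r8) ≤ h * (b ^ 500)⁻¹ := mul_le_mul_of_nonneg_left h1000 hh.le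
    calc h * r2 + 2 * h * b ^ 1000 * r8 + h * r1 = h * r2 + 2 * (h * (b ^ 1000 * r8)) + h * r1 := by
          ring
      _ ≤ h * (b ^ 500)⁻¹ + 2 * (h * (b ^ 500)⁻¹) + h * (b ^ 500)⁻¹ := by linarith
      _ = _ := by ring
  have e3 : (2 * b' + 5) * (h * r2 + 2 * h * b ^ 1000 * r8 + h * r1) ≤
      7 * b' * (4 * h * (b ^ 500)⁻¹) := by
    calc (2 * b' + 5) * (h * r2 + 2 * h * b ^ 1000 * r8 + h * r1)
        ≤ (2 * b' + 5) * (4 * h * (b ^ 500)⁻¹) := mul_le_mul_of_nonneg_left e2 (by linarith)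
      _ ≤ 7 * b' * (4 * h * (b ^ 500)⁻¹) :=
        mul_le_mul_of_nonneg_right (by linarith) (by positivity)
  have e4 : cst ≤ 5 * b' * (2 * h / b ^ 450) + 7 * b' * (4 * h * (b ^ 500)⁻¹) := by
    have a1 : (2 * b' + 5) * nV ≤ (2 * b' + 5) * (h * r2 + 2 * h * b ^ 1000 * r8 + u) :=
      mul_le_mul_of_nonneg_left hnV (by linarith)
    nlinarith
  have e5 : (b ^ 500)⁻¹ ≤ (b ^ 450)⁻¹ :=
    inv_anti₀ (by positivity) (pow_le_pow_right₀ hb1 (by norm_num))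
  have e6 : cst ≤ 38 * (b' * h * (b ^ 450)⁻¹) := by
    have a1 : b' * h * (b ^ 500)⁻¹ ≤ b' * h * (b ^ 450)⁻¹ :=
      mul_le_mul_of_nonneg_left e5 (by positivity)
    have a2 : 5 * b' * (2 * h / b ^ 450) + 7 * b' * (4 * h * (b ^ 500)⁻¹)
        = 10 * (b' * h * (b ^ 450)⁻¹) + 28 * (b' * h * (b ^ 500)⁻¹) := by
      rw [div_eq_mul_inv]; ring
    rw [a2] at e4
    linarith
  have e7 : b' * h * (b ^ 450)⁻¹ ≤ (b ^ 404)⁻¹ * D := by
    calc b' * h * (b ^ 450)⁻¹ ≤ b' * (b ^ 10 * D) * (b ^ 450)⁻¹ := by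
          refine mul_le_mul_of_nonneg_right (mul_le_mul_of_nonneg_left hhD (by linarith))
            (by positivity)
      _ = (b ^ 404)⁻¹ * D := by
        rw [hb', show (450 : ℕ) = 36 + 10 + 404 by norm_num, pow_add, pow_add]
        field_simp
  have e8 : (b' ^ 9)⁻¹ = (b ^ 404)⁻¹ * b ^ 80 := by
    rw [hb', ← pow_mul, show (404 : ℕ) = 36 * 9 + 80 by norm_num, pow_add]
    field_simp
  have e9 : (76 : ℝ) ≤ b ^ 80 := by
    calc (76 : ℝ) ≤ 64 ^ 2 := by norm_num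
      _ ≤ b ^ 2 := pow_le_pow_left₀ (by norm_num) hb 2
      _ ≤ b ^ 80 := pow_le_pow_right₀ hb1 (by norm_num)
  rw [e8]
  have e10 : 0 < (b ^ 404)⁻¹ * D := by positivity
  calc cst ≤ 38 * (b' * h * (b ^ 450)⁻¹) := e6
    _ ≤ 38 * ((b ^ 404)⁻¹ * D) := by linarith
    _ = (b ^ 404)⁻¹ * 76 * D / 2 := by ring
    _ ≤ (b ^ 404)⁻¹ * b ^ 80 * D / 2 := by
      have : (b ^ 404)⁻¹ * 76 ≤ (b ^ 404)⁻¹ * b ^ 80 := mul_le_mul_of_nonneg_left e9 (by positivity)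
      nlinarith


/-- (1.5): if the top of the component of `x` is not rich, `y` has `(i+1,s)`. -/
theorem strong (hB : 2 ≤ S.B) (P : Pair S) (i : ℕ) (tw : P.Twins i) (hc : P.Conf i)
    (hK : S.KW i P.y P.x) (xs : G) (hxs : P.IsTop i xs) (hnr : ¬ P.Heavy i 0 xs) :
    S.HasS (i + 1) P.y := by
  classical
  obtain ⟨F, hFk, hFN⟩ := hK
  obtain ⟨hxsA, hxsd⟩ := hc xs hxs.1
  have hxsXp : xs ∈ S.Xp i P.x := Sys.mem_Xp.mpr ⟨hxsA, Sys.dist_pow_mono hB i (by norm_num) hxsd⟩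
  have hxsX : xs ∈ S.X i P.x := Sys.Xp_sub_X hB i P.hx hxsXp
  have hbpos : 0 < S.b i := Sys.b_pos hB i
  set Y := S.X i P.y with hYdef
  set Y' := S.Xp i P.y with hY'def
  set Yp := S.Xn i P.y with hYpdef
  set Z : G → G := fun q => P.z xs q with hZdef
  set T : G → G := fun q => q + Z q with hTdef
  set Dom := Y'.filter (fun q => P.Good i xs (Z q)) with hDomdef
  set Lost := Y'.filter (fun q => ¬ P.Good i xs (Z q)) with hLostdef
  have hYpY' : Yp ⊆ Y' := Sys.Xn_sub_Xp hB i P.y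
  have hY'Y : Y' ⊆ Y := Sys.Xp_sub_X hB i P.hy
  have hDomY' : Dom ⊆ Y' := filter_subset _ _
  have hDY : ∀ q ∈ Dom, q ∈ Y' ∧ P.Good i xs (Z q) := fun q hq => mem_filter.1 hq
  -- moves at the top
  have hreach : ∀ q ∈ Dom, P.Reach i (xs - Z q) := by
    intro q hq
    obtain ⟨hqY, hqg⟩ := hDY q hq
    refine Relation.ReflTransGen.tail hxs.1 (Or.inl ⟨hxsXp, ?_, ?_⟩)
    · rw [sub_sub_cancel]; exact mem_image_of_mem _ hqY
    · rw [sub_sub_cancel]; exact hqg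
  have hcomp : ∀ q ∈ Dom, xs - Z q ∈ S.X i P.x := fun q hq => (tw xs hxsXp q (hDY q hq).1).2.1
  have hT : ∀ q ∈ Dom, T q ∈ Y := fun q hq => (tw xs hxsXp q (hDY q hq).1).2.2
  have hψ : ∀ q ∈ Dom, P.ψ' q < P.ψ' (T q) := by
    intro q hq
    have hx0 : xs ∈ S.X0 P.x := Sys.X_sub_X0 hB i P.hx hxsX
    have hx1 : xs - Z q ∈ S.X0 P.x := Sys.X_sub_X0 hB i P.hx (hcomp q hq)
    have hy0 : q ∈ S.X0 P.y := Sys.X_sub_X0 hB i P.hy (hY'Y (hDomY' hq))
    have hy1 : q + Z q ∈ S.X0 P.y := Sys.X_sub_X0 hB i P.hy (hT q hq)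
    have hadd := P.add xs q (Z q) hx0 hx1 hy0 hy1
    have hle := hxs.2 _ (hreach q hq)
    have hne : P.ψ (xs - Z q) ≠ P.ψ xs := by
      intro h
      have := P.inj hx1 hx0 h
      exact (tw xs hxsXp q (hDY q hq).1).1 (sub_eq_self.mp this)
    have hlt : P.ψ (xs - Z q) < P.ψ xs := lt_of_le_of_ne hle hne
    show P.ψ' q < P.ψ' (q + Z q)
    linarith
  have hsum : ∀ q k, T^[k] q - q = ∑ l ∈ range k, Z (T^[l] q) := by
    intro q k
    induction k with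
    | zero => simp
    | succ k ih =>
      rw [sum_range_succ, ← ih, Function.iterate_succ_apply']
      show T^[k] q + Z (T^[k] q) - q = _
      abel
  have hNF : ∀ q ∈ Dom, S.N F (Z q) ≤ (1 / 2 : ℝ) ^ S.b i := by
    intro q hq
    have := hFN xs hxsX (xs - Z q) (hcomp q hq)
    rwa [sub_sub_cancel] at this
  set L : ℕ := 2 ^ (S.b i / 2) with hLdef
  have hL1 : 1 ≤ L := Nat.one_le_two_pow
  have hYA : ∀ q ∈ Y, q ∈ S.A := fun q hq => Sys.X_sub_A hB i P.hy hq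
  have stay : ∀ q ∈ Yp, ∀ k ≤ L, (∀ l < k, T^[l] q ∈ Dom) → T^[k] q ∈ Y' := by
    intro q hq k hk hl
    obtain ⟨hqA, hqd⟩ := Sys.mem_Xn.mp hq
    have hA : T^[k] q ∈ S.A := by
      cases k with
      | zero => exact hqA
      | succ k =>
        rw [Function.iterate_succ_apply']
        exact hYA _ (hT _ (hl k (by omega)))
    have hN : S.N F (T^[k] q - q) ≤ (1 / 2 : ℝ) ^ (S.b i / 2) := by
      rw [hsum]
      calc S.N F (∑ l ∈ range k, Z (T^[l] q)) ≤ ∑ l ∈ range k, S.N F (Z (T^[l] q)) := S.N_sum F _ _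
        _ ≤ ∑ l ∈ range k, (1 / 2 : ℝ) ^ S.b i :=
          sum_le_sum fun l hlk => hNF _ (hl l (mem_range.1 hlk))
        _ = (k : ℝ) * (1 / 2 : ℝ) ^ S.b i := by rw [sum_const, card_range, nsmul_eq_mul]
        _ ≤ (2 : ℝ) ^ (S.b i / 2) * (1 / 2 : ℝ) ^ S.b i := by
          refine mul_le_mul_of_nonneg_right ?_ (by positivity)
          have : ((L : ℕ) : ℝ) = (2 : ℝ) ^ (S.b i / 2) := by rw [hLdef]; push_cast; rfl
          rw [← this]
          exact_mod_cast hk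
        _ ≤ (2 : ℝ) ^ (S.b i / 2) * (1 / 2 : ℝ) ^ (S.b i / 2 + S.b i / 2) := by
          refine mul_le_mul_of_nonneg_left ?_ (by positivity)
          exact pow_le_pow_of_le_one (by norm_num) (by norm_num) (by omega)
        _ = (1 / 2 : ℝ) ^ (S.b i / 2) := by
          rw [pow_add, ← mul_assoc, ← mul_pow]; norm_num
    have hm : 2 * S.be i ^ 180 ≤ S.b i / 2 := by
      have h2 := Sys.two_le_be (S := S) hB i
      have h3 := Sys.be_pow_le_b (S := S) hB i (n := 182) (by norm_num)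
      rw [Nat.le_div_iff_mul_le (by norm_num)]
      refine le_trans ?_ h3
      calc 2 * S.be i ^ 180 * 2 = 2 * 2 * S.be i ^ 180 := by ring
        _ ≤ S.be i * S.be i * S.be i ^ 180 := Nat.mul_le_mul_right _ (Nat.mul_le_mul h2 h2)
        _ = S.be i ^ 182 := by ring
    have hR := Sys.conf_R hB i (F := F) (x := P.y) (g := q - P.y) (g' := T^[k] q - q) P.hy hFk
      (by rw [show P.y + (q - P.y) + (T^[k] q - q) = T^[k] q by abel]; exact hA) hqd hN hm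
    rw [show q - P.y + (T^[k] q - q) = T^[k] q - P.y by abel] at hR
    exact Sys.mem_Xp.mpr ⟨hA, hR⟩
  obtain ⟨Node, hNodeY, hNodec, hNode⟩ := chain Y Y' Yp Dom T P.ψ' L hL1 hYpY' hY'Y hDomY' hT hψ stay
  -- seeds
  have hM1 : 1 ≤ (S.b i) ^ 450 := Nat.one_le_pow _ _ hbpos
  obtain ⟨Ω, instF, instN, T1, T2, hTsub, hTsize, hTcov⟩ := seed_exists Y ((S.b i) ^ 450) 0 hM1
  set Unc : Ω → Finset G := fun ω => Dom.filter (fun q => ∀ c ∈ T2 ω 0, c + Z q ∉ T1 ω 0) with hUncdef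
  have hbR1 : (1 : ℝ) ≤ ((S.b i : ℕ) : ℝ) := by exact_mod_cast hbpos
  have hYh : (Y.card : ℝ) ≤ S.h := Sys.card_X_le hB i P.hy
  have hDomh : (Dom.card : ℝ) ≤ S.h :=
    le_trans (by exact_mod_cast card_le_card (hDomY'.trans hY'Y)) hYh
  have hΩ : (0 : ℝ) < (Fintype.card Ω : ℝ) := by exact_mod_cast Fintype.card_pos
  -- `r(z)` is large for good differences
  have hrbig : ∀ q ∈ Dom, S.b i ^ 1000 ≤ S.r i P.y (Z q) := by
    intro q hq
    obtain ⟨ℓ, hℓ, hH⟩ := (hDY q hq).2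
    by_contra hcon
    rw [not_le] at hcon
    have h0 : P.cl i (Z q) = 0 := if_pos hcon
    rw [h0] at hℓ
    obtain rfl : ℓ = 0 := by omega
    exact hnr hH
  have hexp : ∀ q ∈ Dom, Real.exp (-((Y.filter (fun c => c + Z q ∈ Y)).card : ℝ) /
      ((((S.b i) ^ 450 : ℕ) : ℝ) * 2 ^ 0) ^ 2) ≤ (1 / 2 : ℝ) ^ S.b i := by
    intro q hq
    have h1 : ((S.b i : ℕ) : ℝ) ^ 1000 ≤ ((Y.filter (fun c => c + Z q ∈ Y)).card : ℝ) := by
      have := hrbig q hq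
      have h2 : S.r i P.y (Z q) = (Y.filter (fun c => c + Z q ∈ Y)).card := by
        unfold Sys.r
        rfl
      rw [h2] at this
      exact_mod_cast this
    have hb0 : (0 : ℝ) < ((S.b i : ℕ) : ℝ) := by linarith
    have h3 : (2 : ℝ) * ((S.b i : ℕ) : ℝ) ≤ ((S.b i : ℕ) : ℝ) ^ 100 := by
      have h2b : (2 : ℝ) ≤ ((S.b i : ℕ) : ℝ) := by
        have := Sys.two_pow_le_b (S := S) hB i (n := 1) (by norm_num)
        exact_mod_cast this
      calc (2 : ℝ) * ((S.b i : ℕ) : ℝ) ≤ ((S.b i : ℕ) : ℝ) * ((S.b i : ℕ) : ℝ) :=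
            mul_le_mul_of_nonneg_right h2b hb0.le
        _ = ((S.b i : ℕ) : ℝ) ^ 2 := (sq _).symm
        _ ≤ ((S.b i : ℕ) : ℝ) ^ 100 := pow_le_pow_right₀ hbR1 (by norm_num)
    have h4 : ((S.b i : ℕ) : ℝ) ^ 100 ≤ ((Y.filter (fun c => c + Z q ∈ Y)).card : ℝ) /
        ((((S.b i) ^ 450 : ℕ) : ℝ) * 2 ^ 0) ^ 2 := by
      rw [le_div_iff₀ (by positivity)]
      push_cast
      rw [pow_zero, mul_one, ← pow_mul, ← pow_add]
      exact h1
    rw [neg_div]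
    have h5 : Real.exp (-(((Y.filter (fun c => c + Z q ∈ Y)).card : ℝ) /
        ((((S.b i) ^ 450 : ℕ) : ℝ) * 2 ^ 0) ^ 2)) ≤ Real.exp (-(((S.b i : ℕ) : ℝ))) :=
      Real.exp_le_exp.mpr (by linarith)
    refine h5.trans ?_
    have h6 : Real.exp (-(1 : ℝ)) ≤ 1 / 2 := by
      have h7 := Real.add_one_le_exp (1 : ℝ)
      rw [Real.exp_neg, ← one_div]
      exact one_div_le_one_div_of_le (by norm_num) (by linarith)
    calc Real.exp (-(((S.b i : ℕ) : ℝ))) = (Real.exp (-(1 : ℝ))) ^ S.b i := by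
          rw [← Real.exp_nat_mul]; congr 1; ring
      _ ≤ (1 / 2 : ℝ) ^ S.b i := pow_le_pow_left₀ (Real.exp_pos _).le h6 _
  have hUncsum : ∑ ω, ((Unc ω).card : ℝ) ≤ S.h * (1 / 2 : ℝ) ^ S.b i * (Fintype.card Ω : ℝ) := by
    have e1 : ∑ ω, ((Unc ω).card : ℝ) = ∑ q ∈ Dom,
        (((univ.filter (fun ω => ∀ c ∈ T2 ω 0, c + Z q ∉ T1 ω 0)).card : ℕ) : ℝ) := by
      simp only [hUncdef, card_filter]
      push_cast
      exact sum_comm
    rw [e1]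
    calc ∑ q ∈ Dom, (((univ.filter (fun ω => ∀ c ∈ T2 ω 0, c + Z q ∉ T1 ω 0)).card : ℕ) : ℝ)
        ≤ ∑ q ∈ Dom, (1 / 2 : ℝ) ^ S.b i * (Fintype.card Ω : ℝ) := by
          refine sum_le_sum fun q hq => (hTcov 0 le_rfl (Z q)).trans ?_
          exact mul_le_mul_of_nonneg_right (hexp q hq) hΩ.le
      _ = (Dom.card : ℝ) * ((1 / 2 : ℝ) ^ S.b i * (Fintype.card Ω : ℝ)) := by
          rw [sum_const, nsmul_eq_mul]
      _ ≤ S.h * ((1 / 2 : ℝ) ^ S.b i * (Fintype.card Ω : ℝ)) :=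
          mul_le_mul_of_nonneg_right hDomh (by positivity)
      _ = _ := by ring
  set b' : ℕ := S.b (i + 1) with hb'def
  have hb'36 : (b' : ℝ) = ((S.b i : ℕ) : ℝ) ^ 36 := by
    rw [hb'def, Sys.b_succ]; push_cast; rfl
  have hpos1 : (0 : ℝ) ≤ 2 * (b' : ℝ) + (S.b i : ℝ) + 2 := by
    have h1 : (0 : ℝ) ≤ (b' : ℝ) := Nat.cast_nonneg _
    linarith
  have hpos2 : (0 : ℝ) ≤ 2 * (b' : ℝ) + 5 := by
    have h1 : (0 : ℝ) ≤ (b' : ℝ) := Nat.cast_nonneg _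
    linarith
  obtain ⟨ω, hω⟩ : ∃ ω : Ω, (2 * (b' : ℝ) + (S.b i : ℝ) + 2) *
      (((T1 ω 0).card : ℝ) + ((T2 ω 0).card : ℝ)) + (2 * (b' : ℝ) + 5) * ((Unc ω).card : ℝ) ≤
      (2 * (b' : ℝ) + (S.b i : ℝ) + 2) * (2 * S.h / ((S.b i : ℕ) : ℝ) ^ 450) +
      (2 * (b' : ℝ) + 5) * (S.h * (1 / 2 : ℝ) ^ S.b i) := by
    have hex := Finset.exists_le_of_sum_le (s := (univ : Finset Ω)) (f := fun ω =>
      (2 * (b' : ℝ) + (S.b i : ℝ) + 2) *
      (((T1 ω 0).card : ℝ) + ((T2 ω 0).card : ℝ)) + (2 * (b' : ℝ) + 5) * ((Unc ω).card : ℝ))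
      (g := fun _ => (2 * (b' : ℝ) + (S.b i : ℝ) + 2) * (2 * S.h / ((S.b i : ℕ) : ℝ) ^ 450) +
      (2 * (b' : ℝ) + 5) * (S.h * (1 / 2 : ℝ) ^ S.b i)) univ_nonempty ?_
    · obtain ⟨ω, -, h⟩ := hex
      exact ⟨ω, h⟩
    · rw [sum_add_distrib, ← mul_sum, ← mul_sum, sum_const, card_univ, nsmul_eq_mul]
      have hs := hTsize 0 le_rfl
      have hs' : 2 * (Y.card : ℝ) / ((((S.b i) ^ 450 : ℕ) : ℝ) * 2 ^ 0) * (Fintype.card Ω : ℝ) ≤
          2 * S.h / ((S.b i : ℕ) : ℝ) ^ 450 * (Fintype.card Ω : ℝ) := by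
        refine mul_le_mul_of_nonneg_right ?_ hΩ.le
        push_cast
        rw [pow_zero, mul_one]
        exact div_le_div_of_nonneg_right (by linarith) (by positivity)
      have a1 := mul_le_mul_of_nonneg_left (hs.trans hs') hpos1
      have a2 := mul_le_mul_of_nonneg_left hUncsum hpos2
      calc _ ≤ (2 * (b' : ℝ) + (S.b i : ℝ) + 2) *
            (2 * S.h / ((S.b i : ℕ) : ℝ) ^ 450 * (Fintype.card Ω : ℝ)) +
            (2 * (b' : ℝ) + 5) * (S.h * (1 / 2 : ℝ) ^ S.b i * (Fintype.card Ω : ℝ)) := add_le_add a1 a2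
        _ = _ := by ring
  -- the knowledge
  set V : Finset G := Node ∪ Lost ∪ Unc ω with hVdef
  set E1 : Finset (G × ℕ) := (T1 ω 0 ∪ T2 ω 0).image (fun s => (s, 2 * b' + S.b i)) with hE1
  set E2 : Finset (G × ℕ) := V.image (fun v => (v, 2 * b' + 3)) with hE2
  have hNT : ∀ s ∈ T1 ω 0 ∪ T2 ω 0, S.N (S.lst (E1 ∪ E2)) s ≤ (1 / 2 : ℝ) ^ (2 * b' + S.b i) := by
    intro s hs
    exact S.N_lst (E1 ∪ E2) (s, 2 * b' + S.b i) (mem_union_left _ (mem_image_of_mem _ hs))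
  have hNV : ∀ v ∈ V, S.N (S.lst (E1 ∪ E2)) v ≤ (1 / 2 : ℝ) ^ (2 * b' + 3) := by
    intro v hv
    exact S.N_lst (E1 ∪ E2) (v, 2 * b' + 3) (mem_union_right _ (mem_image_of_mem _ hv))
  refine ⟨S.lst (E1 ∪ E2), ?_, ?_⟩
  · -- cost
    have hc1 : S.cost (S.lst (E1 ∪ E2)) ≤ (2 * (b' : ℝ) + (S.b i : ℝ) + 2) *
        (((T1 ω 0).card : ℝ) + ((T2 ω 0).card : ℝ)) + (2 * (b' : ℝ) + 5) * (V.card : ℝ) := by
      have hE1c : (E1.card : ℝ) ≤ ((T1 ω 0).card : ℝ) + ((T2 ω 0).card : ℝ) := by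
        have h1 : E1.card ≤ (T1 ω 0).card + (T2 ω 0).card :=
          card_image_le.trans (card_union_le (T1 ω 0) (T2 ω 0))
        exact_mod_cast h1
      have hE2c : (E2.card : ℝ) ≤ (V.card : ℝ) := by exact_mod_cast card_image_le
      have s1 : ∑ e ∈ E1, ((e.2 : ℝ) + 2) = (E1.card : ℝ) * (2 * (b' : ℝ) + (S.b i : ℝ) + 2) := by
        rw [← nsmul_eq_mul, ← sum_const]
        refine sum_congr rfl fun e he => ?_
        obtain ⟨s, -, rfl⟩ := mem_image.1 he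
        push_cast
        ring
      have s2 : ∑ e ∈ E2, ((e.2 : ℝ) + 2) = (E2.card : ℝ) * (2 * (b' : ℝ) + 5) := by
        rw [← nsmul_eq_mul, ← sum_const]
        refine sum_congr rfl fun e he => ?_
        obtain ⟨s, -, rfl⟩ := mem_image.1 he
        push_cast
        ring
      calc S.cost (S.lst (E1 ∪ E2)) ≤ ∑ e ∈ E1 ∪ E2, ((e.2 : ℝ) + 2) := S.cost_lst _
        _ ≤ ∑ e ∈ E1 ∪ E2, ((e.2 : ℝ) + 2) + ∑ e ∈ E1 ∩ E2, ((e.2 : ℝ) + 2) :=
          le_add_of_nonneg_right (sum_nonneg fun _ _ => by positivity)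
        _ = ∑ e ∈ E1, ((e.2 : ℝ) + 2) + ∑ e ∈ E2, ((e.2 : ℝ) + 2) := sum_union_inter
        _ = (E1.card : ℝ) * (2 * (b' : ℝ) + (S.b i : ℝ) + 2) + (E2.card : ℝ) * (2 * (b' : ℝ) + 5) := by
          rw [s1, s2]
        _ ≤ (((T1 ω 0).card : ℝ) + ((T2 ω 0).card : ℝ)) * (2 * (b' : ℝ) + (S.b i : ℝ) + 2) +
            (V.card : ℝ) * (2 * (b' : ℝ) + 5) :=
          add_le_add (mul_le_mul_of_nonneg_right hE1c hpos1)
            (mul_le_mul_of_nonneg_right hE2c hpos2)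
        _ = _ := by ring
    have hLostc : (Lost.card : ℝ) ≤ 2 * S.h * ((S.b i : ℕ) : ℝ) ^ 1000 * (1 / 2 : ℝ) ^ (S.b i / 8) :=
      strong_lost hB P i tw xs hxsXp Lost (fun q hq => mem_filter.1 hq)
    have hNodeh : (Node.card : ℝ) ≤ S.h * (1 / 2 : ℝ) ^ (S.b i / 2) := by
      have h1 : (Node.card : ℝ) * (2 : ℝ) ^ (S.b i / 2) ≤ S.h := by
        refine le_trans ?_ hYh
        have : (Node.card : ℝ) * ((L : ℕ) : ℝ) ≤ (Y.card : ℝ) := by exact_mod_cast hNodec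
        have hLc : ((L : ℕ) : ℝ) = (2 : ℝ) ^ (S.b i / 2) := by rw [hLdef]; push_cast; rfl
        rwa [hLc] at this
      have h2 : (2 : ℝ) ^ (S.b i / 2) * (1 / 2 : ℝ) ^ (S.b i / 2) = 1 := by
        rw [← mul_pow]; norm_num
      calc (Node.card : ℝ) = (Node.card : ℝ) * (2 : ℝ) ^ (S.b i / 2) * (1 / 2 : ℝ) ^ (S.b i / 2) := by
            rw [mul_assoc, h2, mul_one]
        _ ≤ S.h * (1 / 2 : ℝ) ^ (S.b i / 2) := mul_le_mul_of_nonneg_right h1 (by positivity)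
    have hVc : (V.card : ℝ) ≤ S.h * (1 / 2 : ℝ) ^ (S.b i / 2) +
        2 * S.h * ((S.b i : ℕ) : ℝ) ^ 1000 * (1 / 2 : ℝ) ^ (S.b i / 8) + ((Unc ω).card : ℝ) := by
      have h1 : (V.card : ℝ) ≤ (Node.card : ℝ) + (Lost.card : ℝ) + ((Unc ω).card : ℝ) := by
        have := (card_union_le (Node ∪ Lost) (Unc ω)).trans
          (Nat.add_le_add_right (card_union_le Node Lost) _)
        exact_mod_cast this
      linarith
    have hb64 : (64 : ℝ) ≤ ((S.b i : ℕ) : ℝ) := by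
      have := Sys.two_pow_le_b (S := S) hB i (n := 6) (by norm_num)
      exact_mod_cast this
    have hhD : S.h ≤ ((S.b i : ℕ) : ℝ) ^ 10 * S.D := by
      refine S.h_le.trans (mul_le_mul_of_nonneg_right (pow_le_pow_left₀ (by positivity) ?_ 10)
        S.D_pos.le)
      rw [Sys.b_eqR]
      exact pow_le_pow_left₀ (Nat.cast_nonneg _) (Sys.B_le_be hB i) 2400
    have hr8 : (1 / 2 : ℝ) ^ (S.b i / 8) * ((S.b i : ℕ) : ℝ) ^ 1500 ≤ 1 := by
      have h1 : ((S.b i : ℕ) : ℝ) ^ 1500 ≤ (2 : ℝ) ^ (S.b i / 8) := by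
        exact_mod_cast strong_pow hB i
      calc (1 / 2 : ℝ) ^ (S.b i / 8) * ((S.b i : ℕ) : ℝ) ^ 1500
          ≤ (1 / 2 : ℝ) ^ (S.b i / 8) * (2 : ℝ) ^ (S.b i / 8) :=
            mul_le_mul_of_nonneg_left h1 (by positivity)
        _ = 1 := by rw [← mul_pow]; norm_num
    have hfin := strong_num (b := ((S.b i : ℕ) : ℝ)) (b' := (b' : ℝ)) (h := S.h) (D := S.D)
      (cst := S.cost (S.lst (E1 ∪ E2))) (nT := ((T1 ω 0).card : ℝ) + ((T2 ω 0).card : ℝ))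
      (nV := (V.card : ℝ)) (r8 := (1 / 2 : ℝ) ^ (S.b i / 8)) (r2 := (1 / 2 : ℝ) ^ (S.b i / 2))
      (r1 := (1 / 2 : ℝ) ^ S.b i) (u := ((Unc ω).card : ℝ)) hb64 hb'36 S.D_pos S.h_pos hhD hr8
      (by positivity) (pow_le_pow_of_le_one (by norm_num) (by norm_num) (by omega))
      (pow_le_pow_of_le_one (by norm_num) (by norm_num) (by omega)) hc1 hω hVc
    exact hfin
  · -- the differences
    have hq : ∀ q ∈ S.X (i + 1) P.y, S.N (S.lst (E1 ∪ E2)) q ≤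
        (1 / 2 : ℝ) ^ (2 * b' + 3) + (1 / 2 : ℝ) ^ (2 * b' + 3) := by
      intro q hq
      rw [Sys.X_succ] at hq
      obtain ⟨k, hkL, hkD, hkN⟩ := hNode q hq
      have hkV : T^[k] q ∈ V := by
        rcases hkN with h | h
        · exact mem_union_left _ (mem_union_left _ h)
        · refine mem_union_left _ (mem_union_right _ ?_)
          obtain ⟨h1, h2⟩ := mem_sdiff.1 h
          rw [hLostdef, mem_filter]
          refine ⟨h1, fun h3 => h2 ?_⟩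
          rw [hDomdef, mem_filter]
          exact ⟨h1, h3⟩
      -- first time in `V`
      have hex : ∃ l, T^[l] q ∈ V := ⟨k, hkV⟩
      set k0 := Nat.find hex with hk0
      have hk0V : T^[k0] q ∈ V := Nat.find_spec hex
      have hk0k : k0 ≤ k := Nat.find_min' hex hkV
      have hstep : ∀ l < k0, S.N (S.lst (E1 ∪ E2)) (Z (T^[l] q)) ≤
          2 * (1 / 2 : ℝ) ^ (2 * b' + S.b i) := by
        intro l hl
        have hnV : T^[l] q ∉ V := Nat.find_min hex hl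
        have hD : T^[l] q ∈ Dom := hkD l (by omega)
        have hnU : T^[l] q ∉ Unc ω := fun h => hnV (mem_union_right _ h)
        rw [hUncdef, mem_filter] at hnU
        push Not at hnU
        obtain ⟨c, hc2, hc1⟩ := hnU hD
        have e : Z (T^[l] q) = (c + Z (T^[l] q)) - c := by abel
        rw [e]
        refine (S.N_sub _ _ _).trans ?_
        have a1 := hNT (c + Z (T^[l] q)) (mem_union_left _ hc1)
        have a2 := hNT c (mem_union_right _ hc2)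
        linarith
      have e : q = T^[k0] q - ∑ l ∈ range k0, Z (T^[l] q) := by
        rw [← hsum]; abel
      have h1 : S.N (S.lst (E1 ∪ E2)) q ≤ (1 / 2 : ℝ) ^ (2 * b' + 3) +
          (k0 : ℝ) * (2 * (1 / 2 : ℝ) ^ (2 * b' + S.b i)) := by
        conv_lhs => rw [e]
        refine (S.N_sub _ _ _).trans ?_
        refine add_le_add (hNV _ hk0V) ?_
        calc S.N (S.lst (E1 ∪ E2)) (∑ l ∈ range k0, Z (T^[l] q))
            ≤ ∑ l ∈ range k0, S.N (S.lst (E1 ∪ E2)) (Z (T^[l] q)) := S.N_sum _ _ _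
          _ ≤ ∑ l ∈ range k0, 2 * (1 / 2 : ℝ) ^ (2 * b' + S.b i) :=
            sum_le_sum fun l hl => hstep l (mem_range.1 hl)
          _ = _ := by rw [sum_const, card_range, nsmul_eq_mul]
      refine h1.trans (add_le_add_right ?_ _)
      have hk0L : (k0 : ℝ) ≤ (2 : ℝ) ^ (S.b i / 2) := by
        have hLc : ((L : ℕ) : ℝ) = (2 : ℝ) ^ (S.b i / 2) := by rw [hLdef]; push_cast; rfl
        rw [← hLc]
        exact_mod_cast (by omega : k0 ≤ L)
      have hb8 : 8 ≤ S.b i := by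
        have := Sys.two_pow_le_b (S := S) hB i (n := 3) (by norm_num)
        simpa using this
      calc (k0 : ℝ) * (2 * (1 / 2 : ℝ) ^ (2 * b' + S.b i))
          ≤ (2 : ℝ) ^ (S.b i / 2) * (2 * (1 / 2 : ℝ) ^ (2 * b' + S.b i)) :=
            mul_le_mul_of_nonneg_right hk0L (by positivity)
        _ = 2 * ((2 : ℝ) ^ (S.b i / 2) * (1 / 2 : ℝ) ^ (2 * b' + S.b i)) := by ring
        _ ≤ 2 * ((2 : ℝ) ^ (S.b i / 2) * (1 / 2 : ℝ) ^ (S.b i / 2 + (2 * b' + 4))) := by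
          refine mul_le_mul_of_nonneg_left (mul_le_mul_of_nonneg_left ?_ (by positivity))
            (by norm_num)
          exact pow_le_pow_of_le_one (by norm_num) (by norm_num) (by omega)
        _ = (1 / 2 : ℝ) ^ (2 * b' + 3) := by
          rw [pow_add (1 / 2 : ℝ) (S.b i / 2) (2 * b' + 4), ← mul_assoc ((2 : ℝ) ^ (S.b i / 2)),
            ← mul_pow, show (2 : ℝ) * (1 / 2) = 1 by norm_num, one_pow, one_mul,
            show 2 * b' + 4 = (2 * b' + 3) + 1 by ring, pow_succ]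
          ring
    intro c hc c' hc'
    refine (S.N_sub _ _ _).trans ?_
    have h1 := hq c hc
    have h2 := hq c' hc'
    have h3 : (1 / 2 : ℝ) ^ (2 * b' + 3) = (1 / 2 : ℝ) ^ (2 * b') * (1 / 8) := by
      rw [pow_add]; norm_num
    have h4 : (0 : ℝ) < (1 / 2 : ℝ) ^ (2 * b') := by positivity
    rw [h3] at h1 h2
    linarith

end

end PoolBe0380.M
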