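import Pool.Agent.Lib.MP_be0380_co.M.Basic

/-!
# be0380: the abstract machine, module A8, (1.4)
-/

namespace PoolBe0380.M

open Finset

section

variable {G : Type} [AddCommGroup G] [Fintype G] [DecidableEq G] {S : Sys G}

private theorem reach_self (P : Pair S) (i : ℕ) : P.Reach i P.x := Relation.ReflTransGen.refl

theorem exists_top (hB : 2 ≤ S.B) (P : Pair S) (i : ℕ) (hc : P.Conf i) : ∃ xs, P.IsTop i xs := by
  classical
  have hne : (univ.filter (fun p => P.Reach i p)).Nonempty :=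
    ⟨P.x, by simp [reach_self P i]⟩
  obtain ⟨xs, hxs, hmax⟩ := exists_max_image _ P.ψ hne
  rw [mem_filter] at hxs
  exact ⟨xs, hxs.2, fun p hp => hmax p (by simp [hp])⟩

/-- the top is in `X'`, and its good neighbours are strictly below it -/
private theorem top_step (hB : 2 ≤ S.B) (P : Pair S) (i : ℕ) (tw : P.Twins i) (hc : P.Conf i)
    (xs : G) (hxs : P.IsTop i xs) (q : G) (hq : q ∈ S.Xp i P.y) (hg : P.Good i xs (P.z xs q)) :
    P.ψ (xs - P.z xs q) < P.ψ xs := by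
  have hmem : xs ∈ S.Xp i P.x := by
    obtain ⟨h1, h2⟩ := hc xs hxs.1
    rw [Sys.mem_Xp]
    exact ⟨h1, Sys.dist_pow_mono hB i (by norm_num) h2⟩
  obtain ⟨hz0, hz1, _⟩ := tw xs hmem q hq
  have hadj : P.Adj i xs (xs - P.z xs q) := by
    left
    refine ⟨hmem, ?_, ?_⟩
    · rw [sub_sub_cancel]
      exact mem_image_of_mem _ hq
    · rw [sub_sub_cancel]
      exact hg
  have hle := hxs.2 _ (hxs.1.tail hadj)
  refine lt_of_le_of_ne hle ?_
  intro heq
  have h0 := P.inj (Sys.X_sub_X0 hB i P.hx hz1) (Sys.X_sub_X0 hB i P.hx (Sys.Xp_sub_X hB i P.hx hmem)) heq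
  apply hz0
  have := sub_eq_self.mp h0
  exact this

theorem not_both_rich (hB : 2 ≤ S.B) (P : Pair S) (i : ℕ) (tw : P.Twins i) (hc : P.Conf i)
    (hc' : P.swap.Conf i) (xs ys : G) (hxs : P.IsTop i xs) (hys : P.swap.IsTop i ys)
    (h1 : P.Heavy i 0 xs) (h2 : P.swap.Heavy i 0 ys) : False := by
  have tw' : P.swap.Twins i := by
    intro q hq p hp
    obtain ⟨h1, h2, h3⟩ := tw p hp q hq
    refine ⟨neg_ne_zero.mpr h1, ?_, ?_⟩
    · show q - (- P.z p q) ∈ _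
      rw [sub_neg_eq_add]; exact h3
    · show p + (- P.z p q) ∈ _
      rw [← sub_eq_add_neg]; exact h2
  have hmx : xs ∈ S.Xp i P.x := by
    obtain ⟨h1, h2⟩ := hc xs hxs.1
    rw [Sys.mem_Xp]
    exact ⟨h1, Sys.dist_pow_mono hB i (by norm_num) h2⟩
  have hmy : ys ∈ S.Xp i P.y := by
    obtain ⟨h1, h2⟩ := hc' ys hys.1
    rw [Sys.mem_Xp]
    exact ⟨h1, Sys.dist_pow_mono hB i (by norm_num) h2⟩
  have a1 := top_step hB P i tw hc xs hxs ys hmy ⟨0, Nat.zero_le _, h1⟩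
  have a2 := top_step hB P.swap i tw' hc' ys hys xs hmx ⟨0, Nat.zero_le _, h2⟩
  have a3 : P.swap.ψ (ys - P.swap.z ys xs) = P.ψ' (ys + P.z xs ys) := by
    show P.ψ' (ys - (- P.z xs ys)) = _
    rw [sub_neg_eq_add]
  have a4 : P.swap.ψ ys = P.ψ' ys := rfl
  rw [a3, a4] at a2
  obtain ⟨_, hz1, hz2⟩ := tw xs hmx ys hmy
  have a5 := P.add xs ys (P.z xs ys)
    (Sys.X_sub_X0 hB i P.hx (Sys.Xp_sub_X hB i P.hx hmx)) (Sys.X_sub_X0 hB i P.hx hz1)
    (Sys.X_sub_X0 hB i P.hy (Sys.Xp_sub_X hB i P.hy hmy)) (Sys.X_sub_X0 hB i P.hy hz2)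
  linarith

end

end PoolBe0380.M
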