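import Pool.Agent.Lib.MP_be0380_co.M.Basic

/-!
# be0380: fine twins (1.1)
-/

namespace PoolBe0380.M

open Finset

theorem twins_quarter {d t : ℝ} (hd : 0 ≤ d) (ht : 2 ≤ t) {m n : ℕ} (hmn : m + 2 ≤ n)
    (h : d * t ^ n ≤ 1) : d * t ^ m ≤ 1 / 4 := by
  have h1 : (4 : ℝ) ≤ t ^ (n - m) := by
    calc (4 : ℝ) = 2 ^ 2 := by norm_num
      _ ≤ t ^ 2 := pow_le_pow_left₀ (by norm_num) ht 2
      _ ≤ t ^ (n - m) := pow_le_pow_right₀ (by linarith) (by omega)
  have h2 : t ^ n = t ^ m * t ^ (n - m) := by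
    rw [← pow_add]
    congr 1
    omega
  have h3 : 0 ≤ d * t ^ m := by positivity
  have h4 : d * t ^ m * 4 ≤ d * t ^ m * t ^ (n - m) := mul_le_mul_of_nonneg_left h1 h3
  rw [h2, ← mul_assoc] at h
  linarith

variable {G : Type} [AddCommGroup G] [Fintype G] [DecidableEq G] {S : Sys G}

theorem twins (hB : 2 ≤ S.B) (P : Pair S) (i : ℕ) (hW : ∀ j < i, S.KW j P.x P.y) :
    P.Twins i := by
  intro p hp q hq
  rw [Sys.mem_Xp] at hp hq
  have hp0 : S.dist (p - P.x) * (S.B : ℝ) ^ 240 ≤ 1 :=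
    Sys.dist_level_mono hB (Nat.zero_le i) hp.2
  have hq0 : S.dist (q - P.y) * (S.B : ℝ) ^ 240 ≤ 1 :=
    Sys.dist_level_mono hB (Nat.zero_le i) hq.2
  obtain ⟨hz0, hpz, hqz⟩ := P.hz p hp.1 q hq.1 hp0 hq0
  refine ⟨hz0, ?_⟩
  have key : ∀ j ≤ i, p - P.z p q ∈ S.X j P.x ∧ q + P.z p q ∈ S.X j P.y := by
    intro j
    induction j with
    | zero =>
      intro _
      rw [Sys.X_zero, Sys.X_zero]
      exact ⟨hpz, hqz⟩
    | succ j ih =>
      intro hj
      obtain ⟨h1, h2⟩ := ih (by omega)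
      obtain ⟨F, hF1, hF2⟩ := hW j (by omega)
      have hqj : q ∈ S.X j P.y :=
        Sys.Xp_sub_X hB j P.hy (Sys.mem_Xp.mpr ⟨hq.1, Sys.dist_level_mono hB (by omega) hq.2⟩)
      have hN : S.N F (-P.z p q) ≤ (1 / 2 : ℝ) ^ S.b j := by
        rw [S.N_neg]
        have := hF2 (q + P.z p q) h2 q hqj
        rwa [add_sub_cancel_left] at this
      have hpj : S.dist (p - P.x) * ((S.be (j + 1) : ℕ) : ℝ) ^ 240 ≤ 1 :=
        Sys.dist_level_mono hB hj hp.2
      have hqj' : S.dist (q - P.y) * ((S.be (j + 1) : ℕ) : ℝ) ^ 240 ≤ 1 :=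
        Sys.dist_level_mono hB hj hq.2
      have hA1 : p - P.z p q ∈ S.A := Sys.X_sub_A hB j P.hx h1
      have hA2 : q + P.z p q ∈ S.A := Sys.X_sub_A hB j P.hy h2
      have hc := Sys.conf_fine hB j (F := F) (x := P.x) (g := p - P.x) (g' := -P.z p q) P.hx hF1
        (by
          have e : P.x + (p - P.x) + -P.z p q = p - P.z p q := by abel
          rw [e]
          exact hA1) hpj hN
      have e1 : p - P.x + -P.z p q = p - P.z p q - P.x := by abel
      rw [e1] at hc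
      have hbe2 := Sys.two_le_beR hB j
      have hbe2' := Sys.two_le_beR hB (j + 1)
      refine ⟨?_, ?_⟩
      · rw [Sys.mem_X_succ]
        refine ⟨hA1, ?_⟩
        rw [Sys.be_succR, ← pow_mul]
        exact Sys.dist_pow_mono hB j (by norm_num) hc
      · rw [Sys.mem_X_succ]
        refine ⟨hA2, ?_⟩
        have b1 : S.dist (q - P.y) * ((S.be (j + 1) : ℕ) : ℝ) ^ 40 ≤ 1 / 4 :=
          twins_quarter (S.dist_nonneg _) hbe2' (by norm_num) hqj'
        have b2 : S.dist (p - P.x) * ((S.be (j + 1) : ℕ) : ℝ) ^ 40 ≤ 1 / 4 :=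
          twins_quarter (S.dist_nonneg _) hbe2' (by norm_num) hpj
        have b3 : S.dist (p - P.z p q - P.x) * ((S.be (j + 1) : ℕ) : ℝ) ^ 40 ≤ 1 / 4 := by
          rw [Sys.be_succR, ← pow_mul]
          exact twins_quarter (S.dist_nonneg _) hbe2 (by norm_num) hc
        have e2 : q + P.z p q - P.y = (q - P.y) + ((p - P.x) - (p - P.z p q - P.x)) := by abel
        have b4 : S.dist (q + P.z p q - P.y) ≤
            S.dist (q - P.y) + (S.dist (p - P.x) + S.dist (p - P.z p q - P.x)) := by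
          rw [e2]
          exact (S.dist_add _ _).trans (add_le_add le_rfl (S.dist_sub _ _))
        have b5 : (0 : ℝ) ≤ ((S.be (j + 1) : ℕ) : ℝ) ^ 40 := by positivity
        have b6 := mul_le_mul_of_nonneg_right b4 b5
        linarith
  exact key i le_rfl

end PoolBe0380.M
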