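import Pool.Agent.Lib.MP_be0380_co.M.Good
import Pool.Agent.Lib.MP_be0380_co.M.Twins
import Pool.Agent.Lib.MP_be0380_co.M.Conf
import Pool.Agent.Lib.MP_be0380_co.M.Top
import Pool.Agent.Lib.MP_be0380_co.M.Strong
import Pool.Agent.Lib.MP_be0380_co.M.Mixed
import Pool.Agent.Lib.MP_be0380_co.M.Rich

/-!
# be0380: Theorem 1, there is no system
-/

namespace PoolBe0380.M

open Finset

section

variable {G : Type} [AddCommGroup G] [Fintype G] [DecidableEq G] {S : Sys G}

theorem swap_twins {P : Pair S} {i : ℕ} (tw : P.Twins i) : P.swap.Twins i := by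
  intro q hq p hp
  obtain ⟨h1, h2, h3⟩ := tw p hp q hq
  refine ⟨neg_ne_zero.mpr h1, ?_, ?_⟩
  · show q - (- P.z p q) ∈ _
    rw [sub_neg_eq_add]; exact h3
  · show p + (- P.z p q) ∈ _
    rw [← sub_eq_add_neg]; exact h2

theorem hasW_zero (hB : 2 ≤ S.B) {x : G} (hx : x ∈ S.G0) : S.HasW 0 x := by
  obtain ⟨F, h1, h2⟩ := S.base x hx
  refine ⟨F, ?_, ?_⟩
  · have hb : ((S.b 0 : ℕ) : ℝ) = (S.B : ℝ) ^ 2400 := by
      rw [Sys.b_eqR]; rfl
    have hpos : (0 : ℝ) < ((S.B : ℝ) ^ 2400) ^ 9 := by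
      have : (0 : ℝ) < (S.B : ℝ) := by exact_mod_cast (by omega : 0 < S.B)
      positivity
    unfold Sys.eta
    rw [hb, ← div_eq_inv_mul, le_div_iff₀ hpos]
    exact h1
  · intro c hc c' hc'
    rw [Sys.X_zero] at hc hc'
    exact h2 c hc c' hc'

/-- there is a level which is large against `h` -/
theorem exists_level (hB : 2 ≤ S.B) : ∃ i, S.h < ((S.b i : ℕ) : ℝ) ^ 1000 ∧
    S.h * (1 / 2 : ℝ) ^ (S.b i / 8) ≤ 1 := by
  have hbe : ∀ i, i + 2 ≤ S.be i := by
    intro i
    induction i with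
    | zero => exact hB
    | succ i ih =>
      have h2 := Sys.two_le_be (S := S) hB i
      have h3 : S.be (i + 1) = (S.be i) ^ 36 := M.be_succ S.B i
      rw [h3]
      calc i + 1 + 2 ≤ S.be i + 1 := by omega
        _ ≤ S.be i * S.be i := by nlinarith
        _ = (S.be i) ^ 2 := (sq _).symm
        _ ≤ (S.be i) ^ 36 := Nat.pow_le_pow_right (by omega) (by norm_num)
  obtain ⟨n, hn⟩ := exists_nat_gt S.h
  have hbn : n + 2 ≤ S.b n := by
    have := Sys.be_pow_le_b (S := S) hB n (n := 1) (by norm_num)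
    have := hbe n
    simp only [pow_one] at *
    omega
  have hb8 : 8 * n ≤ S.b n := by
    have h4 := Sys.be_pow_le_b (S := S) hB n (n := 4) (by norm_num)
    have h1 := hbe n
    have h2 := Sys.two_le_be (S := S) hB n
    calc 8 * n ≤ 2 ^ 3 * S.be n := by omega
      _ ≤ (S.be n) ^ 3 * S.be n := Nat.mul_le_mul_right _ (Nat.pow_le_pow_left h2 3)
      _ = (S.be n) ^ 4 := by ring
      _ ≤ S.b n := h4
  refine ⟨n, ?_, ?_⟩
  · have h1 : (1 : ℝ) ≤ ((S.b n : ℕ) : ℝ) := by exact_mod_cast (by omega : 1 ≤ S.b n)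
    calc S.h < n := hn
      _ ≤ ((S.b n : ℕ) : ℝ) := by exact_mod_cast (by omega : n ≤ S.b n)
      _ = ((S.b n : ℕ) : ℝ) ^ 1 := (pow_one _).symm
      _ ≤ ((S.b n : ℕ) : ℝ) ^ 1000 := pow_le_pow_right₀ h1 (by norm_num)
  · have h1 : n ≤ S.b n / 8 := by omega
    have h2 : (n : ℝ) ≤ 2 ^ n := by exact_mod_cast (Nat.lt_two_pow_self).le
    calc S.h * (1 / 2 : ℝ) ^ (S.b n / 8) ≤ 2 ^ n * (1 / 2 : ℝ) ^ n := by
          apply mul_le_mul (hn.le.trans h2)
            (pow_le_pow_of_le_one (by norm_num) (by norm_num) h1) (by positivity) (by positivity)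
      _ = 1 := by rw [← mul_pow]; norm_num

/-- THEOREM 1: there is no system. -/
theorem no_sys (S : Sys G) (hB : 2 ≤ S.B) : False := by
  obtain ⟨im, him1, him2⟩ := exists_level (S := S) hB
  obtain ⟨x, y, hxy, hgood⟩ := exists_good (S := S) hB im
  have hxG : x ∈ S.G0 := (mem_product.mp (S.Pr_sub hxy)).1
  have hyG : y ∈ S.G0 := (mem_product.mp (S.Pr_sub hxy)).2
  classical
  obtain ⟨ψ, ψ', hψ, hψ', hadd⟩ := S.lift x y hxy
  have htw := S.twin x y hxy
  let z : G → G → G := fun p q =>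
    if h : p ∈ S.A ∧ q ∈ S.A ∧ S.dist (p - x) * (S.B : ℝ) ^ 240 ≤ 1 ∧
      S.dist (q - y) * (S.B : ℝ) ^ 240 ≤ 1 then
      (htw p h.1 q h.2.1 h.2.2.1 h.2.2.2).choose else 0
  let P : Pair S :=
    { x := x
      y := y
      z := z
      ψ := ψ
      ψ' := ψ'
      hx := hxG
      hy := hyG
      hz := by
        intro p hp q hq h1 h2
        have h3 : z p q = (htw p hp q hq h1 h2).choose := dif_pos ⟨hp, hq, h1, h2⟩
        rw [h3]
        exact (htw p hp q hq h1 h2).choose_spec
      inj := hψ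
      inj' := hψ'
      add := hadd }
  have claim : ∀ i ≤ im, ∀ j ≤ i, S.HasW j x ∧ S.HasW j y := by
    intro i
    induction i with
    | zero =>
      intro _ j hj
      have : j = 0 := by omega
      subst this
      exact ⟨hasW_zero hB hxG, hasW_zero hB hyG⟩
    | succ i ih =>
      intro hi
      have ih' := ih (by omega)
      have tw : P.Twins i := twins hB P i (fun j hj =>
        ((hgood j (by omega)).1 (ih' j (by omega)).2).kw)
      have tw' : P.swap.Twins i := swap_twins tw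
      obtain ⟨g1, g2, g3, g4⟩ := hgood i (by omega)
      have cx : P.Conf i := conf hB P i tw (g1 (ih' i le_rfl).2)
      have cy : P.swap.Conf i := conf hB P.swap i tw' (g3 (ih' i le_rfl).1)
      obtain ⟨xs, hxs⟩ := exists_top hB P i cx
      obtain ⟨ys, hys⟩ := exists_top hB P.swap i cy
      obtain ⟨g1', g2', g3', g4'⟩ := hgood (i + 1) hi
      -- if x has (i+1,s) then y has (i+1,w)
      have m1 : S.HasS (i + 1) x → S.HasW (i + 1) y := by
        intro hs
        by_cases hr : P.Heavy i 0 xs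
        · exact mixed hB P i tw cx (g4' hs) xs hxs hr
        · exact (strong hB P i tw cx (g3 (ih' i le_rfl).1).kw xs hxs hr).hasW hB
      have m2 : S.HasS (i + 1) y → S.HasW (i + 1) x := by
        intro hs
        by_cases hr : P.swap.Heavy i 0 ys
        · exact mixed hB P.swap i tw' cy (g2' hs) ys hys hr
        · exact (strong hB P.swap i tw' cy (g1 (ih' i le_rfl).2).kw ys hys hr).hasW hB
      have main : S.HasW (i + 1) x ∧ S.HasW (i + 1) y := by
        by_cases hr : P.Heavy i 0 xs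
        · have hr' : ¬ P.swap.Heavy i 0 ys := fun h => not_both_rich hB P i tw cx cy xs ys hxs hys hr h
          have hs : S.HasS (i + 1) x := strong hB P.swap i tw' cy (g1 (ih' i le_rfl).2).kw ys hys hr'
          exact ⟨hs.hasW hB, m1 hs⟩
        · have hs : S.HasS (i + 1) y := strong hB P i tw cx (g3 (ih' i le_rfl).1).kw xs hxs hr
          exact ⟨m2 hs, hs.hasW hB⟩
      intro j hj
      rcases Nat.lt_or_ge j (i + 1) with h | h
      · exact ih' j (by omega)
      · have : j = i + 1 := by omega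
        subst this
        exact main
  have hW := claim im le_rfl
  have tw : P.Twins im := twins hB P im (fun j hj =>
        ((hgood j (by omega)).1 (hW j (by omega)).2).kw)
  have tw' : P.swap.Twins im := swap_twins tw
  obtain ⟨g1, g2, g3, g4⟩ := hgood im le_rfl
  have cx : P.Conf im := conf hB P im tw (g1 (hW im le_rfl).2)
  have cy : P.swap.Conf im := conf hB P.swap im tw' (g3 (hW im le_rfl).1)
  obtain ⟨xs, hxs⟩ := exists_top hB P im cx
  obtain ⟨ys, hys⟩ := exists_top hB P.swap im cy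
  have mem : ∀ (P : Pair S), P.Conf im → ∀ xs, P.IsTop im xs → xs ∈ S.Xp im P.x := by
    intro P hc xs hxs
    obtain ⟨h1, h2⟩ := hc xs hxs.1
    rw [Sys.mem_Xp]
    exact ⟨h1, Sys.dist_pow_mono hB im (by norm_num) h2⟩
  exact not_both_rich hB P im tw cx cy xs ys hxs hys
    (all_rich hB P im tw him1 him2 xs (mem P cx xs hxs))
    (all_rich hB P.swap im tw' him1 him2 ys (mem P.swap cy ys hys))

end

end PoolBe0380.M
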