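import Mathlib

/-!
# be0380: the abstract machine, definitions

`Sys G` collects the axioms (S1)-(S7) of `BE0380_M.md`.  Base of the exponents: a natural number `B`,
`be i = B ^ (36 ^ i)`, `b_i = be i ^ 2400`, `kap_i = b_i ^ (-4)`, `eta_i = b_i ^ (-9)`,
`rho_i = be i ^ (-240)`, `R_i = be i ^ (-40)`.
-/

namespace PoolBe0380.M

open Finset

/-- The axioms (S1)-(S7) of the machine. -/
structure Sys (G : Type) [AddCommGroup G] [Fintype G] [DecidableEq G] where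
  /-- base of the exponents: `b_0 = B ^ 2400` -/
  B : ℕ
  D : ℝ
  h : ℝ
  Ck : ℝ
  A : Finset G
  G0 : Finset G
  J : G → ℝ
  dist : G → ℝ
  /-- the knowledges -/
  K : Type
  cost : K → ℝ
  N : K → G → ℝ
  kap : K → G → ℝ
  join : K → K → K
  /-- the knowledge given by a list of pairs `(E_i, b_i)` -/
  lst : Finset (G × ℕ) → K
  X0 : G → Finset G
  /-- the typical pairs -/
  Pr : Finset (G × G)
  D_pos : 0 < D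
  h_pos : 0 < h
  Ck_nonneg : 0 ≤ Ck
  -- (S1)
  G0_sub : G0 ⊆ A
  J_nonneg : ∀ x ∈ G0, 0 ≤ J x
  m0_pos : 0 < ∑ x ∈ G0, J x
  -- (S2)
  dist_zero : dist 0 = 0
  dist_neg : ∀ g, dist (-g) = dist g
  dist_add : ∀ g g', dist (g + g') ≤ dist g + dist g'
  -- (S3)
  N_zero : ∀ F, N F 0 = 0
  N_neg : ∀ F g, N F (-g) = N F g
  N_add : ∀ F g g', N F (g + g') ≤ N F g + N F g'
  kap_nonneg : ∀ F, ∀ x ∈ G0, 0 ≤ kap F x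
  cost_join : ∀ F F', cost (join F F') ≤ cost F + cost F'
  N_join_left : ∀ F F' g, N (join F F') g ≤ N F g
  N_join_right : ∀ F F' g, N (join F F') g ≤ N F' g
  kap_join : ∀ F F', ∀ x ∈ G0, kap F x ≤ kap (join F F') x
  cost_lst : ∀ E : Finset (G × ℕ), cost (lst E) ≤ ∑ e ∈ E, ((e.2 : ℝ) + 2)
  N_lst : ∀ E : Finset (G × ℕ), ∀ e ∈ E, N (lst E) e.1 ≤ (1 / 2 : ℝ) ^ e.2
  -- (S4)
  budget : ∀ F, ∑ x ∈ G0, J x * kap F x ≤ Ck * (cost F / D) * ∑ x ∈ G0, J x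
  Ck_le : Ck ≤ (B : ℝ) ^ 2400
  h_le : h ≤ ((B : ℝ) ^ 2400) ^ 10 * D
  -- (S5), with `e = s ^ 40`
  conf : ∀ F, ∀ x ∈ G0, ∀ s : ℝ, 0 < s → s ^ 40 * (B : ℝ) ^ 240 ≤ 1 → kap F x ≤ s ^ 40 →
    ∀ g g', x + g + g' ∈ A → dist g ≤ s ^ 40 → N F g' ≤ Real.exp (-(s⁻¹) ^ 5) →
    dist (g + g') ≤ s ^ 8
  -- (S6)
  X0_sub : ∀ x ∈ G0, X0 x ⊆ A
  X0_card : ∀ x ∈ G0, ((X0 x).card : ℝ) ≤ h
  X0_mem : ∀ x ∈ G0, ∀ c ∈ A, dist (c - x) * (B : ℝ) ^ 240 ≤ 1 → c ∈ X0 x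
  base : ∀ x ∈ G0, ∃ F, cost F * ((B : ℝ) ^ 2400) ^ 9 ≤ D ∧
    ∀ c ∈ X0 x, ∀ c' ∈ X0 x, N F (c - c') ≤ (1 / 2 : ℝ) ^ (B ^ 2400)
  -- (S7)
  Pr_sub : Pr ⊆ G0 ×ˢ G0
  Pr_symm : ∀ x y, (x, y) ∈ Pr → (y, x) ∈ Pr
  Pr_weight : (9 / 10 : ℝ) * (∑ x ∈ G0, J x) ^ 2 ≤ ∑ e ∈ Pr, J e.1 * J e.2
  twin : ∀ x y, (x, y) ∈ Pr → ∀ p ∈ A, ∀ q ∈ A, dist (p - x) * (B : ℝ) ^ 240 ≤ 1 →
    dist (q - y) * (B : ℝ) ^ 240 ≤ 1 → ∃ z : G, z ≠ 0 ∧ p - z ∈ X0 x ∧ q + z ∈ X0 y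
  lift : ∀ x y, (x, y) ∈ Pr → ∃ ψ ψ' : G → ℝ, Set.InjOn ψ (X0 x) ∧ Set.InjOn ψ' (X0 y) ∧
    ∀ p q z, p ∈ X0 x → p - z ∈ X0 x → q ∈ X0 y → q + z ∈ X0 y →
      ψ p + ψ' q = ψ (p - z) + ψ' (q + z)

/-- `be B i = B ^ (36 ^ i)` -/
def be (B : ℕ) : ℕ → ℕ
  | 0 => B
  | (i + 1) => (be B i) ^ 36

namespace Sys

variable {G : Type} [AddCommGroup G] [Fintype G] [DecidableEq G] (S : Sys G)

/-- `β_i` -/
abbrev be (i : ℕ) : ℕ := M.be S.B i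

/-- `b_i = β_i ^ 2400` -/
def b (i : ℕ) : ℕ := (S.be i) ^ 2400

/-- `kap_i = b_i ^ (-4)` -/
noncomputable def kc (i : ℕ) : ℝ := (((S.b i : ℕ) : ℝ) ^ 4)⁻¹

/-- `eta_i = b_i ^ (-9)` -/
noncomputable def eta (i : ℕ) : ℝ := (((S.b i : ℕ) : ℝ) ^ 9)⁻¹

open Classical in
/-- `X_i(x)`: `X_0(x)` is given, `X_i(x) = {c ∈ A : dist (c - x) ≤ R_i}` for `i ≥ 1`. -/
noncomputable def X (i : ℕ) (x : G) : Finset G :=
  if i = 0 then S.X0 x else S.A.filter (fun c => S.dist (c - x) * ((S.be i : ℕ) : ℝ) ^ 40 ≤ 1)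

open Classical in
/-- `X'_i(x) = {c ∈ A : dist (c - x) ≤ rho_i}` -/
noncomputable def Xp (i : ℕ) (x : G) : Finset G :=
  S.A.filter (fun c => S.dist (c - x) * ((S.be i : ℕ) : ℝ) ^ 240 ≤ 1)

open Classical in
/-- `X_{i+1}(x) = {c ∈ A : dist (c - x) ≤ R_{i+1}}`, `R_{i+1} = β_i ^ (-1440)` -/
noncomputable def Xn (i : ℕ) (x : G) : Finset G :=
  S.A.filter (fun c => S.dist (c - x) * ((S.be i : ℕ) : ℝ) ^ 1440 ≤ 1)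

/-- `x` has `(i,w)` -/
def HasW (i : ℕ) (x : G) : Prop :=
  ∃ F, S.cost F ≤ S.eta i * S.D ∧ ∀ c ∈ S.X i x, ∀ c' ∈ S.X i x, S.N F (c - c') ≤ (1 / 2 : ℝ) ^ S.b i

/-- `x` has `(i,s)` -/
def HasS (i : ℕ) (x : G) : Prop :=
  ∃ F, S.cost F ≤ S.eta i * S.D / 2 ∧
    ∀ c ∈ S.X i x, ∀ c' ∈ S.X i x, S.N F (c - c') ≤ (1 / 2 : ℝ) ^ (2 * S.b i)

open Classical in
/-- `r(z) = #{q ∈ X_i(y) : q + z ∈ X_i(y)}` -/
noncomputable def r (i : ℕ) (y z : G) : ℕ := ((S.X i y).filter (fun q => q + z ∈ S.X i y)).card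

/-- `x` is confined by a knowledge about `y`, which covers any given short list of differences -/
def KCov (i : ℕ) (x y : G) : Prop :=
  ∀ Z : Finset (ℕ × G), (∀ e ∈ Z, 1 ≤ e.1) →
    (∑ e ∈ Z, Real.exp (-((S.r i y e.2 : ℕ) : ℝ) / (((S.b i : ℕ) : ℝ) ^ 100 * 2 ^ e.1) ^ 2)) ≤ 1 / 2 →
    ∃ F, S.kap F x ≤ S.kc i ∧
      (∀ c ∈ S.X i y, ∀ c' ∈ S.X i y, S.N F (c - c') ≤ (1 / 2 : ℝ) ^ S.b i) ∧
      ∀ e ∈ Z, S.N F e.2 ≤ (1 / 2 : ℝ) ^ (S.b i + 6 * e.1)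

/-- `x` is confined by the weak knowledge of `y` -/
def KW (i : ℕ) (x y : G) : Prop :=
  ∃ F, S.kap F x ≤ S.kc i ∧ ∀ c ∈ S.X i y, ∀ c' ∈ S.X i y, S.N F (c - c') ≤ (1 / 2 : ℝ) ^ S.b i

/-- `x` is confined by the strong knowledge of `y` -/
def KS (i : ℕ) (x y : G) : Prop :=
  ∃ F, S.kap F x ≤ S.kc i ∧ S.cost F ≤ S.eta i * S.D / 2 ∧
    ∀ c ∈ S.X i y, ∀ c' ∈ S.X i y, S.N F (c - c') ≤ (1 / 2 : ℝ) ^ (2 * S.b i)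

end Sys

/-- the data of a typical pair -/
structure Pair {G : Type} [AddCommGroup G] [Fintype G] [DecidableEq G] (S : Sys G) where
  x : G
  y : G
  z : G → G → G
  ψ : G → ℝ
  ψ' : G → ℝ
  hx : x ∈ S.G0
  hy : y ∈ S.G0
  hz : ∀ p ∈ S.A, ∀ q ∈ S.A, S.dist (p - x) * (S.B : ℝ) ^ 240 ≤ 1 →
    S.dist (q - y) * (S.B : ℝ) ^ 240 ≤ 1 → z p q ≠ 0 ∧ p - z p q ∈ S.X0 x ∧ q + z p q ∈ S.X0 y
  inj : Set.InjOn ψ (S.X0 x)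
  inj' : Set.InjOn ψ' (S.X0 y)
  add : ∀ p q w, p ∈ S.X0 x → p - w ∈ S.X0 x → q ∈ S.X0 y → q + w ∈ S.X0 y →
      ψ p + ψ' q = ψ (p - w) + ψ' (q + w)

namespace Pair

variable {G : Type} [AddCommGroup G] [Fintype G] [DecidableEq G] {S : Sys G} (P : Pair S)

/-- the pair with the two points exchanged -/
def swap : Pair S where
  x := P.y
  y := P.x
  z := fun q p => - P.z p q
  ψ := P.ψ'
  ψ' := P.ψ
  hx := P.hy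
  hy := P.hx
  hz := by
    intro q hq p hp h1 h2
    obtain ⟨h3, h4, h5⟩ := P.hz p hp q hq h2 h1
    exact ⟨neg_ne_zero.mpr h3, by rw [sub_neg_eq_add]; exact h5, by rw [← sub_eq_add_neg]; exact h4⟩
  inj := P.inj'
  inj' := P.inj
  add := by
    intro q p w h1 h2 h3 h4
    have := P.add p q (-w) h3 (by rw [sub_neg_eq_add]; exact h4) h1 (by rw [← sub_eq_add_neg]; exact h2)
    rw [sub_neg_eq_add, ← sub_eq_add_neg] at this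
    linarith

/-- (1.1) FINE TWINS at level `i` -/
def Twins (i : ℕ) : Prop :=
  ∀ p ∈ S.Xp i P.x, ∀ q ∈ S.Xp i P.y, P.z p q ≠ 0 ∧ p - P.z p q ∈ S.X i P.x ∧ q + P.z p q ∈ S.X i P.y

/-- `Z_p` -/
noncomputable def Zs (i : ℕ) (p : G) : Finset G := (S.Xp i P.y).image (P.z p)

/-- the class of a difference `z`: `0` if `r(z) < b^1000`, and `ℓ ≥ 1` if
`b^1000 16^(ℓ-1) ≤ r(z) < b^1000 16^ℓ` -/
noncomputable def cl (i : ℕ) (z : G) : ℕ :=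
  if S.r i P.y z < S.b i ^ 1000 then 0 else Nat.log 16 (S.r i P.y z / S.b i ^ 1000) + 1

/-- `p` is heavy in class `ℓ` -/
def Heavy (i : ℕ) (ℓ : ℕ) (p : G) : Prop :=
  S.h * (1 / 2 : ℝ) ^ (S.b i / 8 + 5 * ℓ) ≤ (((P.Zs i p).filter (fun z => P.cl i z = ℓ)).card : ℝ)

/-- `z` is good at `p` -/
def Good (i : ℕ) (p z : G) : Prop := ∃ ℓ ≤ P.cl i z, P.Heavy i ℓ p

/-- the edges of the graph of (1.3) -/
def Adj (i : ℕ) (u v : G) : Prop :=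
  (u ∈ S.Xp i P.x ∧ u - v ∈ P.Zs i u ∧ P.Good i u (u - v)) ∨
  (v ∈ S.Xp i P.x ∧ v - u ∈ P.Zs i v ∧ P.Good i v (v - u))

/-- the component of `x` -/
def Reach (i : ℕ) (p : G) : Prop := Relation.ReflTransGen (P.Adj i) P.x p

/-- conclusion of (1.3): the component is confined -/
def Conf (i : ℕ) : Prop := ∀ p, P.Reach i p → p ∈ S.A ∧ S.dist (p - P.x) * ((S.be i : ℕ) : ℝ) ^ 1920 ≤ 1

/-- `xs` maximises `ψ` on the component of `x` -/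
def IsTop (i : ℕ) (xs : G) : Prop := P.Reach i xs ∧ ∀ p, P.Reach i p → P.ψ p ≤ P.ψ xs

end Pair

end PoolBe0380.M
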