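import Pool.Agent.Lib.MP_be0380_co.M.Defs

/-!
# be0380: the abstract machine, first consequences of the axioms
-/

namespace PoolBe0380.M

open Finset

theorem be_two_le {B : ℕ} (hB : 2 ≤ B) (i : ℕ) : 2 ≤ be B i := by
  induction i with
  | zero => exact hB
  | succ i ih =>
    show 2 ≤ (be B i) ^ 36
    calc 2 ≤ be B i := ih
      _ = (be B i) ^ 1 := (pow_one _).symm
      _ ≤ (be B i) ^ 36 := Nat.pow_le_pow_right (by omega) (by norm_num)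

theorem be_succ (B i : ℕ) : be B (i + 1) = (be B i) ^ 36 := rfl

theorem be_le_succ {B : ℕ} (hB : 2 ≤ B) (i : ℕ) : be B i ≤ be B (i + 1) := by
  rw [be_succ]
  calc be B i = (be B i) ^ 1 := (pow_one _).symm
      _ ≤ (be B i) ^ 36 := Nat.pow_le_pow_right (by have := be_two_le hB i; omega) (by norm_num)

theorem be_mono {B : ℕ} (hB : 2 ≤ B) {i j : ℕ} (h : i ≤ j) : be B i ≤ be B j := by
  induction h with
  | refl => exact le_rfl
  | step _ ih => exact ih.trans (be_le_succ hB _)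

theorem le_be {B : ℕ} (hB : 2 ≤ B) (i : ℕ) : B ≤ be B i := be_mono hB (Nat.zero_le i)

namespace Sys

variable {G : Type} [AddCommGroup G] [Fintype G] [DecidableEq G] (S : Sys G)

theorem dist_nonneg (g : G) : 0 ≤ S.dist g := by
  have h1 := S.dist_add g (-g)
  rw [add_neg_cancel, S.dist_zero, S.dist_neg] at h1
  linarith

theorem N_nonneg (F : S.K) (g : G) : 0 ≤ S.N F g := by
  have h1 := S.N_add F g (-g)
  rw [add_neg_cancel, S.N_zero, S.N_neg] at h1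
  linarith

theorem N_sub (F : S.K) (g g' : G) : S.N F (g - g') ≤ S.N F g + S.N F g' := by
  rw [sub_eq_add_neg]
  calc S.N F (g + -g') ≤ S.N F g + S.N F (-g') := S.N_add F g (-g')
    _ = _ := by rw [S.N_neg]

theorem N_sum {ι : Type*} (F : S.K) (s : Finset ι) (f : ι → G) :
    S.N F (∑ i ∈ s, f i) ≤ ∑ i ∈ s, S.N F (f i) := by
  classical
  induction s using Finset.induction_on with
  | empty => simp [S.N_zero]
  | insert a s ha ih =>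
    rw [sum_insert ha, sum_insert ha]
    calc S.N F (f a + ∑ i ∈ s, f i) ≤ S.N F (f a) + S.N F (∑ i ∈ s, f i) := S.N_add F _ _
      _ ≤ _ := by linarith

theorem dist_sub (g g' : G) : S.dist (g - g') ≤ S.dist g + S.dist g' := by
  rw [sub_eq_add_neg]
  calc S.dist (g + -g') ≤ S.dist g + S.dist (-g') := S.dist_add g (-g')
    _ = _ := by rw [S.dist_neg]

variable {S}

theorem two_le_be (hB : 2 ≤ S.B) (i : ℕ) : 2 ≤ S.be i := be_two_le hB i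

theorem one_le_beR (hB : 2 ≤ S.B) (i : ℕ) : (1 : ℝ) ≤ ((S.be i : ℕ) : ℝ) := by
  have := two_le_be hB i
  exact_mod_cast (by omega : 1 ≤ S.be i)

theorem two_le_beR (hB : 2 ≤ S.B) (i : ℕ) : (2 : ℝ) ≤ ((S.be i : ℕ) : ℝ) := by
  exact_mod_cast two_le_be hB i

theorem B_le_be (hB : 2 ≤ S.B) (i : ℕ) : (S.B : ℝ) ≤ ((S.be i : ℕ) : ℝ) := by
  exact_mod_cast le_be hB i

theorem be_succR (i : ℕ) : ((S.be (i + 1) : ℕ) : ℝ) = ((S.be i : ℕ) : ℝ) ^ 36 := by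
  have h : S.be (i + 1) = (S.be i) ^ 36 := M.be_succ S.B i
  rw [h, Nat.cast_pow]

theorem b_eqR (i : ℕ) : ((S.b i : ℕ) : ℝ) = ((S.be i : ℕ) : ℝ) ^ 2400 := by
  unfold b
  rw [Nat.cast_pow]

theorem b_succ (i : ℕ) : S.b (i + 1) = (S.b i) ^ 36 := by
  have h : S.be (i + 1) = (S.be i) ^ 36 := M.be_succ S.B i
  unfold b
  rw [h, ← pow_mul, ← pow_mul]

/-- `β_i ^ n ≤ b_i` for `n ≤ 2400` -/
theorem be_pow_le_b (hB : 2 ≤ S.B) (i : ℕ) {n : ℕ} (hn : n ≤ 2400) : (S.be i) ^ n ≤ S.b i := by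
  unfold b
  exact Nat.pow_le_pow_right (by have := two_le_be hB i; omega) hn

/-- `2 ^ n ≤ b_i` for `n ≤ 2400` -/
theorem two_pow_le_b (hB : 2 ≤ S.B) (i : ℕ) {n : ℕ} (hn : n ≤ 2400) : 2 ^ n ≤ S.b i :=
  (Nat.pow_le_pow_left (two_le_be hB i) n).trans (be_pow_le_b hB i hn)

theorem b_pos (hB : 2 ≤ S.B) (i : ℕ) : 0 < S.b i :=
  lt_of_lt_of_le (by norm_num) (two_pow_le_b hB i (n := 1) (by norm_num))

theorem mem_Xp {i : ℕ} {x c : G} :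
    c ∈ S.Xp i x ↔ c ∈ S.A ∧ S.dist (c - x) * ((S.be i : ℕ) : ℝ) ^ 240 ≤ 1 := by
  classical
  unfold Xp
  rw [mem_filter]

theorem mem_Xn {i : ℕ} {x c : G} :
    c ∈ S.Xn i x ↔ c ∈ S.A ∧ S.dist (c - x) * ((S.be i : ℕ) : ℝ) ^ 1440 ≤ 1 := by
  classical
  unfold Xn
  rw [mem_filter]

theorem X_zero (x : G) : S.X 0 x = S.X0 x := by
  unfold X; rw [if_pos rfl]

theorem mem_X_succ {i : ℕ} {x c : G} :
    c ∈ S.X (i + 1) x ↔ c ∈ S.A ∧ S.dist (c - x) * ((S.be (i + 1) : ℕ) : ℝ) ^ 40 ≤ 1 := by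
  classical
  unfold X
  rw [if_neg (Nat.succ_ne_zero i), mem_filter]

theorem X_succ (i : ℕ) (x : G) : S.X (i + 1) x = S.Xn i x := by
  ext c
  rw [mem_X_succ, mem_Xn, be_succR, ← pow_mul]

/-- monotonicity in the exponent of the radius -/
theorem dist_pow_mono (hB : 2 ≤ S.B) (i : ℕ) {g : G} {m n : ℕ} (hmn : m ≤ n)
    (h : S.dist g * ((S.be i : ℕ) : ℝ) ^ n ≤ 1) : S.dist g * ((S.be i : ℕ) : ℝ) ^ m ≤ 1 :=
  (mul_le_mul_of_nonneg_left (pow_le_pow_right₀ (one_le_beR hB i) hmn) (S.dist_nonneg g)).trans h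

/-- monotonicity in the level -/
theorem dist_level_mono (hB : 2 ≤ S.B) {i j : ℕ} (hij : i ≤ j) {g : G} {n : ℕ}
    (h : S.dist g * ((S.be j : ℕ) : ℝ) ^ n ≤ 1) : S.dist g * ((S.be i : ℕ) : ℝ) ^ n ≤ 1 := by
  have h1 : ((S.be i : ℕ) : ℝ) ≤ ((S.be j : ℕ) : ℝ) := by exact_mod_cast be_mono hB hij
  refine (mul_le_mul_of_nonneg_left (pow_le_pow_left₀ (Nat.cast_nonneg _) h1 n) (S.dist_nonneg g)).trans h

theorem Xn_sub_Xp (hB : 2 ≤ S.B) (i : ℕ) (x : G) : S.Xn i x ⊆ S.Xp i x := by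
  intro c hc
  rw [mem_Xn] at hc
  rw [mem_Xp]
  exact ⟨hc.1, dist_pow_mono hB i (by norm_num) hc.2⟩

theorem Xp_sub_A (i : ℕ) (x : G) : S.Xp i x ⊆ S.A := fun _ hc => (mem_Xp.mp hc).1

theorem X_sub_X0 (hB : 2 ≤ S.B) (i : ℕ) {x : G} (hx : x ∈ S.G0) : S.X i x ⊆ S.X0 x := by
  cases i with
  | zero => rw [X_zero]
  | succ i =>
    intro c hc
    rw [X_succ] at hc
    obtain ⟨hcA, hd⟩ := mem_Xp.mp (Xn_sub_Xp hB i x hc)
    exact S.X0_mem x hx c hcA (dist_level_mono hB (Nat.zero_le i) hd)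

theorem X_sub_A (hB : 2 ≤ S.B) (i : ℕ) {x : G} (hx : x ∈ S.G0) : S.X i x ⊆ S.A :=
  (X_sub_X0 hB i hx).trans (S.X0_sub x hx)

theorem Xp_sub_X (hB : 2 ≤ S.B) (i : ℕ) {x : G} (hx : x ∈ S.G0) : S.Xp i x ⊆ S.X i x := by
  cases i with
  | zero =>
    rw [X_zero]
    intro c hc
    obtain ⟨hcA, hd⟩ := mem_Xp.mp hc
    exact S.X0_mem x hx c hcA hd
  | succ i =>
    intro c hc
    obtain ⟨hcA, hd⟩ := mem_Xp.mp hc
    rw [mem_X_succ]
    exact ⟨hcA, dist_pow_mono hB (i + 1) (by norm_num) hd⟩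

theorem card_X_le (hB : 2 ≤ S.B) (i : ℕ) {x : G} (hx : x ∈ S.G0) :
    ((S.X i x).card : ℝ) ≤ S.h :=
  le_trans (by exact_mod_cast card_le_card (X_sub_X0 hB i hx)) (S.X0_card x hx)

theorem self_mem_Xn (i : ℕ) {x : G} (hx : x ∈ S.G0) : x ∈ S.Xn i x := by
  rw [mem_Xn, sub_self, S.dist_zero, zero_mul]
  exact ⟨S.G0_sub hx, zero_le_one⟩

theorem self_mem_Xp (i : ℕ) {x : G} (hx : x ∈ S.G0) : x ∈ S.Xp i x := by
  rw [mem_Xp, sub_self, S.dist_zero, zero_mul]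
  exact ⟨S.G0_sub hx, zero_le_one⟩

theorem eta_pos (hB : 2 ≤ S.B) (i : ℕ) : 0 < S.eta i := by
  have : (0 : ℝ) < ((S.b i : ℕ) : ℝ) := by exact_mod_cast b_pos hB i
  unfold eta
  positivity

theorem HasS.hasW (hB : 2 ≤ S.B) {i : ℕ} {x : G} (h : S.HasS i x) : S.HasW i x := by
  obtain ⟨F, h1, h2⟩ := h
  refine ⟨F, ?_, ?_⟩
  · have := mul_pos (eta_pos hB i) S.D_pos
    linarith
  · intro c hc c' hc'
    refine (h2 c hc c' hc').trans (pow_le_pow_of_le_one (by norm_num) (by norm_num) (by omega))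

theorem KCov.kw {i : ℕ} {x y : G} (h : S.KCov i x y) : S.KW i x y := by
  obtain ⟨F, h1, h2, _⟩ := h ∅ (by simp) (by simp)
  exact ⟨F, h1, h2⟩

theorem r_le (i : ℕ) (y z : G) : S.r i y z ≤ (S.X i y).card := by
  classical
  unfold r
  exact card_filter_le _ _

/-- `exp (-a) ≥ (1/2)^n` as soon as `a ≤ n/2` -/
theorem half_pow_le_exp {n : ℕ} {a : ℝ} (h : 2 * a ≤ n) : (1 / 2 : ℝ) ^ n ≤ Real.exp (-a) := by
  have h1 : (1 / 2 : ℝ) ≤ Real.exp (-(1 / 2 : ℝ)) := by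
    have := Real.add_one_le_exp (-(1 / 2 : ℝ))
    linarith
  calc (1 / 2 : ℝ) ^ n ≤ (Real.exp (-(1 / 2 : ℝ))) ^ n := pow_le_pow_left₀ (by norm_num) h1 n
    _ = Real.exp (-(n / 2 : ℝ)) := by rw [← Real.exp_nat_mul]; congr 1; ring
    _ ≤ Real.exp (-a) := Real.exp_le_exp.mpr (by linarith)

/-- The confinement axiom with `s = β_i^(-n)`. -/
theorem conf_pow (hB : 2 ≤ S.B) (i n m : ℕ) (h240 : 6 ≤ n)
    {F : S.K} {x g g' : G} (hx : x ∈ S.G0)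
    (hk : S.kap F x * ((S.be i : ℕ) : ℝ) ^ (40 * n) ≤ 1) (hA : x + g + g' ∈ S.A)
    (hg : S.dist g * ((S.be i : ℕ) : ℝ) ^ (40 * n) ≤ 1)
    (hN : S.N F g' ≤ (1 / 2 : ℝ) ^ m) (hm : 2 * S.be i ^ (5 * n) ≤ m) :
    S.dist (g + g') * ((S.be i : ℕ) : ℝ) ^ (8 * n) ≤ 1 := by
  have hb1 := one_le_beR hB i
  have hBb := B_le_be hB i
  have hb0 : (0 : ℝ) < ((S.be i : ℕ) : ℝ) := by linarith
  have hmR : 2 * ((S.be i : ℕ) : ℝ) ^ (5 * n) ≤ (m : ℝ) := by exact_mod_cast hm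
  set t : ℝ := ((S.be i : ℕ) : ℝ) with ht
  have e40 : ((t ^ n)⁻¹) ^ 40 = (t ^ (40 * n))⁻¹ := by
    rw [inv_pow, ← pow_mul, mul_comm n 40]
  have e8 : ((t ^ n)⁻¹) ^ 8 = (t ^ (8 * n))⁻¹ := by
    rw [inv_pow, ← pow_mul, mul_comm n 8]
  have key := S.conf F x hx ((t ^ n)⁻¹) (by positivity) (by
      rw [e40, inv_mul_le_iff₀ (by positivity), mul_one]
      calc (S.B : ℝ) ^ 240 ≤ t ^ 240 := pow_le_pow_left₀ (Nat.cast_nonneg _) hBb 240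
        _ ≤ t ^ (40 * n) := pow_le_pow_right₀ hb1 (by omega)) (by
      rw [e40, ← one_div, le_div_iff₀ (by positivity)]; exact hk) g g' hA (by
      rw [e40, ← one_div, le_div_iff₀ (by positivity)]; exact hg) (by
      refine hN.trans (half_pow_le_exp ?_)
      rw [inv_inv, ← pow_mul, mul_comm n 5]
      exact hmR)
  rw [e8, ← one_div, le_div_iff₀ (by positivity)] at key
  exact key

theorem kc_le (hB : 2 ≤ S.B) (i : ℕ) {n : ℕ} (hn : n ≤ 9600) {k : ℝ} (hk0 : 0 ≤ k) (hk : k ≤ S.kc i) :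
    k * ((S.be i : ℕ) : ℝ) ^ n ≤ 1 := by
  have hb1 := one_le_beR hB i
  have hb0 : (0 : ℝ) < ((S.be i : ℕ) : ℝ) := by linarith
  have h1 : S.kc i = (((S.be i : ℕ) : ℝ) ^ 9600)⁻¹ := by
    unfold kc
    rw [b_eqR, ← pow_mul]
  rw [h1, ← one_div, le_div_iff₀ (by positivity)] at hk
  exact (mul_le_mul_of_nonneg_left (pow_le_pow_right₀ hb1 hn) hk0).trans hk

/-- (S5) with `g = 0`, `e = kap_i` -/
theorem conf_kc (hB : 2 ≤ S.B) (i : ℕ) {F : S.K} {x g : G} (hx : x ∈ S.G0)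
    (hk : S.kap F x ≤ S.kc i) (hA : x + g ∈ S.A) {m : ℕ} (hN : S.N F g ≤ (1 / 2 : ℝ) ^ m)
    (hm : 2 * S.be i ^ 1200 ≤ m) :
    S.dist g * ((S.be i : ℕ) : ℝ) ^ 1920 ≤ 1 := by
  have := conf_pow hB i 240 m (by norm_num) (F := F) (x := x) (g := 0) (g' := g) hx
    (kc_le hB i (by norm_num) (S.kap_nonneg F x hx) hk) (by rwa [add_zero])
    (by rw [S.dist_zero, zero_mul]; exact zero_le_one) hN (by simpa using hm)
  rw [zero_add] at this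
  exact this

/-- (S5) with `e = R_{i+1}`: the result is at distance at most `rho_i` -/
theorem conf_R (hB : 2 ≤ S.B) (i : ℕ) {F : S.K} {x g g' : G} (hx : x ∈ S.G0)
    (hk : S.kap F x ≤ S.kc i) (hA : x + g + g' ∈ S.A)
    (hg : S.dist g * ((S.be i : ℕ) : ℝ) ^ 1440 ≤ 1) {m : ℕ} (hN : S.N F g' ≤ (1 / 2 : ℝ) ^ m)
    (hm : 2 * S.be i ^ 180 ≤ m) :
    S.dist (g + g') * ((S.be i : ℕ) : ℝ) ^ 240 ≤ 1 :=
  dist_pow_mono hB i (by norm_num) (conf_pow hB i 36 m (by norm_num) (F := F) hx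
    (kc_le hB i (by norm_num) (S.kap_nonneg F x hx) hk) hA hg hN hm)

/-- (S5) with `e = rho_{i+1}`, knowledge of level `i` -/
theorem conf_fine (hB : 2 ≤ S.B) (i : ℕ) {F : S.K} {x g g' : G} (hx : x ∈ S.G0)
    (hk : S.kap F x ≤ S.kc i) (hA : x + g + g' ∈ S.A)
    (hg : S.dist g * ((S.be (i + 1) : ℕ) : ℝ) ^ 240 ≤ 1) (hN : S.N F g' ≤ (1 / 2 : ℝ) ^ S.b i) :
    S.dist (g + g') * ((S.be i : ℕ) : ℝ) ^ 1728 ≤ 1 := by
  refine conf_pow hB i 216 (S.b i) (by norm_num) (F := F) hx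
    (kc_le hB i (by norm_num) (S.kap_nonneg F x hx) hk) hA ?_ hN ?_
  · rw [be_succR, ← pow_mul] at hg
    exact hg
  · have h2 := two_le_be hB i
    calc 2 * S.be i ^ (5 * 216) ≤ S.be i * S.be i ^ (5 * 216) := Nat.mul_le_mul_right _ h2
      _ = S.be i ^ (5 * 216 + 1) := (pow_succ' _ _).symm
      _ ≤ S.b i := be_pow_le_b hB i (by norm_num)

end Sys

end PoolBe0380.M
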