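import Pool.Agent.Lib.MP_be0380_co.M.Level

/-!
# be0380: the abstract machine, module A5: the good pair
-/

namespace PoolBe0380.M

open Finset

variable {G : Type} [AddCommGroup G] [Fintype G] [DecidableEq G] {S : Sys G}

private theorem good_two_pow_le_be (hB : 2 ≤ S.B) (i : ℕ) : 2 ^ (i + 1) ≤ S.be i := by
  induction i with
  | zero => simpa [Sys.be, M.be] using hB
  | succ i ih =>
    have h3 : S.be (i + 1) = (S.be i) ^ 36 := M.be_succ S.B i
    have h2 := Sys.two_le_be (S := S) hB i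
    rw [h3]
    calc 2 ^ (i + 1 + 1) = 2 ^ (i + 1) * 2 := pow_succ _ _
      _ ≤ S.be i * S.be i := Nat.mul_le_mul ih h2
      _ = (S.be i) ^ 2 := (sq _).symm
      _ ≤ (S.be i) ^ 36 := Nat.pow_le_pow_right (by omega) (by norm_num)

/-- `Ck / b_i ^ 5` is small -/
private theorem good_term (hB : 2 ≤ S.B) (i : ℕ) :
    S.Ck * (((S.b i : ℕ) : ℝ) ^ 5)⁻¹ ≤ (1 / 2 : ℝ) ^ (i + 10) := by
  have hbpos : (0 : ℝ) < ((S.b i : ℕ) : ℝ) := by exact_mod_cast Sys.b_pos hB i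
  have hBnn : (0 : ℝ) ≤ (S.B : ℝ) := Nat.cast_nonneg _
  have h1 : S.Ck ≤ ((S.b i : ℕ) : ℝ) := by
    refine S.Ck_le.trans ?_
    rw [Sys.b_eqR]
    exact pow_le_pow_left₀ hBnn (Sys.B_le_be hB i) 2400
  have h2 : (2 : ℝ) ^ (i + 10) ≤ ((S.b i : ℕ) : ℝ) := by
    have h3 : (2 : ℝ) ^ (i + 1) ≤ ((S.be i : ℕ) : ℝ) := by
      exact_mod_cast good_two_pow_le_be (S := S) hB i
    have h4 : ((S.be i : ℕ) : ℝ) ^ 10 ≤ ((S.b i : ℕ) : ℝ) := by
      exact_mod_cast Sys.be_pow_le_b (S := S) hB i (n := 10) (by norm_num)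
    calc (2 : ℝ) ^ (i + 10) ≤ 2 ^ ((i + 1) * 10) :=
          pow_le_pow_right₀ (by norm_num) (by omega)
      _ = (2 ^ (i + 1)) ^ 10 := pow_mul _ _ _
      _ ≤ ((S.be i : ℕ) : ℝ) ^ 10 := pow_le_pow_left₀ (by positivity) h3 10
      _ ≤ _ := h4
  have hb1 : (1 : ℝ) ≤ ((S.b i : ℕ) : ℝ) := le_trans (one_le_pow₀ (by norm_num)) h2
  have h5 : S.Ck * (((S.b i : ℕ) : ℝ) ^ 5)⁻¹ ≤ (((S.b i : ℕ) : ℝ))⁻¹ := by
    rw [← div_eq_mul_inv, div_le_iff₀ (by positivity)]
    calc S.Ck ≤ ((S.b i : ℕ) : ℝ) := h1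
      _ = ((S.b i : ℕ) : ℝ) ^ 1 := (pow_one _).symm
      _ ≤ ((S.b i : ℕ) : ℝ) ^ 4 := pow_le_pow_right₀ hb1 (by norm_num)
      _ = (((S.b i : ℕ) : ℝ))⁻¹ * ((S.b i : ℕ) : ℝ) ^ 5 := by
          field_simp
  refine h5.trans ?_
  rw [one_div, inv_pow]
  exact inv_anti₀ (by positivity) h2

private theorem good_geom (n : ℕ) : ∑ i ∈ range n, (1 / 2 : ℝ) ^ (i + 10) ≤ 1 / 512 := by
  have h : ∀ n : ℕ, ∑ i ∈ range n, (1 / 2 : ℝ) ^ (i + 10) = 1 / 512 - (1 / 2 : ℝ) ^ (n + 9) := by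
    intro n
    induction n with
    | zero => norm_num
    | succ n ih =>
      have e1 : (1 / 2 : ℝ) ^ (n + 10) = (1 / 2 : ℝ) ^ (n + 9) * (1 / 2) := pow_succ _ _
      rw [sum_range_succ, ih, e1]
      ring
  rw [h]
  have : (0 : ℝ) < (1 / 2 : ℝ) ^ (n + 9) := by positivity
  linarith

/-- `x` is not confined by the knowledge about `y` at level `i` -/
def goodViol (S : Sys G) (i : ℕ) (y x : G) : Prop :=
  ¬ ((S.HasW i y → S.KCov i x y) ∧ (S.HasS i y → S.KS i x y))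

open Classical in
/-- the weight of the pairs violating the level `i` in one order -/
private theorem good_pair_weight (hB : 2 ≤ S.B) (i : ℕ) :
    ∑ y ∈ S.G0, ∑ x ∈ S.G0, (if goodViol S i y x then S.J x * S.J y else 0) ≤
      9 * (1 / 2 : ℝ) ^ (i + 10) * (∑ x ∈ S.G0, S.J x) ^ 2 := by
  have m0 := S.m0_pos
  have h1 : ∀ y ∈ S.G0, ∑ x ∈ S.G0, (if goodViol S i y x then S.J x * S.J y else 0) ≤
      S.J y * (9 * (1 / 2 : ℝ) ^ (i + 10) * ∑ x ∈ S.G0, S.J x) := by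
    intro y hy
    have h2 := level_weight hB i y hy
    have h3 : ∑ x ∈ S.G0, (if goodViol S i y x then S.J x * S.J y else 0) =
        S.J y * ∑ x ∈ S.G0.filter
          (fun x => ¬ ((S.HasW i y → S.KCov i x y) ∧ (S.HasS i y → S.KS i x y))), S.J x := by
      rw [sum_filter, mul_sum]
      refine sum_congr rfl ?_
      intro x _
      by_cases hv : goodViol S i y x
      · have hv' : ¬ ((S.HasW i y → S.KCov i x y) ∧ (S.HasS i y → S.KS i x y)) := hv
        rw [if_pos hv, if_pos hv', mul_comm]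
      · have hv' : ¬ ¬ ((S.HasW i y → S.KCov i x y) ∧ (S.HasS i y → S.KS i x y)) := hv
        rw [if_neg hv, if_neg hv', mul_zero]
    rw [h3]
    refine mul_le_mul_of_nonneg_left (h2.trans ?_) (S.J_nonneg y hy)
    have h4 := good_term hB (S := S) i
    have h5 : 9 * S.Ck * (((S.b i : ℕ) : ℝ) ^ 5)⁻¹ = 9 * (S.Ck * (((S.b i : ℕ) : ℝ) ^ 5)⁻¹) := by
      ring
    rw [h5]
    refine mul_le_mul_of_nonneg_right ?_ m0.le
    linarith
  refine (sum_le_sum h1).trans ?_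
  rw [← sum_mul]
  apply le_of_eq
  ring

open Classical in
/-- the good pair: some typical pair satisfies the confinement properties at all levels `≤ im` -/
theorem exists_good (hB : 2 ≤ S.B) (im : ℕ) : ∃ x y, (x, y) ∈ S.Pr ∧ ∀ i ≤ im,
    (S.HasW i y → S.KCov i x y) ∧ (S.HasS i y → S.KS i x y) ∧
    (S.HasW i x → S.KCov i y x) ∧ (S.HasS i x → S.KS i y x) := by
  by_contra hcon
  have m0 := S.m0_pos
  -- every typical pair violates some level
  have hviol : ∀ e ∈ S.Pr, ∃ i ∈ range (im + 1), goodViol S i e.2 e.1 ∨ goodViol S i e.1 e.2 := by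
    intro e he
    by_contra hne
    apply hcon
    refine ⟨e.1, e.2, he, ?_⟩
    intro i hi
    have hi' : i ∈ range (im + 1) := mem_range.mpr (by omega)
    have a1 : ¬ goodViol S i e.2 e.1 := fun h => hne ⟨i, hi', Or.inl h⟩
    have a2 : ¬ goodViol S i e.1 e.2 := fun h => hne ⟨i, hi', Or.inr h⟩
    have a1' := not_not.mp a1
    have a2' := not_not.mp a2
    exact ⟨a1'.1, a1'.2, a2'.1, a2'.2⟩
  have hJ : ∀ e ∈ S.G0 ×ˢ S.G0, 0 ≤ S.J e.1 * S.J e.2 := by
    intro e he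
    obtain ⟨h1, h2⟩ := mem_product.mp he
    exact mul_nonneg (S.J_nonneg _ h1) (S.J_nonneg _ h2)
  have hW : ∀ e ∈ S.G0 ×ˢ S.G0, ∀ i, 0 ≤ (if goodViol S i e.2 e.1 then S.J e.1 * S.J e.2 else 0) +
      (if goodViol S i e.1 e.2 then S.J e.1 * S.J e.2 else 0) := by
    intro e he i
    have := hJ e he
    apply add_nonneg
    · split_ifs
      · exact this
      · exact le_rfl
    · split_ifs
      · exact this
      · exact le_rfl
  have h1 : ∑ e ∈ S.Pr, S.J e.1 * S.J e.2 ≤ ∑ e ∈ S.Pr, ∑ i ∈ range (im + 1),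
      ((if goodViol S i e.2 e.1 then S.J e.1 * S.J e.2 else 0) +
      (if goodViol S i e.1 e.2 then S.J e.1 * S.J e.2 else 0)) := by
    refine sum_le_sum ?_
    intro e he
    obtain ⟨i, hi, hv⟩ := hviol e he
    have heG := S.Pr_sub he
    refine le_trans ?_ (single_le_sum (fun j _ => hW e heG j) hi)
    have := hJ e heG
    rcases hv with hv | hv
    · rw [if_pos hv]
      have : 0 ≤ (if goodViol S i e.1 e.2 then S.J e.1 * S.J e.2 else 0) := by
        split_ifs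
        · exact this
        · exact le_rfl
      linarith
    · rw [if_pos hv]
      have : 0 ≤ (if goodViol S i e.2 e.1 then S.J e.1 * S.J e.2 else 0) := by
        split_ifs
        · exact this
        · exact le_rfl
      linarith
  have h2 : ∑ e ∈ S.Pr, ∑ i ∈ range (im + 1),
      ((if goodViol S i e.2 e.1 then S.J e.1 * S.J e.2 else 0) +
      (if goodViol S i e.1 e.2 then S.J e.1 * S.J e.2 else 0)) ≤
      ∑ e ∈ S.G0 ×ˢ S.G0, ∑ i ∈ range (im + 1),
      ((if goodViol S i e.2 e.1 then S.J e.1 * S.J e.2 else 0) +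
      (if goodViol S i e.1 e.2 then S.J e.1 * S.J e.2 else 0)) := by
    refine sum_le_sum_of_subset_of_nonneg S.Pr_sub ?_
    intro e he _
    exact sum_nonneg (fun i _ => hW e he i)
  have h3 : ∑ e ∈ S.G0 ×ˢ S.G0, ∑ i ∈ range (im + 1),
      ((if goodViol S i e.2 e.1 then S.J e.1 * S.J e.2 else 0) +
      (if goodViol S i e.1 e.2 then S.J e.1 * S.J e.2 else 0)) ≤
      ∑ i ∈ range (im + 1), 18 * (1 / 2 : ℝ) ^ (i + 10) * (∑ x ∈ S.G0, S.J x) ^ 2 := by
    rw [sum_comm]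
    refine sum_le_sum ?_
    intro i _
    rw [sum_add_distrib]
    have e1 : ∑ e ∈ S.G0 ×ˢ S.G0, (if goodViol S i e.2 e.1 then S.J e.1 * S.J e.2 else 0) ≤
        9 * (1 / 2 : ℝ) ^ (i + 10) * (∑ x ∈ S.G0, S.J x) ^ 2 := by
      rw [sum_product_right]
      exact good_pair_weight hB i
    have e2 : ∑ e ∈ S.G0 ×ˢ S.G0, (if goodViol S i e.1 e.2 then S.J e.1 * S.J e.2 else 0) ≤
        9 * (1 / 2 : ℝ) ^ (i + 10) * (∑ x ∈ S.G0, S.J x) ^ 2 := by
      rw [sum_product]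
      refine le_trans (le_of_eq ?_) (good_pair_weight (S := S) hB i)
      refine sum_congr rfl ?_
      intro y _
      refine sum_congr rfl ?_
      intro x _
      rw [mul_comm]
    linarith
  have h4 : ∑ i ∈ range (im + 1), 18 * (1 / 2 : ℝ) ^ (i + 10) * (∑ x ∈ S.G0, S.J x) ^ 2 ≤
      18 / 512 * (∑ x ∈ S.G0, S.J x) ^ 2 := by
    rw [← sum_mul, ← mul_sum]
    have := good_geom (im + 1)
    refine mul_le_mul_of_nonneg_right ?_ (sq_nonneg _)
    linarith
  have h5 := S.Pr_weight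
  have h6 : 0 < (∑ x ∈ S.G0, S.J x) ^ 2 := by positivity
  linarith

end PoolBe0380.M
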