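import Pool.Agent.Lib.MP_be0380_co.M.Basic
import Pool.Agent.Lib.MP_be0380_co.M.Seed

/-!
# be0380: the abstract machine, module A4: one level of the good pair
-/

namespace PoolBe0380.M

open Finset

section

variable {G : Type} [AddCommGroup G] [Fintype G] [DecidableEq G] {S : Sys G}

/-- `∑_{1 ≤ ℓ ≤ L} (b + 6 ℓ + 3) / 2^ℓ ≤ b + 15` -/
theorem level_sum (b : ℝ) (hb : 0 ≤ b) (L : ℕ) :
    ∑ ℓ ∈ Finset.Icc 1 L, (b + 6 * (ℓ : ℝ) + 3) / 2 ^ ℓ ≤ b + 15 := by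
  have h : ∀ L : ℕ, ∑ ℓ ∈ Finset.Icc 1 L, (b + 6 * (ℓ : ℝ) + 3) / 2 ^ ℓ =
      b + 15 - (b + 6 * (L : ℝ) + 15) / 2 ^ L := by
    intro L
    induction L with
    | zero => simp
    | succ L ih =>
      rw [Finset.sum_Icc_succ_top (by omega), ih]
      have h2 : (2 : ℝ) ^ L ≠ 0 := by positivity
      rw [pow_succ]
      push_cast
      field_simp
      ring
  rw [h]
  have : (0 : ℝ) ≤ (b + 6 * (L : ℝ) + 15) / 2 ^ L := by positivity
  linarith

/-- the average cost of a random seed, with averages `a_ℓ` -/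
theorem level_cost (S : Sys G) (Ω : Type) [Fintype Ω] (T T' : Ω → ℕ → Finset G) (b M L : ℕ)
    (c : ℝ) (hc : 0 ≤ c)
    (hT : ∀ ℓ ≤ L, (∑ ω, (((T ω ℓ).card : ℝ) + ((T' ω ℓ).card : ℝ))) ≤ c / 2 ^ ℓ)
    (W : S.K) :
    ∑ ω, S.cost (S.join W (S.lst ((Finset.Icc 1 L).biUnion
      (fun ℓ => (T ω ℓ ∪ T' ω ℓ).image (fun v => (v, b + 6 * ℓ + 1)))))) ≤
      (Fintype.card Ω : ℝ) * S.cost W + c * ((b : ℝ) + 15) := by
  classical
  have h1 : ∀ ω, S.cost (S.join W (S.lst ((Finset.Icc 1 L).biUnion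
      (fun ℓ => (T ω ℓ ∪ T' ω ℓ).image (fun v => (v, b + 6 * ℓ + 1)))))) ≤
      S.cost W + ∑ ℓ ∈ Finset.Icc 1 L,
        (((T ω ℓ).card : ℝ) + ((T' ω ℓ).card : ℝ)) * ((b : ℝ) + 6 * ℓ + 3) := by
    intro ω
    refine (S.cost_join _ _).trans (add_le_add le_rfl ?_)
    refine (S.cost_lst _).trans ?_
    rw [Finset.sum_biUnion]
    swap
    · intro ℓ _ ℓ' _ hne
      rw [Function.onFun, Finset.disjoint_left]
      intro e he he'
      obtain ⟨v, _, hv⟩ := mem_image.mp he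
      obtain ⟨v', _, hv'⟩ := mem_image.mp he'
      have h1 : b + 6 * ℓ + 1 = e.2 := by rw [← hv]
      have h2 : b + 6 * ℓ' + 1 = e.2 := by rw [← hv']
      exact hne (by omega)
    · refine Finset.sum_le_sum fun ℓ _ => ?_
      rw [sum_image (by intro a _ c _ h; exact (Prod.mk.inj h).1)]
      show (∑ _x ∈ T ω ℓ ∪ T' ω ℓ, (((b + 6 * ℓ + 1 : ℕ) : ℝ) + 2)) ≤ _
      rw [sum_const, nsmul_eq_mul]
      have h2 : (((T ω ℓ ∪ T' ω ℓ).card : ℕ) : ℝ) ≤ ((T ω ℓ).card : ℝ) + ((T' ω ℓ).card : ℝ) := by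
        exact_mod_cast card_union_le _ _
      have e : (((b + 6 * ℓ + 1 : ℕ) : ℝ) + 2) = (b : ℝ) + 6 * ℓ + 3 := by push_cast; ring
      rw [e]
      exact mul_le_mul_of_nonneg_right h2 (by positivity)
  calc _ ≤ ∑ ω, (S.cost W + ∑ ℓ ∈ Finset.Icc 1 L,
        (((T ω ℓ).card : ℝ) + ((T' ω ℓ).card : ℝ)) * ((b : ℝ) + 6 * ℓ + 3)) :=
        Finset.sum_le_sum fun ω _ => h1 ω
    _ = (Fintype.card Ω : ℝ) * S.cost W + ∑ ℓ ∈ Finset.Icc 1 L,
        (∑ ω, (((T ω ℓ).card : ℝ) + ((T' ω ℓ).card : ℝ))) * ((b : ℝ) + 6 * ℓ + 3) := by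
        rw [Finset.sum_add_distrib, Finset.sum_const, nsmul_eq_mul, Finset.sum_comm]
        congr 1
        refine Finset.sum_congr rfl fun ℓ _ => ?_
        rw [Finset.sum_mul]
    _ ≤ (Fintype.card Ω : ℝ) * S.cost W + ∑ ℓ ∈ Finset.Icc 1 L,
        (c / 2 ^ ℓ) * ((b : ℝ) + 6 * ℓ + 3) := by
        refine add_le_add le_rfl (Finset.sum_le_sum fun ℓ hℓ => ?_)
        exact mul_le_mul_of_nonneg_right (hT ℓ (Finset.mem_Icc.mp hℓ).2) (by positivity)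
    _ = (Fintype.card Ω : ℝ) * S.cost W + c * ∑ ℓ ∈ Finset.Icc 1 L,
        ((b : ℝ) + 6 * ℓ + 3) / 2 ^ ℓ := by
        rw [Finset.mul_sum]
        congr 1
        refine Finset.sum_congr rfl fun ℓ _ => ?_
        ring
    _ ≤ _ := by
        refine add_le_add le_rfl (mul_le_mul_of_nonneg_left ?_ hc)
        exact level_sum (b : ℝ) (Nat.cast_nonneg _) L

/-- Markov, the strong part -/
theorem level_strong (hB : 2 ≤ S.B) (i : ℕ) (y : G) (Q : G → Prop) [DecidablePred Q]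
    (hQ : ∀ x ∈ S.G0, Q x → S.HasS i y ∧ ¬ S.KS i x y) :
    ∑ x ∈ S.G0.filter Q, S.J x ≤ S.Ck * (((S.b i : ℕ) : ℝ) ^ 5)⁻¹ * ∑ x ∈ S.G0, S.J x := by
  classical
  obtain ⟨b, hb⟩ : ∃ b : ℕ, b = S.b i := ⟨_, rfl⟩
  have hbpos : (0 : ℝ) < (b : ℝ) := by rw [hb]; exact_mod_cast Sys.b_pos hB i
  have hm0 := S.m0_pos
  by_cases hs : S.HasS i y
  · obtain ⟨V, hV1, hV2⟩ := hs
    have h1 : ∀ x ∈ S.G0.filter Q, S.J x * S.kc i ≤ S.J x * S.kap V x := by
      intro x hx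
      rw [mem_filter] at hx
      refine mul_le_mul_of_nonneg_left ?_ (S.J_nonneg x hx.1)
      by_contra hcon
      exact (hQ x hx.1 hx.2).2 ⟨V, (not_le.mp hcon).le, hV1, hV2⟩
    have h2 : (∑ x ∈ S.G0.filter Q, S.J x) * S.kc i ≤
        S.Ck * (S.cost V / S.D) * ∑ x ∈ S.G0, S.J x := by
      rw [Finset.sum_mul]
      refine (Finset.sum_le_sum h1).trans ?_
      refine (Finset.sum_le_sum_of_subset_of_nonneg (Finset.filter_subset _ _) ?_).trans (S.budget V)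
      intro x hx _
      exact mul_nonneg (S.J_nonneg x hx) (S.kap_nonneg V x hx)
    have h3 : S.cost V / S.D ≤ S.eta i := by
      rw [div_le_iff₀ S.D_pos]
      have := mul_pos (Sys.eta_pos hB i) S.D_pos
      linarith
    have h4 : (∑ x ∈ S.G0.filter Q, S.J x) * S.kc i ≤ S.Ck * S.eta i * ∑ x ∈ S.G0, S.J x := by
      refine h2.trans ?_
      exact mul_le_mul_of_nonneg_right (mul_le_mul_of_nonneg_left h3 S.Ck_nonneg) hm0.le
    have e1 : S.kc i = ((b : ℝ) ^ 4)⁻¹ := by unfold Sys.kc; rw [hb]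
    have e2 : S.eta i = ((b : ℝ) ^ 9)⁻¹ := by unfold Sys.eta; rw [hb]
    rw [e1, e2, ← div_eq_mul_inv, div_le_iff₀ (by positivity)] at h4
    rw [← hb]
    refine h4.trans (le_of_eq ?_)
    have h9 : (b : ℝ) ^ 9 = (b : ℝ) ^ 5 * (b : ℝ) ^ 4 := by rw [← pow_add]
    rw [h9]
    have hne4 : (b : ℝ) ^ 4 ≠ 0 := by positivity
    have hne5 : (b : ℝ) ^ 5 ≠ 0 := by positivity
    field_simp
  · have : S.G0.filter Q = ∅ := by
      rw [Finset.filter_eq_empty_iff]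
      intro x hx hq
      exact hs (hQ x hx hq).1
    rw [this, Finset.sum_empty]
    have := S.Ck_nonneg
    positivity

/-- Markov, the weak part -/
theorem level_weak (hB : 2 ≤ S.B) (i : ℕ) (y : G) (hy : y ∈ S.G0) (Q : G → Prop) [DecidablePred Q]
    (hQ : ∀ x ∈ S.G0, Q x → S.HasW i y ∧ ¬ S.KCov i x y) :
    ∑ x ∈ S.G0.filter Q, S.J x ≤ 8 * S.Ck * (((S.b i : ℕ) : ℝ) ^ 5)⁻¹ * ∑ x ∈ S.G0, S.J x := by
  classical
  obtain ⟨b, hb⟩ : ∃ b : ℕ, b = S.b i := ⟨_, rfl⟩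
  have hb100 : 2 ^ 100 ≤ b := by rw [hb]; exact Sys.two_pow_le_b hB i (by norm_num)
  have hbpos : (0 : ℝ) < (b : ℝ) := by rw [hb]; exact_mod_cast Sys.b_pos hB i
  have hb1 : (1 : ℝ) ≤ (b : ℝ) := by exact_mod_cast (le_trans (by norm_num) hb100 : 1 ≤ b)
  have hm0 := S.m0_pos
  have hD := S.D_pos
  by_cases hw : S.HasW i y
  swap
  · have : S.G0.filter Q = ∅ := by
      rw [Finset.filter_eq_empty_iff]
      intro x hx hq
      exact hw (hQ x hx hq).1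
    rw [this, Finset.sum_empty]
    have := S.Ck_nonneg
    positivity
  obtain ⟨W, hW1, hW2⟩ := hw
  obtain ⟨L, hL⟩ := exists_nat_gt (2 * S.h)
  obtain ⟨Ω, _, hne, T, T', hTX, hTc, hTm⟩ := seed_exists (S.X i y) (b ^ 100) L
    (Nat.one_le_pow _ _ (le_trans (by norm_num) hb100))
  let F : Ω → S.K := fun ω => S.join W (S.lst ((Finset.Icc 1 L).biUnion
      (fun ℓ => (T ω ℓ ∪ T' ω ℓ).image (fun v => (v, b + 6 * ℓ + 1)))))
  have hΩ : (0 : ℝ) < (Fintype.card Ω : ℝ) := by exact_mod_cast Fintype.card_pos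
  have hXh : ((S.X i y).card : ℝ) ≤ S.h := Sys.card_X_le hB i hy
  -- the average cost
  have hcost : ∑ ω, S.cost (F ω) ≤ (Fintype.card Ω : ℝ) * (2 * (((b : ℝ) ^ 9)⁻¹ * S.D)) := by
    have h1 := level_cost S Ω T T' b (b ^ 100) L (2 * S.h / (b : ℝ) ^ 100 * (Fintype.card Ω : ℝ))
      (by have := S.h_pos; positivity) (by
        intro ℓ hℓ
        refine (hTc ℓ hℓ).trans ?_
        have e : 2 * S.h / (b : ℝ) ^ 100 * (Fintype.card Ω : ℝ) / 2 ^ ℓ =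
            2 * S.h / (((b ^ 100 : ℕ) : ℝ) * 2 ^ ℓ) * (Fintype.card Ω : ℝ) := by
          push_cast
          field_simp
        rw [e]
        apply mul_le_mul_of_nonneg_right _ hΩ.le
        apply div_le_div_of_nonneg_right _ (by positivity)
        linarith) W
    refine h1.trans ?_
    have hh : S.h ≤ (b : ℝ) ^ 10 * S.D := by
      refine S.h_le.trans ?_
      apply mul_le_mul_of_nonneg_right _ S.D_pos.le
      apply pow_le_pow_left₀ (by positivity)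
      rw [hb, Sys.b_eqR]
      exact pow_le_pow_left₀ (Nat.cast_nonneg _) (Sys.B_le_be hB i) _
    have h15 : (b : ℝ) + 15 ≤ 2 * (b : ℝ) := by
      have : (15 : ℝ) ≤ (b : ℝ) := by exact_mod_cast (le_trans (by norm_num) hb100 : 15 ≤ b)
      linarith
    have h4b : (4 : ℝ) ≤ (b : ℝ) := by exact_mod_cast (le_trans (by norm_num) hb100 : 4 ≤ b)
    have hsmall : 2 * S.h / (b : ℝ) ^ 100 * ((b : ℝ) + 15) ≤ ((b : ℝ) ^ 9)⁻¹ * S.D := by
      calc 2 * S.h / (b : ℝ) ^ 100 * ((b : ℝ) + 15)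
          ≤ 2 * ((b : ℝ) ^ 10 * S.D) / (b : ℝ) ^ 100 * (2 * (b : ℝ)) := by
            apply mul_le_mul _ h15 (by positivity) (by positivity)
            apply div_le_div_of_nonneg_right _ (by positivity)
            linarith
        _ = 4 * (((b : ℝ) ^ 89)⁻¹ * S.D) := by
            have e : (b : ℝ) ^ 100 = (b : ℝ) ^ 89 * (b : ℝ) ^ 10 * (b : ℝ) := by
              rw [← pow_add, ← pow_succ]
            rw [e]
            have hn1 : (b : ℝ) ^ 89 ≠ 0 := by positivity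
            have hn2 : (b : ℝ) ^ 10 ≠ 0 := by positivity
            have hn3 : (b : ℝ) ≠ 0 := by positivity
            field_simp
            norm_num
        _ ≤ ((b : ℝ) ^ 9)⁻¹ * S.D := by
            rw [← mul_assoc]
            apply mul_le_mul_of_nonneg_right _ hD.le
            rw [← div_eq_mul_inv, div_le_iff₀ (by positivity)]
            calc (4 : ℝ) ≤ (b : ℝ) := h4b
              _ = (b : ℝ) ^ 1 := (pow_one _).symm
              _ ≤ (b : ℝ) ^ 80 := pow_le_pow_right₀ hb1 (by norm_num)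
              _ = ((b : ℝ) ^ 9)⁻¹ * (b : ℝ) ^ 89 := by
                have e : (b : ℝ) ^ 89 = (b : ℝ) ^ 9 * (b : ℝ) ^ 80 := by rw [← pow_add]
                have hn1 : (b : ℝ) ^ 9 ≠ 0 := by positivity
                rw [e, ← mul_assoc, inv_mul_cancel₀ hn1, one_mul]
    have hWc : S.cost W ≤ ((b : ℝ) ^ 9)⁻¹ * S.D := by
      refine hW1.trans (le_of_eq ?_)
      unfold Sys.eta
      rw [hb]
    calc (Fintype.card Ω : ℝ) * S.cost W +
          2 * S.h / (b : ℝ) ^ 100 * (Fintype.card Ω : ℝ) * ((b : ℝ) + 15)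
        = (Fintype.card Ω : ℝ) * (S.cost W + 2 * S.h / (b : ℝ) ^ 100 * ((b : ℝ) + 15)) := by ring
      _ ≤ (Fintype.card Ω : ℝ) * (2 * (((b : ℝ) ^ 9)⁻¹ * S.D)) := by
          apply mul_le_mul_of_nonneg_left _ hΩ.le
          linarith
  -- the average of the confinements
  have hbud : ∑ x ∈ S.G0, S.J x * ∑ ω, S.kap (F ω) x ≤
      S.Ck * ((Fintype.card Ω : ℝ) * (2 * ((b : ℝ) ^ 9)⁻¹)) * ∑ x ∈ S.G0, S.J x := by
    have h1 : ∑ x ∈ S.G0, S.J x * ∑ ω, S.kap (F ω) x = ∑ ω, ∑ x ∈ S.G0, S.J x * S.kap (F ω) x := by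
      rw [Finset.sum_comm]
      exact Finset.sum_congr rfl fun x _ => Finset.mul_sum _ _ _
    rw [h1]
    calc ∑ ω, ∑ x ∈ S.G0, S.J x * S.kap (F ω) x
        ≤ ∑ ω, S.Ck * (S.cost (F ω) / S.D) * ∑ x ∈ S.G0, S.J x :=
          Finset.sum_le_sum fun ω _ => S.budget (F ω)
      _ = S.Ck * ((∑ ω, S.cost (F ω)) / S.D) * ∑ x ∈ S.G0, S.J x := by
          rw [← Finset.sum_mul, ← Finset.mul_sum, Finset.sum_div]
      _ ≤ S.Ck * ((Fintype.card Ω : ℝ) * (2 * ((b : ℝ) ^ 9)⁻¹)) * ∑ x ∈ S.G0, S.J x := by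
          apply mul_le_mul_of_nonneg_right _ hm0.le
          apply mul_le_mul_of_nonneg_left _ S.Ck_nonneg
          rw [div_le_iff₀ hD]
          refine hcost.trans (le_of_eq ?_)
          ring
  -- a bad point has large confinement for half of the seeds
  have hbad : ∀ x ∈ S.G0.filter Q, ((b : ℝ) ^ 4)⁻¹ * ((Fintype.card Ω : ℝ) / 2) ≤
      ∑ ω, S.kap (F ω) x := by
    intro x hx
    rw [mem_filter] at hx
    have hnc := (hQ x hx.1 hx.2).2
    unfold Sys.KCov at hnc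
    push Not at hnc
    obtain ⟨Z, hZ1, hZ2, hZ3⟩ := hnc
    -- levels of `Z` are at most `L`
    have hZL : ∀ e ∈ Z, e.1 ≤ L := by
      intro e he
      by_contra hcon
      have hcon : L < e.1 := not_le.mp hcon
      have h1 : Real.exp (-((S.r i y e.2 : ℕ) : ℝ) / (((S.b i : ℕ) : ℝ) ^ 100 * 2 ^ e.1) ^ 2) ≤ 1 / 2 := by
        refine le_trans ?_ hZ2
        exact Finset.single_le_sum (f := fun e : ℕ × G =>
          Real.exp (-((S.r i y e.2 : ℕ) : ℝ) / (((S.b i : ℕ) : ℝ) ^ 100 * 2 ^ e.1) ^ 2))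
          (fun e _ => (Real.exp_pos _).le) he
      have hr : ((S.r i y e.2 : ℕ) : ℝ) ≤ S.h := by
        refine le_trans ?_ hXh
        exact_mod_cast Sys.r_le i y e.2
      have h2 : 2 * S.h < (2 : ℝ) ^ e.1 := by
        calc 2 * S.h < (L : ℝ) := hL
          _ ≤ (e.1 : ℝ) := by exact_mod_cast hcon.le
          _ ≤ (2 : ℝ) ^ e.1 := by exact_mod_cast (Nat.lt_two_pow_self).le
      have h3 : (1 : ℝ) ≤ (2 : ℝ) ^ e.1 := one_le_pow₀ (by norm_num)
      have h4 : (2 : ℝ) ^ e.1 ≤ ((b : ℝ) ^ 100 * 2 ^ e.1) ^ 2 := by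
        have h5 : (1 : ℝ) ≤ (b : ℝ) ^ 100 := one_le_pow₀ hb1
        calc (2 : ℝ) ^ e.1 = 1 * (2 : ℝ) ^ e.1 := (one_mul _).symm
          _ ≤ (b : ℝ) ^ 100 * 2 ^ e.1 := mul_le_mul_of_nonneg_right h5 (by positivity)
          _ = (b : ℝ) ^ 100 * 2 ^ e.1 * 1 := (mul_one _).symm
          _ ≤ ((b : ℝ) ^ 100 * 2 ^ e.1) * ((b : ℝ) ^ 100 * 2 ^ e.1) := by
              apply mul_le_mul_of_nonneg_left _ (by positivity)
              calc (1 : ℝ) = 1 * 1 := (one_mul 1).symm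
                _ ≤ (b : ℝ) ^ 100 * 2 ^ e.1 := mul_le_mul h5 h3 zero_le_one (by positivity)
          _ = ((b : ℝ) ^ 100 * 2 ^ e.1) ^ 2 := (sq _).symm
      rw [← hb] at h1
      have h6 : -(1 / 2 : ℝ) ≤ -((S.r i y e.2 : ℕ) : ℝ) / ((b : ℝ) ^ 100 * 2 ^ e.1) ^ 2 := by
        rw [neg_div]
        apply neg_le_neg
        rw [div_le_iff₀ (by positivity)]
        linarith
      have h7 := Real.add_one_le_exp (-((S.r i y e.2 : ℕ) : ℝ) / ((b : ℝ) ^ 100 * 2 ^ e.1) ^ 2)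
      have h8 : -((S.r i y e.2 : ℕ) : ℝ) / ((b : ℝ) ^ 100 * 2 ^ e.1) ^ 2 = -(1 / 2 : ℝ) := by
        linarith
      have h9 := Real.add_one_lt_exp (x := -(1 / 2 : ℝ)) (by norm_num)
      rw [h8] at h1
      linarith
    -- the seeds which do not cover `Z`
    let U : ℕ × G → Finset Ω := fun e => univ.filter (fun ω => ∀ c ∈ T' ω e.1, c + e.2 ∉ T ω e.1)
    have hU : (((Z.biUnion U).card : ℕ) : ℝ) ≤ (Fintype.card Ω : ℝ) / 2 := by
      calc (((Z.biUnion U).card : ℕ) : ℝ) ≤ ∑ e ∈ Z, (((U e).card : ℕ) : ℝ) := by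
            exact_mod_cast card_biUnion_le
        _ ≤ ∑ e ∈ Z, Real.exp (-((S.r i y e.2 : ℕ) : ℝ) / (((S.b i : ℕ) : ℝ) ^ 100 * 2 ^ e.1) ^ 2) *
            (Fintype.card Ω : ℝ) := by
            refine Finset.sum_le_sum fun e he => ?_
            have h := hTm e.1 (hZL e he) e.2
            rw [← hb]
            have e1 : (((b ^ 100 : ℕ) : ℝ) * 2 ^ e.1) = (b : ℝ) ^ 100 * 2 ^ e.1 := by push_cast; rfl
            rw [e1] at h
            have e2 : S.r i y e.2 = ((S.X i y).filter (fun c => c + e.2 ∈ S.X i y)).card := by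
              unfold Sys.r
              congr!
            rw [e2]
            exact h
        _ = (∑ e ∈ Z, Real.exp (-((S.r i y e.2 : ℕ) : ℝ) /
              (((S.b i : ℕ) : ℝ) ^ 100 * 2 ^ e.1) ^ 2)) * (Fintype.card Ω : ℝ) := by
            rw [Finset.sum_mul]
        _ ≤ 1 / 2 * (Fintype.card Ω : ℝ) := mul_le_mul_of_nonneg_right hZ2 hΩ.le
        _ = (Fintype.card Ω : ℝ) / 2 := by ring
    have hgood : ∀ ω ∈ (Z.biUnion U)ᶜ, ((b : ℝ) ^ 4)⁻¹ ≤ S.kap (F ω) x := by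
      intro ω hω
      rw [mem_compl] at hω
      have hcov : ∀ e ∈ Z, S.N (F ω) e.2 ≤ (1 / 2 : ℝ) ^ (S.b i + 6 * e.1) := by
        intro e he
        have h1 : ω ∉ U e := fun h => hω (mem_biUnion.mpr ⟨e, he, h⟩)
        have h2 : ¬ ∀ c ∈ T' ω e.1, c + e.2 ∉ T ω e.1 := by
          intro h; exact h1 (mem_filter.mpr ⟨mem_univ _, h⟩)
        push Not at h2
        obtain ⟨c, hc1, hc2⟩ := h2
        have hmem : ∀ v ∈ T ω e.1 ∪ T' ω e.1, S.N (F ω) v ≤ (1 / 2 : ℝ) ^ (b + 6 * e.1 + 1) := by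
          intro v hv
          refine (S.N_join_right _ _ _).trans ?_
          refine S.N_lst _ (v, b + 6 * e.1 + 1) ?_
          rw [mem_biUnion]
          exact ⟨e.1, Finset.mem_Icc.mpr ⟨hZ1 e he, hZL e he⟩, mem_image_of_mem _ hv⟩
        have h3 := hmem c (mem_union_right _ hc1)
        have h4 := hmem (c + e.2) (mem_union_left _ hc2)
        have e3 : e.2 = (c + e.2) - c := by abel
        rw [← hb]
        calc S.N (F ω) e.2 = S.N (F ω) ((c + e.2) - c) := by rw [← e3]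
          _ ≤ S.N (F ω) (c + e.2) + S.N (F ω) c := S.N_sub _ _ _
          _ ≤ (1 / 2 : ℝ) ^ (b + 6 * e.1 + 1) + (1 / 2 : ℝ) ^ (b + 6 * e.1 + 1) := add_le_add h4 h3
          _ = (1 / 2 : ℝ) ^ (b + 6 * e.1) := by rw [pow_succ]; ring
      by_contra hcon
      have hk : S.kap (F ω) x ≤ S.kc i := by
        have : S.kc i = ((b : ℝ) ^ 4)⁻¹ := by unfold Sys.kc; rw [hb]
        rw [this]
        exact (not_le.mp hcon).le
      have hWN : ∀ c ∈ S.X i y, ∀ c' ∈ S.X i y, S.N (F ω) (c - c') ≤ (1 / 2 : ℝ) ^ S.b i :=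
        fun c hc c' hc' => (S.N_join_left _ _ _).trans (hW2 c hc c' hc')
      obtain ⟨e, he, hlt⟩ := hZ3 (F ω) hk hWN
      exact absurd (hcov e he) (not_le.mpr hlt)
    have hcard : (Fintype.card Ω : ℝ) / 2 ≤ ((((Z.biUnion U)ᶜ).card : ℕ) : ℝ) := by
      have h1 : ((Z.biUnion U)ᶜ).card + (Z.biUnion U).card = Fintype.card Ω := by
        rw [card_compl]
        have := card_le_univ (Z.biUnion U)
        omega
      have h2 : ((((Z.biUnion U)ᶜ).card : ℕ) : ℝ) + (((Z.biUnion U).card : ℕ) : ℝ) =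
          (Fintype.card Ω : ℝ) := by exact_mod_cast h1
      linarith
    calc ((b : ℝ) ^ 4)⁻¹ * ((Fintype.card Ω : ℝ) / 2)
        ≤ ((b : ℝ) ^ 4)⁻¹ * ((((Z.biUnion U)ᶜ).card : ℕ) : ℝ) :=
          mul_le_mul_of_nonneg_left hcard (by positivity)
      _ = ∑ ω ∈ (Z.biUnion U)ᶜ, ((b : ℝ) ^ 4)⁻¹ := by
          rw [Finset.sum_const, nsmul_eq_mul, mul_comm]
      _ ≤ ∑ ω ∈ (Z.biUnion U)ᶜ, S.kap (F ω) x := Finset.sum_le_sum hgood
      _ ≤ ∑ ω, S.kap (F ω) x :=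
          Finset.sum_le_sum_of_subset_of_nonneg (Finset.subset_univ _)
            (fun ω _ _ => S.kap_nonneg (F ω) x hx.1)
  have hfin : (∑ x ∈ S.G0.filter Q, S.J x) * (((b : ℝ) ^ 4)⁻¹ * ((Fintype.card Ω : ℝ) / 2)) ≤
      S.Ck * ((Fintype.card Ω : ℝ) * (2 * ((b : ℝ) ^ 9)⁻¹)) * ∑ x ∈ S.G0, S.J x := by
    rw [Finset.sum_mul]
    refine le_trans ?_ hbud
    refine (Finset.sum_le_sum fun x hx => mul_le_mul_of_nonneg_left (hbad x hx)
      (S.J_nonneg x (mem_filter.mp hx).1)).trans ?_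
    refine Finset.sum_le_sum_of_subset_of_nonneg (Finset.filter_subset _ _) ?_
    intro x hx _
    exact mul_nonneg (S.J_nonneg x hx) (Finset.sum_nonneg fun ω _ => S.kap_nonneg (F ω) x hx)
  rw [← hb]
  have hpos : (0 : ℝ) < ((b : ℝ) ^ 4)⁻¹ * ((Fintype.card Ω : ℝ) / 2) := by positivity
  rw [← le_div_iff₀ hpos] at hfin
  refine hfin.trans ?_
  have hCk := S.Ck_nonneg
  have e : S.Ck * ((Fintype.card Ω : ℝ) * (2 * ((b : ℝ) ^ 9)⁻¹)) * (∑ x ∈ S.G0, S.J x) /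
      (((b : ℝ) ^ 4)⁻¹ * ((Fintype.card Ω : ℝ) / 2)) =
      4 * S.Ck * ((b : ℝ) ^ 5)⁻¹ * ∑ x ∈ S.G0, S.J x := by
    have h9 : (b : ℝ) ^ 9 = (b : ℝ) ^ 5 * (b : ℝ) ^ 4 := by rw [← pow_add]
    rw [h9]
    have hne4 : (b : ℝ) ^ 4 ≠ 0 := by positivity
    have hne5 : (b : ℝ) ^ 5 ≠ 0 := by positivity
    have hneΩ : (Fintype.card Ω : ℝ) ≠ 0 := hΩ.ne'
    field_simp
    norm_num
  rw [e]
  have : 0 ≤ S.Ck * ((b : ℝ) ^ 5)⁻¹ * ∑ x ∈ S.G0, S.J x := by positivity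
  nlinarith

open Classical in
/-- module A4: the weight of the points which are bad for `y` at level `i` -/
theorem level_weight (hB : 2 ≤ S.B) (i : ℕ) (y : G) (hy : y ∈ S.G0) :
    ∑ x ∈ S.G0.filter (fun x => ¬ ((S.HasW i y → S.KCov i x y) ∧ (S.HasS i y → S.KS i x y))), S.J x ≤
      9 * S.Ck * (((S.b i : ℕ) : ℝ) ^ 5)⁻¹ * ∑ x ∈ S.G0, S.J x := by
  have h1 := level_weak hB i y hy (fun x => S.HasW i y ∧ ¬ S.KCov i x y) (fun _ _ h => h)
  have h2 := level_strong hB i y (fun x => S.HasS i y ∧ ¬ S.KS i x y) (fun _ _ h => h)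
  have h3 : S.G0.filter (fun x => ¬ ((S.HasW i y → S.KCov i x y) ∧ (S.HasS i y → S.KS i x y))) ⊆
      S.G0.filter (fun x => S.HasW i y ∧ ¬ S.KCov i x y) ∪
      S.G0.filter (fun x => S.HasS i y ∧ ¬ S.KS i x y) := by
    intro x hx
    rw [mem_filter] at hx
    rw [mem_union, mem_filter, mem_filter]
    by_cases h : S.HasW i y → S.KCov i x y
    · right
      refine ⟨hx.1, ?_⟩
      by_contra hcon
      apply hx.2
      refine ⟨h, fun hs => ?_⟩
      by_contra hk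
      exact hcon ⟨hs, hk⟩
    · left
      push Not at h
      exact ⟨hx.1, h⟩
  calc _ ≤ ∑ x ∈ S.G0.filter (fun x => S.HasW i y ∧ ¬ S.KCov i x y) ∪
      S.G0.filter (fun x => S.HasS i y ∧ ¬ S.KS i x y), S.J x := by
        refine Finset.sum_le_sum_of_subset_of_nonneg h3 ?_
        intro x hx _
        rcases mem_union.mp hx with hx | hx
        · exact S.J_nonneg x (mem_filter.mp hx).1
        · exact S.J_nonneg x (mem_filter.mp hx).1
    _ ≤ (∑ x ∈ S.G0.filter (fun x => S.HasW i y ∧ ¬ S.KCov i x y), S.J x) +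
        ∑ x ∈ S.G0.filter (fun x => S.HasS i y ∧ ¬ S.KS i x y), S.J x := by
        rw [← Finset.sum_union_inter]
        have : 0 ≤ ∑ x ∈ S.G0.filter (fun x => S.HasW i y ∧ ¬ S.KCov i x y) ∩
            S.G0.filter (fun x => S.HasS i y ∧ ¬ S.KS i x y), S.J x :=
          Finset.sum_nonneg fun x hx => S.J_nonneg x (mem_filter.mp (mem_inter.mp hx).1).1
        linarith
    _ ≤ 8 * S.Ck * (((S.b i : ℕ) : ℝ) ^ 5)⁻¹ * (∑ x ∈ S.G0, S.J x) +
        S.Ck * (((S.b i : ℕ) : ℝ) ^ 5)⁻¹ * ∑ x ∈ S.G0, S.J x := add_le_add h1 h2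
    _ = 9 * S.Ck * (((S.b i : ℕ) : ℝ) ^ 5)⁻¹ * ∑ x ∈ S.G0, S.J x := by ring

end

end PoolBe0380.M
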